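import Pool.Agent.V11291.FK.Set
import Pool.Agent.TH423.SH.PAIP

/-!
# A fixed number of primes: the discriminants
-/

set_option autoImplicit false
set_option linter.unusedSectionVars false
set_option linter.unusedVariables false

open scoped Classical

namespace Pool.Agent.V11291.FK

open Finset Filter Topology
open Pool.Agent.Y703.CQ
open Pool.Agent.Y219.CQ (sp)
open Pool.Agent.Y687.MQ (AdmD matD)
open Pool.Agent.Y687.JQ (CL CL_iff)

/-- the number of the integers `D` with `|D| ≤ X` and `Q D` -/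
noncomputable def cnt (Q : ℤ → Prop) (X : ℕ) : ℕ := Nat.card {D : ℤ // |D| ≤ X ∧ Q D}

theorem cnt_eq (Q : Finset ℕ → Prop) (X : ℕ) :
    cnt (fun D => AdmD D ∧ Q D.natAbs.primeFactors) X = ((SS {3, 5} {0, 1} X).filter Q).card := by
  unfold cnt
  rw [← Fintype.card_coe, ← Nat.card_eq_fintype_card]
  have hprod : ∀ S : Finset ℕ, CL S → (Pool.Agent.Y687.DD S).natAbs = ∏ p ∈ S, p := by
    intro S hS
    have h1 := Nat.prod_primeFactors_of_squarefree (Int.squarefree_natAbs.2 hS.sqf)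
    rw [hS.natAbs] at h1
    exact h1.symm
  refine Nat.card_congr
    { toFun := fun D => ⟨D.1.natAbs.primeFactors, ?_⟩
      invFun := fun S => ⟨Pool.Agent.Y687.DD S.1, ?_⟩
      left_inv := ?_
      right_inv := ?_ }
  · obtain ⟨D, h1, h2, h3⟩ := D
    obtain ⟨h4, h5⟩ := Pool.Agent.Y687.JQ.of_adm h2
    have h6 : ∏ p ∈ D.natAbs.primeFactors, p = D.natAbs :=
      Nat.prod_primeFactors_of_squarefree (Int.squarefree_natAbs.2 h2.1)
    have h7 : D.natAbs ≤ X := by
      have : (D.natAbs : ℤ) ≤ X := by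
        rw [Int.natCast_natAbs]
        exact h1
      exact_mod_cast this
    rw [mem_filter]
    unfold SS
    rw [mem_filter, mem_powerset]
    refine ⟨⟨fun p hp => ?_, h4, by rw [h6]; exact h7⟩, h3⟩
    rw [mem_range]
    have h8 : p ≤ D.natAbs := Nat.le_of_mem_primeFactors hp
    exact Nat.lt_succ_of_le (h8.trans h7)
  · obtain ⟨S, hS⟩ := S
    rw [mem_filter] at hS
    unfold SS at hS
    rw [mem_filter] at hS
    obtain ⟨⟨-, h1, h2⟩, h3⟩ := hS
    have h4 : CL S := h1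
    refine ⟨?_, h4.adm, ?_⟩
    · rw [Int.abs_eq_natAbs, hprod S h4]
      exact_mod_cast h2
    · rw [h4.natAbs]
      exact h3
  · rintro ⟨D, h1, h2, h3⟩
    exact Subtype.ext (Pool.Agent.Y687.JQ.of_adm h2).2
  · rintro ⟨S, hS⟩
    rw [mem_filter] at hS
    unfold SS at hS
    rw [mem_filter] at hS
    have h4 : CL S := hS.1.2.1
    exact Subtype.ext h4.natAbs

/-- the number of the prime factors in a class modulo `8` -/
def kd (r : ℕ) (D : ℤ) : ℕ := (D.natAbs.primeFactors.filter fun p => p % 8 = r).card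

/-- the family of the discriminants -/
def Nf (A : ℕ → Prop) (k a b : ℕ) (D : ℤ) : Prop :=
  AdmD D ∧ (∀ p ∈ D.natAbs.primeFactors, A p) ∧ kd 1 D = k ∧ kd 3 D = a ∧ kd 5 D = b

/-- the index type -/
abbrev Ix (k a b : ℕ) : Type := (Fin k ⊕ Fin a) ⊕ Fin b

/-- the residues -/
def tx (k a b : ℕ) : Ix k a b → ℕ := Sum.elim (Sum.elim (fun _ => 1) fun _ => 3) fun _ => 5

theorem card_Ix (k a b : ℕ) : Fintype.card (Ix k a b) = k + a + b := by
  rw [Fintype.card_sum, Fintype.card_sum, Fintype.card_fin, Fintype.card_fin, Fintype.card_fin]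

theorem card_tx (k a b : ℕ) : (univ.filter fun i => tx k a b i = 1).card = k ∧
    (univ.filter fun i => tx k a b i = 3).card = a ∧ (univ.filter fun i => tx k a b i = 5).card = b := by
  unfold tx
  refine ⟨?_, ?_, ?_⟩
  · rw [Finset.card_filter, Fintype.sum_sum_type, Fintype.sum_sum_type]
    simp
  · rw [Finset.card_filter, Fintype.sum_sum_type, Fintype.sum_sum_type]
    simp
  · rw [Finset.card_filter, Fintype.sum_sum_type, Fintype.sum_sum_type]
    simp

theorem nf_iff (A : ℕ → Prop) (k a b : ℕ) (D : ℤ) :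
    Nf A k a b D ↔ AdmD D ∧ QF A (tx k a b) D.natAbs.primeFactors := by
  obtain ⟨h1, h2, h3⟩ := card_tx k a b
  unfold Nf QF kd
  refine and_congr_right fun _ => and_congr_right fun _ => ?_
  constructor
  · rintro ⟨e1, e2, e3⟩ r hr
    rw [mem_insert, mem_insert, mem_singleton] at hr
    rcases hr with rfl | rfl | rfl
    · rw [e1, h1]
    · rw [e2, h2]
    · rw [e3, h3]
  · intro h
    exact ⟨(h 1 (by simp)).trans h1, (h 3 (by simp)).trans h2, (h 5 (by simp)).trans h3⟩

/-- the density conditions -/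
def Dc (A : ℕ → Prop) (k a b : ℕ) : Prop :=
  (1 ≤ k → Dn fun p => A p ∧ Cp p ∧ p % 8 = 1) ∧ (1 ≤ a → Dn fun p => A p ∧ Cp p ∧ p % 8 = 3) ∧
    (1 ≤ b → Dn fun p => A p ∧ Cp p ∧ p % 8 = 5)

theorem dn_of {A : ℕ → Prop} {k a b : ℕ} (h : Dc A k a b) (i : Ix k a b) : Dn (PP A (tx k a b) i) := by
  rcases i with (i | i) | i
  · exact h.1 (by have := i.2; omega)
  · exact h.2.1 (by have := i.2; omega)
  · exact h.2.2 (by have := i.2; omega)

theorem tx_mem (k a b : ℕ) (i : Ix k a b) : tx k a b i ∈ ({1, 3, 5} : Finset ℕ) := by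
  rcases i with (i | i) | i <;> simp [tx]

theorem cnt_nf (A : ℕ → Prop) (k a b X : ℕ) [LinearOrder (Ix k a b)] :
    cnt (Nf A k a b) X = (Fm A (tx k a b) X).card := by
  have e : Nf A k a b = fun D => AdmD D ∧ QF A (tx k a b) D.natAbs.primeFactors :=
    funext fun D => propext (nf_iff A k a b D)
  rw [e, cnt_eq]
  rfl

theorem cnt_nf_det (A : ℕ → Prop) (k a b X : ℕ) [LinearOrder (Ix k a b)] :
    cnt (fun D => Nf A k a b D ∧ (matD D).det ≠ 0) X =
      ((Fm A (tx k a b) X).filter (Gd ff)).card := by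
  have e : (fun D => Nf A k a b D ∧ (matD D).det ≠ 0) =
      fun D => AdmD D ∧ (QF A (tx k a b) D.natAbs.primeFactors ∧ Gd ff D.natAbs.primeFactors) :=
    funext fun D => propext (by rw [nf_iff, gd_iff, and_assoc])
  rw [e, cnt_eq (fun S => QF A (tx k a b) S ∧ Gd ff S)]
  unfold Fm
  rw [Finset.filter_filter]
  congr 1
  ext S
  simp only [mem_filter]

/-- **the law for the discriminants** -/
theorem D_law {A : ℕ → Prop} {k a b : ℕ} (hb : Even b) (hab : 1 ≤ a + b) (hD : Dc A k a b) :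
    Tendsto (fun X : ℕ => (cnt (fun D => Nf A k a b D ∧ (matD D).det ≠ 0) X : ℝ) /
      (cnt (Nf A k a b) X : ℝ)) atTop
      (𝓝 (∏ i ∈ range ((k + 1) / 2), (1 - (1 / 2 : ℝ) ^ (2 * i + 1)))) := by
  let _ : LinearOrder (Ix k a b) := LinearOrder.lift' (Fintype.equivFin (Ix k a b))
    (Fintype.equivFin (Ix k a b)).injective
  obtain ⟨h1, h2, h3⟩ := card_tx k a b
  have h5 : Even (univ.filter fun i => tx k a b i = 5).card := by rw [h3]; exact hb
  have hne : ∃ i, tx k a b i ≠ 1 := by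
    rcases Nat.eq_zero_or_pos a with h | h
    · exact ⟨Sum.inr ⟨0, by omega⟩, by simp [tx]⟩
    · exact ⟨Sum.inl (Sum.inr ⟨0, h⟩), by simp [tx]⟩
  simp only [cnt_nf_det A k a b, cnt_nf A k a b]
  rcases Nat.eq_zero_or_pos k with hk | hk
  · subst hk
    obtain ⟨i₀, -⟩ := hne
    obtain ⟨c, X₀, hc, hlow⟩ := Fm_low (A := A) (tx_mem 0 a b) h5 i₀ (dn_of hD)
    have e0 : ∏ i ∈ range ((0 + 1) / 2), (1 - (1 / 2 : ℝ) ^ (2 * i + 1)) = 1 := by norm_num
    rw [e0]
    refine tendsto_const_nhds.congr' ?_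
    have t3 : Tendsto (fun X : ℕ => Real.log (Real.log (X : ℝ))) atTop atTop :=
      Real.tendsto_log_atTop.comp (Real.tendsto_log_atTop.comp tendsto_natCast_atTop_atTop)
    filter_upwards [eventually_ge_atTop X₀, eventually_ge_atTop 3, t3.eventually_ge_atTop 1]
      with X hX hX3 hll
    have hX1 : (1 : ℝ) < X := by exact_mod_cast (by omega : 1 < X)
    have hl : 0 < Real.log X := Real.log_pos hX1
    have h4 := hlow X hX
    have h6 : (0 : ℝ) < ((Fm A (tx 0 a b) X).card : ℝ) := by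
      refine lt_of_lt_of_le ?_ h4
      have : 0 < Real.log (Real.log X) := by linarith
      positivity
    have h7 : (Fm A (tx 0 a b) X).filter (Gd ff) = Fm A (tx 0 a b) X := by
      refine Finset.filter_true_of_mem fun S hS => ?_
      unfold Fm at hS
      rw [mem_filter] at hS
      have h8 := hS.2.2 1 (by simp)
      rw [h1, Finset.card_eq_zero, Finset.filter_eq_empty_iff] at h8
      intro x _ p hp hp1
      exact absurd hp1 (h8 hp)
    rw [h7, div_self h6.ne']
  · have h := set_law (A := A) (tx_mem k a b) h5 hne (by rw [card_Ix]; omega) (dn_of hD) ff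
    rw [h1] at h
    exact h

/-- the size of the family -/
theorem D_size {A : ℕ → Prop} {k a b : ℕ} (hb : Even b) (hab : 1 ≤ a + b) (hD : Dc A k a b) :
    ∃ (c C : ℝ) (X₀ : ℕ), 0 < c ∧ 0 < C ∧ ∀ X : ℕ, X₀ ≤ X →
      c * (X * Real.log (Real.log X) ^ (k + a + b - 1) / Real.log X) ≤ (cnt (Nf A k a b) X : ℝ) ∧
      (cnt (Nf A k a b) X : ℝ) ≤ C * (X * Real.log (Real.log X) ^ (k + a + b - 1) / Real.log X) := by
  let _ : LinearOrder (Ix k a b) := LinearOrder.lift' (Fintype.equivFin (Ix k a b))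
    (Fintype.equivFin (Ix k a b)).injective
  obtain ⟨h1, h2, h3⟩ := card_tx k a b
  have h5 : Even (univ.filter fun i => tx k a b i = 5).card := by rw [h3]; exact hb
  obtain ⟨i₀⟩ : Nonempty (Ix k a b) := by
    rcases Nat.eq_zero_or_pos a with h | h
    · exact ⟨Sum.inr ⟨0, by omega⟩⟩
    · exact ⟨Sum.inl (Sum.inr ⟨0, h⟩)⟩
  obtain ⟨c, X₀, hc, hlow⟩ := Fm_low (A := A) (tx_mem k a b) h5 i₀ (dn_of hD)
  obtain ⟨C, X₁, hC, hup⟩ := Fm_up (A := A) (τ := tx k a b) (j := k + a + b - 1)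
    (by rw [card_Ix]; omega) (tx_mem k a b) h5
  refine ⟨c, C, max X₀ X₁, hc, hC, fun X hX => ?_⟩
  rw [cnt_nf]
  have h6 := hlow X ((le_max_left _ _).trans hX)
  rw [card_Ix] at h6
  exact ⟨h6, hup X ((le_max_right _ _).trans hX)⟩

/-! ### the density conditions for residue classes -/

theorem pai_low (m : ℕ) (hm : 1 ≤ m) (a : ℕ) (ha : Nat.Coprime a m) :
    ∃ (c : ℝ) (Y₀ : ℕ), 0 < c ∧ ∀ Y : ℕ, Y₀ ≤ Y →
      c * (Y / Real.log Y) ≤
        (((range (Y + 1)).filter fun p => p.Prime ∧ p % m = a % m).card : ℝ) := by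
  obtain ⟨x₀, hx₀⟩ := Pool.Agent.TH423.SH.pai m hm (1 / 2) (1 / 4) (by norm_num) (by norm_num)
  have hφ : (0 : ℝ) < (Nat.totient m : ℝ) := by
    exact_mod_cast Nat.totient_pos.2 (by omega : 0 < m)
  refine ⟨1 / (8 * Nat.totient m), max 4 ⌈x₀⌉₊, by positivity, ?_⟩
  intro Y hY
  have hY4 : 4 ≤ Y := le_trans (le_max_left _ _) hY
  have hYx : x₀ ≤ (Y : ℝ) := (Nat.le_ceil x₀).trans (by exact_mod_cast (le_max_right _ _).trans hY)
  have hY4' : (4 : ℝ) ≤ Y := by exact_mod_cast hY4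
  have hdiv1 : ((Y / 2 : ℕ) : ℝ) ≤ (Y : ℝ) / 2 := Nat.cast_div_le
  have hdiv2 : (Y : ℝ) / 2 ≤ ((Y / 2 + 1 : ℕ) : ℝ) := by
    have : Y < 2 * (Y / 2 + 1) := by omega
    have : (Y : ℝ) < 2 * ((Y / 2 + 1 : ℕ) : ℝ) := by exact_mod_cast this
    linarith
  have hlog : 0 < Real.log Y := Real.log_pos (by linarith)
  have h := hx₀ Y hYx (Y / 2 + 1) Y a hdiv2 (by linarith) (by push_cast; linarith) ha
  have h1 := (abs_le.mp h).1
  have hsub : (Ioc (Y / 2 + 1) Y).filter (fun q => q.Prime ∧ q % m = a % m) ⊆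
      (range (Y + 1)).filter fun p => p.Prime ∧ p % m = a % m := by
    intro q hq
    rw [mem_filter, mem_Ioc] at hq
    rw [mem_filter, mem_range]
    exact ⟨by omega, hq.2⟩
  have hcard : (((Ioc (Y / 2 + 1) Y).filter (fun q => q.Prime ∧ q % m = a % m)).card : ℝ) ≤
      (((range (Y + 1)).filter fun p => p.Prime ∧ p % m = a % m).card : ℝ) := by
    exact_mod_cast Finset.card_le_card hsub
  refine le_trans ?_ hcard
  have h2 : (1 / 2 : ℝ) * (((Y : ℝ) - ((Y / 2 + 1 : ℕ) : ℝ)) / ((Nat.totient m : ℝ) * Real.log Y)) ≤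
      (((Ioc (Y / 2 + 1) Y).filter (fun q => q.Prime ∧ q % m = a % m)).card : ℝ) := by
    linarith
  refine le_trans ?_ h2
  have h3 : (Y : ℝ) / 4 ≤ (Y : ℝ) - ((Y / 2 + 1 : ℕ) : ℝ) := by push_cast; linarith
  have h4 : (Y : ℝ) / 4 / ((Nat.totient m : ℝ) * Real.log Y) ≤
      ((Y : ℝ) - ((Y / 2 + 1 : ℕ) : ℝ)) / ((Nat.totient m : ℝ) * Real.log Y) := by
    apply div_le_div_of_nonneg_right h3
    positivity
  calc (1 / (8 * (Nat.totient m : ℝ))) * (Y / Real.log Y) =
        1 / 2 * ((Y : ℝ) / 4 / ((Nat.totient m : ℝ) * Real.log Y)) := by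
        field_simp
        ring
    _ ≤ _ := by linarith

/-- the primes in a residue class modulo a number prime to `14` -/
theorem dn_class {q c : ℕ} (hq : Nat.Coprime q 14) (hc : Nat.Coprime c q) {r s : ℕ}
    (hr : r = 1 ∨ r = 3 ∨ r = 5) (hs : s = 1 ∨ s = 3) (P : ℕ → Prop)
    (hP : ∀ p : ℕ, p.Prime → p ≠ 3 → p % q = c % q → p % 8 = r → p % 7 = s → P p) : Dn P := by
  have h87 : Nat.Coprime 8 7 := by norm_num
  have h56 : Nat.Coprime 56 q := by
    have h1 : Nat.Coprime q 2 := Nat.Coprime.coprime_dvd_right (by norm_num) hq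
    have h2 : Nat.Coprime q 7 := Nat.Coprime.coprime_dvd_right (by norm_num) hq
    have h3 : Nat.Coprime q (2 ^ 3 * 7) := Nat.Coprime.mul_right (h1.pow_right 3) h2
    exact h3.symm
  obtain ⟨x, hx8, hx7⟩ := Nat.chineseRemainder h87 r s
  obtain ⟨y, hy56, hyq⟩ := Nat.chineseRemainder h56 x c
  have hq0 : 1 ≤ q := by
    rcases Nat.eq_zero_or_pos q with h | h
    · subst h
      exact absurd hq (by decide)
    · exact h
  have hy8 : y % 8 = r := by
    have h1 : y % 56 = x % 56 := hy56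
    have h2 : x % 8 = r % 8 := hx8
    omega
  have hy7 : y % 7 = s := by
    have h1 : y % 56 = x % 56 := hy56
    have h2 : x % 7 = s % 7 := hx7
    omega
  have hco : Nat.Coprime y (56 * q) := by
    apply Nat.Coprime.mul_right
    · have h1 : Nat.Coprime y 2 := by
        rw [Nat.coprime_comm]
        refine (Nat.Prime.coprime_iff_not_dvd Nat.prime_two).2 fun h => ?_
        have := Nat.mod_eq_zero_of_dvd h
        omega
      have h2 : Nat.Coprime y 7 := by
        rw [Nat.coprime_comm]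
        refine (Nat.Prime.coprime_iff_not_dvd (by norm_num)).2 fun h => ?_
        have := Nat.mod_eq_zero_of_dvd h
        omega
      exact Nat.Coprime.mul_right (h1.pow_right 3) h2
    · have h1 : y % q = c % q := hyq
      rw [Nat.coprime_comm, Nat.Coprime, Nat.gcd_rec, h1, ← Nat.gcd_rec]
      exact hc.symm
  obtain ⟨δ, Y₀, hδ, h⟩ := pai_low (56 * q) (by omega) y hco
  have t1 : Tendsto (fun Y : ℕ => (Y : ℝ) / Real.log Y) atTop atTop := by
    have h1 : Tendsto (fun y : ℝ => Real.exp y / y ^ 1) atTop atTop := Real.tendsto_exp_div_pow_atTop 1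
    have h2 := h1.comp (Real.tendsto_log_atTop.comp (tendsto_natCast_atTop_atTop (R := ℝ)))
    refine h2.congr' ?_
    filter_upwards [eventually_ge_atTop 1] with Y hY
    have : (0 : ℝ) < Y := by exact_mod_cast hY
    simp only [Function.comp, pow_one]
    rw [Real.exp_log this]
  obtain ⟨Y₁, hY₁⟩ := eventually_atTop.1 (t1.eventually_ge_atTop (2 / δ))
  refine ⟨δ / 2, max Y₀ Y₁, by positivity, fun Y hY => ?_⟩
  have h1 := h Y ((le_max_left _ _).trans hY)
  have h2 := hY₁ Y ((le_max_right _ _).trans hY)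
  rw [div_le_iff₀ hδ] at h2
  have h3 : ((range (Y + 1)).filter fun p => p.Prime ∧ p % (56 * q) = y % (56 * q)) ⊆
      insert 3 ((range (Y + 1)).filter P) := by
    intro p hp
    rw [mem_filter] at hp
    obtain ⟨hp1, hp2, hp3⟩ := hp
    rw [mem_insert, mem_filter]
    by_cases hp4 : p = 3
    · exact Or.inl hp4
    · refine Or.inr ⟨hp1, hP p hp2 hp4 ?_ ?_ ?_⟩
      · have h5 : p % q = y % q := Nat.ModEq.of_mul_left 56 hp3
        exact h5.trans hyq
      · have h5 : p % 56 = y % 56 := Nat.ModEq.of_mul_right q hp3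
        omega
      · have h5 : p % 56 = y % 56 := Nat.ModEq.of_mul_right q hp3
        omega
  have h4 : (((range (Y + 1)).filter fun p => p.Prime ∧ p % (56 * q) = y % (56 * q)).card : ℝ) ≤
      (((range (Y + 1)).filter P).card : ℝ) + 1 := by
    have h5 := (Finset.card_le_card h3).trans (Finset.card_insert_le _ _)
    exact_mod_cast h5
  linarith

/-- the density conditions for a residue class modulo a number prime to `14` -/
theorem dc_class {q c : ℕ} (hq : Nat.Coprime q 14) (hc : Nat.Coprime c q) (k a b : ℕ) :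
    Dc (fun p => p % q = c % q) k a b := by
  refine ⟨fun _ => ?_, fun _ => ?_, fun _ => ?_⟩
  · refine dn_class hq hc (r := 1) (s := 1) (Or.inl rfl) (Or.inl rfl) _ fun p hp h3 h4 h5 h6 => ?_
    exact ⟨h4, Or.inl ⟨hp, h5, Or.inl h6⟩, h5⟩
  · refine dn_class hq hc (r := 3) (s := 3) (Or.inr (Or.inl rfl)) (Or.inr rfl) _
      fun p hp h3 h4 h5 h6 => ?_
    exact ⟨h4, Or.inr ⟨hp, h3, by rw [h5]; decide, Or.inl h6⟩, h5⟩
  · refine dn_class hq hc (r := 5) (s := 3) (Or.inr (Or.inr rfl)) (Or.inr rfl) _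
      fun p hp h3 h4 h5 h6 => ?_
    exact ⟨h4, Or.inr ⟨hp, h3, by rw [h5]; decide, Or.inl h6⟩, h5⟩

end Pool.Agent.V11291.FK
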