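import Pool.Agent.V11291.FK.Cub2
import Pool.Agent.TH423.SH.PAIP

/-!
# A fixed number of primes: the cubic case, the law for the numbers
-/

set_option autoImplicit false
set_option linter.unusedSectionVars false
set_option linter.unusedVariables false

open scoped Classical

namespace Pool.Agent.V11291.FK.Cb

open Finset Filter Topology
open Pool.Agent.Y703.CX (Gd SS Cl Sol)
open Pool.Agent.Y703.CT (Cls NoSplit)
open Pool.Agent.Y759.CX (pm)

/-- the number of the prime factors `≡ 1` modulo `3` -/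
def k1 (N : ℕ) : ℕ := (N.primeFactors.filter fun p => p % 3 = 1).card

/-- the family of the numbers -/
def Fam (A : ℕ → Prop) (k N : ℕ) : Prop :=
  Squarefree N ∧ Cls N ∧ (∀ p ∈ N.primeFactors, A p) ∧ k1 N = k

/-- the index type -/
abbrev Iy (k : ℕ) : Type := Fin k ⊕ Fin 1

/-- the residues modulo `3` -/
def ty (k : ℕ) : Iy k → ℕ := Sum.elim (fun _ => 1) fun _ => 2

theorem card_Iy (k : ℕ) : Fintype.card (Iy k) = k + 1 := by
  rw [Fintype.card_sum, Fintype.card_fin, Fintype.card_fin]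

theorem ty_mem (k : ℕ) (i : Iy k) : ty k i = 1 ∨ ty k i = 2 := by
  rcases i with i | i
  · exact Or.inl rfl
  · exact Or.inr rfl

theorem card_ty (k : ℕ) : (univ.filter fun i => ty k i = 1).card = k ∧
    (univ.filter fun i => ty k i = 2).card = 1 := by
  unfold ty
  refine ⟨?_, ?_⟩
  · rw [Finset.card_filter, Fintype.sum_sum_type]
    simp
  · rw [Finset.card_filter, Fintype.sum_sum_type]
    simp

/-- the conditions on the sets of primes -/
theorem fw_iff {A : ℕ → Prop} {k X : ℕ} [LinearOrder (Iy k)] {S : Finset ℕ} :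
    S ∈ FW (Bd A) (fun p => p % 3) (ty k) Wn X ↔
      S ∈ (SS X).filter fun S => (∀ p ∈ S, A p) ∧ (S.filter fun p => p % 3 = 1).card = k := by
  obtain ⟨h1, h2⟩ := card_ty k
  rw [mem_FW bd_prime, mem_filter]
  unfold SS
  rw [mem_filter, mem_powerset]
  constructor
  · rintro ⟨a1, a2, a3, a4⟩
    have a5 := a2 1
    have a6 := a2 2
    simp only at a5 a6
    rw [h1] at a5
    rw [h2] at a6
    refine ⟨⟨fun q hq => ?_, ⟨fun p hp => (a1 p hp).2, a6, a4.1, a4.2⟩, a3⟩,
      fun p hp => (a1 p hp).1, a5⟩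
    rw [mem_range]
    have h5 : q ≤ ∏ r ∈ S, r := Nat.le_of_dvd
      (Finset.prod_pos fun r hr => (a1 r hr).2.1.pos) (Finset.dvd_prod_of_mem _ hq)
    omega
  · rintro ⟨⟨b1, ⟨b2, b3, b4, b5⟩, b6⟩, b7, b8⟩
    refine ⟨fun p hp => ⟨b7 p hp, b2 p hp⟩, fun r => ?_, b6, b4, b5⟩
    by_cases hr1 : r = 1
    · subst hr1
      rw [h1]
      exact b8
    by_cases hr2 : r = 2
    · subst hr2
      rw [h2]
      exact b3
    rw [Finset.card_eq_zero.2, Finset.card_eq_zero.2]
    · refine Finset.filter_eq_empty_iff.2 fun i _ h => ?_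
      have := ty_mem k i
      omega
    · refine Finset.filter_eq_empty_iff.2 fun p hp h => ?_
      simp only at h
      have h3 := b2 p hp
      have h4 : p % 3 ≠ 0 := fun h0 => h3.2
        ((Nat.prime_dvd_prime_iff_eq Nat.prime_three h3.1).1 (Nat.dvd_of_mod_eq_zero h0)).symm
      omega

theorem cnt_fam (A : ℕ → Prop) (k X : ℕ) [LinearOrder (Iy k)] :
    ((Icc 1 X).filter fun N => Fam A k N).card = (FW (Bd A) (fun p => p % 3) (ty k) Wn X).card := by
  have e := Pool.Agent.Y710.CX.card_eq X (fun N => (∀ p ∈ N.primeFactors, A p) ∧ k1 N = k)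
    (fun S => (∀ p ∈ S, A p) ∧ (S.filter fun p => p % 3 = 1).card = k) fun D _ _ => Iff.rfl
  have e2 : FW (Bd A) (fun p => p % 3) (ty k) Wn X =
      (SS X).filter fun S => (∀ p ∈ S, A p) ∧ (S.filter fun p => p % 3 = 1).card = k :=
    Finset.ext fun S => fw_iff
  rw [e2]
  refine Eq.trans ?_ (e.trans ?_)
  · congr 1
    ext N
    simp only [mem_filter]
    exact Iff.rfl
  · congr 1
    ext N
    simp only [mem_filter]

theorem cnt_fam_good (A : ℕ → Prop) (k X : ℕ) [LinearOrder (Iy k)] :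
    ((Icc 1 X).filter fun N => Fam A k N ∧ NoSplit N).card =
      ((FW (Bd A) (fun p => p % 3) (ty k) Wn X).filter Gd).card := by
  have e := Pool.Agent.Y710.CX.card_eq X
    (fun N => ((∀ p ∈ N.primeFactors, A p) ∧ k1 N = k) ∧ NoSplit N)
    (fun S => ((∀ p ∈ S, A p) ∧ (S.filter fun p => p % 3 = 1).card = k) ∧ Gd S)
    fun D hD hcl => and_congr Iff.rfl
      ⟨Pool.Agent.Y710.CX.gd_of_nosplit Pool.Agent.Y333.CX.t_LAM hD hcl,
        Pool.Agent.Y710.CX.nosplit_of_gd Pool.Agent.Y333.CX.t_LAM hD hcl⟩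
  have e2 : (FW (Bd A) (fun p => p % 3) (ty k) Wn X).filter Gd =
      (SS X).filter fun S => ((∀ p ∈ S, A p) ∧ (S.filter fun p => p % 3 = 1).card = k) ∧ Gd S := by
    ext S
    rw [mem_filter, fw_iff, mem_filter, mem_filter, and_assoc]
  rw [e2]
  refine Eq.trans ?_ (e.trans ?_)
  · congr 1
    ext N
    simp only [mem_filter]
    unfold Fam
    tauto
  · congr 1
    ext N
    simp only [mem_filter]

/-- the condition on the set of primes: the `k` primes `≡ 1` and the prime `≡ 2` modulo `3` can be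
taken in residue classes modulo `9`, each with many primes with the property `A`, with a product
`≢ 8` -/
def Rich (A : ℕ → Prop) (k : ℕ) : Prop :=
  ∃ (r : Fin k → ℕ) (s : ℕ), (∀ i, r i % 3 = 1 ∧ Dn fun p => A p ∧ p.Prime ∧ p % 9 = r i) ∧
    s % 3 = 2 ∧ (Dn fun p => A p ∧ p.Prime ∧ p % 9 = s) ∧ (∏ i, r i) * s % 9 ≠ 8

theorem rich_data {A : ℕ → Prop} {k : ℕ} (h : Rich A k) :
    ∃ ρ : Iy k → ℕ, Wr ρ ∧ ∀ i, Dn (PR A (ty k) ρ i) := by
  obtain ⟨r, s, h1, h2, h3, h4⟩ := h
  have hprod : ∏ i, (Sum.elim r fun _ => s : Iy k → ℕ) i = (∏ i, r i) * s := by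
    rw [Fintype.prod_sum_type]
    simp
  have hr : (∏ i, r i) % 3 = 1 := by
    rw [Finset.prod_nat_mod]
    have : ∏ i, r i % 3 = 1 := Finset.prod_eq_one fun i _ => (h1 i).1
    rw [this]
  have key : ∀ (t : ℕ) (P Q : ℕ → Prop), (∀ p, P p → Q p) → Dn P → Dn Q := by
    rintro t P Q hPQ ⟨δ, Y₀, hδ, h⟩
    refine ⟨δ, Y₀, hδ, fun Y hY => (h Y hY).trans ?_⟩
    exact_mod_cast Finset.card_le_card (Finset.monotone_filter_right _ fun p _ hp => hPQ p hp)
  refine ⟨Sum.elim r fun _ => s, ?_, ?_⟩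
  · unfold Wr
    rw [hprod]
    refine ⟨fun h5 => ?_, h4⟩
    have h6 : (∏ i, r i) * s % 3 = 1 := by omega
    rw [Nat.mul_mod, hr, h2] at h6
    omega
  · rintro (i | i)
    · refine key 0 _ _ (fun p hp => ?_) (h1 i).2
      refine ⟨⟨⟨hp.1, hp.2.1, ?_⟩, ?_⟩, hp.2.2⟩
      · rintro rfl
        have h5 := hp.2.2
        have h6 := (h1 i).1
        omega
      · show p % 3 = 1
        have h5 := hp.2.2
        have h6 := (h1 i).1
        omega
    · refine key 0 _ _ (fun p hp => ?_) h3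
      refine ⟨⟨⟨hp.1, hp.2.1, ?_⟩, ?_⟩, hp.2.2⟩
      · rintro rfl
        have h5 := hp.2.2
        omega
      · show p % 3 = 2
        have h5 := hp.2.2
        omega

/-- **the law for the numbers** -/
theorem N_law {A : ℕ → Prop} {k : ℕ} (hD : Rich A k) :
    Tendsto (fun X : ℕ => (((Icc 1 X).filter fun N => Fam A k N ∧ NoSplit N).card : ℝ) /
      (((Icc 1 X).filter fun N => Fam A k N).card : ℝ)) atTop
      (𝓝 (∏ i ∈ range k, (1 - (1 / 3 : ℝ) ^ (i + 1)))) := by
  let _ : LinearOrder (Iy k) := LinearOrder.lift' (Fintype.equivFin (Iy k))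
    (Fintype.equivFin (Iy k)).injective
  obtain ⟨h1, h2⟩ := card_ty k
  obtain ⟨ρ, hρ, hDn⟩ := rich_data hD
  simp only [cnt_fam, cnt_fam_good]
  rcases Nat.eq_zero_or_pos k with hk | hk
  · subst hk
    obtain ⟨c, X₀, hc, hlow⟩ := FW_low (W := Wn) (bd_prime (A := A)) (Sum.inr 0 : Iy 0)
      (lowH (A := A) (τ := ty 0) (Sum.inr 0 : Iy 0) hρ hDn)
    rw [Finset.range_zero, Finset.prod_empty]
    refine tendsto_const_nhds.congr' ?_
    have t3 : Tendsto (fun X : ℕ => Real.log (Real.log (X : ℝ))) atTop atTop :=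
      Real.tendsto_log_atTop.comp (Real.tendsto_log_atTop.comp tendsto_natCast_atTop_atTop)
    filter_upwards [eventually_ge_atTop X₀, eventually_ge_atTop 3, t3.eventually_ge_atTop 1]
      with X hX hX3 hll
    have hX1 : (1 : ℝ) < X := by exact_mod_cast (by omega : 1 < X)
    have hl : 0 < Real.log X := Real.log_pos hX1
    have h4 := hlow X hX
    have h6 : (0 : ℝ) < ((FW (Bd A) (fun p => p % 3) (ty 0) Wn X).card : ℝ) := by
      refine lt_of_lt_of_le ?_ h4
      have : 0 < Real.log (Real.log X) := by linarith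
      positivity
    have h7 : (FW (Bd A) (fun p => p % 3) (ty 0) Wn X).filter Gd =
        FW (Bd A) (fun p => p % 3) (ty 0) Wn X := by
      refine Finset.filter_true_of_mem fun S hS => ?_
      rw [fw_iff, mem_filter] at hS
      obtain ⟨hS, -, hS0⟩ := hS
      unfold SS at hS
      rw [mem_filter] at hS
      have hcl : Cl S := hS.2.1
      rw [Finset.card_eq_zero, Finset.filter_eq_empty_iff] at hS0
      obtain ⟨q, hq⟩ := Finset.card_eq_one.1 hcl.2.1
      have hmem : ∀ p ∈ S, p = q := by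
        intro p hp
        have h3 := hcl.1 p hp
        have h4 : p % 3 ≠ 0 := fun h0 => h3.2
          ((Nat.prime_dvd_prime_iff_eq Nat.prime_three h3.1).1 (Nat.dvd_of_mod_eq_zero h0)).symm
        have h5 := hS0 hp
        have h6 : p ∈ S.filter fun p => p % 3 = 2 := by
          rw [mem_filter]
          exact ⟨hp, by omega⟩
        rw [hq, mem_singleton] at h6
        exact h6
      intro c _ p hp p' hp'
      rw [hmem p hp, hmem p' hp']
    rw [h7, div_self h6.ne']
  · have h := set_law3 (A := A) (ty_mem k) h2 ⟨Sum.inl ⟨0, hk⟩, rfl⟩ hρ hDn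
    rw [h1] at h
    exact h

/-- the size of the family -/
theorem N_size {A : ℕ → Prop} {k : ℕ} (hD : Rich A k) :
    ∃ (c C : ℝ) (X₀ : ℕ), 0 < c ∧ 0 < C ∧ ∀ X : ℕ, X₀ ≤ X →
      c * (X * Real.log (Real.log X) ^ k / Real.log X) ≤
        (((Icc 1 X).filter fun N => Fam A k N).card : ℝ) ∧
      (((Icc 1 X).filter fun N => Fam A k N).card : ℝ) ≤
        C * (X * Real.log (Real.log X) ^ k / Real.log X) := by
  let _ : LinearOrder (Iy k) := LinearOrder.lift' (Fintype.equivFin (Iy k))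
    (Fintype.equivFin (Iy k)).injective
  obtain ⟨ρ, hρ, hDn⟩ := rich_data hD
  obtain ⟨c, X₀, hc, hlow⟩ := FW_low (W := Wn) (bd_prime (A := A)) (Sum.inr 0 : Iy k)
    (lowH (A := A) (τ := ty k) (Sum.inr 0 : Iy k) hρ hDn)
  obtain ⟨C, X₁, hC, hup⟩ := FW_up (B := Bd A) (cl := fun p => p % 3) (τ := ty k) bd_prime (j := k)
    (card_Iy k) Wn
  refine ⟨c, C, max X₀ X₁, hc, hC, fun X hX => ?_⟩
  rw [cnt_fam]
  have h6 := hlow X ((le_max_left _ _).trans hX)
  rw [card_Iy, Nat.add_sub_cancel] at h6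
  exact ⟨h6, hup X ((le_max_right _ _).trans hX)⟩

/-! ### residue classes -/

theorem pai_low' (m : ℕ) (hm : 1 ≤ m) (a : ℕ) (ha : Nat.Coprime a m) :
    Dn fun p => p.Prime ∧ p % m = a % m := by
  obtain ⟨x₀, hx₀⟩ := Pool.Agent.TH423.SH.pai m hm (1 / 2) (1 / 4) (by norm_num) (by norm_num)
  have hφ : (0 : ℝ) < (Nat.totient m : ℝ) := by
    exact_mod_cast Nat.totient_pos.2 (by omega : 0 < m)
  refine ⟨1 / (8 * Nat.totient m), max 4 ⌈x₀⌉₊, by positivity, ?_⟩
  intro Y hY
  have hY4 : 4 ≤ Y := le_trans (le_max_left _ _) hY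
  have hYx : x₀ ≤ (Y : ℝ) := (Nat.le_ceil x₀).trans (by exact_mod_cast (le_max_right _ _).trans hY)
  have hY4' : (4 : ℝ) ≤ Y := by exact_mod_cast hY4
  have hdiv1 : ((Y / 2 : ℕ) : ℝ) ≤ (Y : ℝ) / 2 := Nat.cast_div_le
  have hdiv2 : (Y : ℝ) / 2 ≤ ((Y / 2 + 1 : ℕ) : ℝ) := by
    have : Y < 2 * (Y / 2 + 1) := by omega
    have : (Y : ℝ) < 2 * ((Y / 2 + 1 : ℕ) : ℝ) := by exact_mod_cast this
    linarith
  have hlog : 0 < Real.log Y := Real.log_pos (by linarith)
  have h := hx₀ Y hYx (Y / 2 + 1) Y a hdiv2 (by linarith) (by push_cast; linarith) ha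
  have h1 := (abs_le.mp h).1
  have hsub : (Ioc (Y / 2 + 1) Y).filter (fun q => q.Prime ∧ q % m = a % m) ⊆
      (range (Y + 1)).filter fun p => p.Prime ∧ p % m = a % m := by
    intro q hq
    rw [mem_filter, mem_Ioc] at hq
    rw [mem_filter, mem_range]
    exact ⟨by omega, hq.2⟩
  have hcard : (((Ioc (Y / 2 + 1) Y).filter (fun q => q.Prime ∧ q % m = a % m)).card : ℝ) ≤
      (((range (Y + 1)).filter fun p => p.Prime ∧ p % m = a % m).card : ℝ) := by
    exact_mod_cast Finset.card_le_card hsub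
  refine le_trans ?_ (hcard.trans (le_of_eq (by
    congr 2
    ext p
    simp only [mem_filter])))
  have h2 : (1 / 2 : ℝ) * (((Y : ℝ) - ((Y / 2 + 1 : ℕ) : ℝ)) / ((Nat.totient m : ℝ) * Real.log Y)) ≤
      (((Ioc (Y / 2 + 1) Y).filter (fun q => q.Prime ∧ q % m = a % m)).card : ℝ) := by
    linarith
  refine le_trans ?_ h2
  have h3 : (Y : ℝ) / 4 ≤ (Y : ℝ) - ((Y / 2 + 1 : ℕ) : ℝ) := by push_cast; linarith
  have h4 : (Y : ℝ) / 4 / ((Nat.totient m : ℝ) * Real.log Y) ≤
      ((Y : ℝ) - ((Y / 2 + 1 : ℕ) : ℝ)) / ((Nat.totient m : ℝ) * Real.log Y) := by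
    apply div_le_div_of_nonneg_right h3
    positivity
  calc (1 / (8 * (Nat.totient m : ℝ))) * (Y / Real.log Y) =
        1 / 2 * ((Y : ℝ) / 4 / ((Nat.totient m : ℝ) * Real.log Y)) := by
        field_simp
        ring
    _ ≤ _ := by linarith

/-- the primes in a residue class modulo a number prime to `3` are sufficient -/
theorem rich_class {q c : ℕ} (hq : Nat.Coprime q 3) (hc : Nat.Coprime c q) (k : ℕ) :
    Rich (fun p => p % q = c % q) k := by
  have h9 : Nat.Coprime 9 q := by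
    have : Nat.Coprime (3 ^ 2) q := Nat.Coprime.pow_left 2 hq.symm
    exact this
  have hq0 : 1 ≤ q := by
    rcases Nat.eq_zero_or_pos q with h | h
    · subst h
      exact absurd hq (by decide)
    · exact h
  have key : ∀ s : ℕ, s < 9 → s % 3 ≠ 0 → Dn fun p => p % q = c % q ∧ p.Prime ∧ p % 9 = s := by
    intro s hs9 hs3
    obtain ⟨y, hy9, hyq⟩ := Nat.chineseRemainder h9 s c
    have hy : y % 9 = s := by
      have h1 : y % 9 = s % 9 := hy9
      omega
    have hco : Nat.Coprime y (9 * q) := by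
      apply Nat.Coprime.mul_right
      · have h1 : Nat.Coprime y 3 := by
          rw [Nat.coprime_comm]
          refine (Nat.Prime.coprime_iff_not_dvd Nat.prime_three).2 fun h => ?_
          have := Nat.mod_eq_zero_of_dvd h
          omega
        exact h1.pow_right 2
      · have h1 : y % q = c % q := hyq
        rw [Nat.coprime_comm, Nat.Coprime, Nat.gcd_rec, h1, ← Nat.gcd_rec]
        exact hc.symm
    obtain ⟨δ, Y₀, hδ, h⟩ := pai_low' (9 * q) (by omega) y hco
    refine ⟨δ, Y₀, hδ, fun Y hY => (h Y hY).trans ?_⟩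
    have h5 : ((range (Y + 1)).filter fun p => p.Prime ∧ p % (9 * q) = y % (9 * q)) ⊆
        (range (Y + 1)).filter fun p => p % q = c % q ∧ p.Prime ∧ p % 9 = s := by
      intro p hp
      rw [mem_filter] at hp ⊢
      obtain ⟨hp1, hp2, hp3⟩ := hp
      have h6 : p % q = y % q := Nat.ModEq.of_mul_left 9 hp3
      have h7 : p % 9 = y % 9 := Nat.ModEq.of_mul_right q hp3
      exact ⟨hp1, h6.trans hyq, hp2, h7.trans hy⟩
    have h6 : (((range (Y + 1)).filter fun p => p.Prime ∧ p % (9 * q) = y % (9 * q)).card : ℝ) ≤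
        (((range (Y + 1)).filter fun p => p % q = c % q ∧ p.Prime ∧ p % 9 = s).card : ℝ) := by
      exact_mod_cast Finset.card_le_card h5
    refine le_trans (le_of_eq ?_) (h6.trans (le_of_eq ?_))
    · congr 2
      ext p
      simp only [mem_filter]
    · congr 2
      ext p
      simp only [mem_filter]
  refine ⟨fun _ => 1, 2, fun _ => ⟨rfl, key 1 (by norm_num) (by norm_num)⟩, rfl,
    key 2 (by norm_num) (by norm_num), ?_⟩
  rw [Finset.prod_const_one]
  norm_num

end Pool.Agent.V11291.FK.Cb
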