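import Pool.Agent.V11291.FK.Exc

/-!
# A fixed number of primes: the lower bound
-/

set_option autoImplicit false

open scoped Classical

namespace Pool.Agent.V11291.FK

open Finset Filter

/-- positive lower density in the set of the primes -/
def Dn (P : ℕ → Prop) : Prop := ∃ (δ : ℝ) (Y₀ : ℕ), 0 < δ ∧ ∀ Y : ℕ, Y₀ ≤ Y →
  δ * (Y / Real.log Y) ≤ (((range (Y + 1)).filter P).card : ℝ)

/-- a block of primes -/
noncomputable def blk (P : ℕ → Prop) (a b : ℕ) : Finset ℕ := (Icc 1 b).filter fun p => P p ∧ a < p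

theorem mem_blk {P : ℕ → Prop} {a b p : ℕ} : p ∈ blk P a b ↔ P p ∧ a < p ∧ p ≤ b := by
  unfold blk
  rw [mem_filter, mem_Icc]
  constructor
  · rintro ⟨⟨_, h1⟩, h2, h3⟩
    exact ⟨h2, h3, h1⟩
  · rintro ⟨h1, h2, h3⟩
    exact ⟨⟨by omega, h3⟩, h1, h2⟩

/-- the number of the primes of a block -/
theorem card_blk {P : ℕ → Prop} (hP : ∀ p, P p → p.Prime) (a b : ℕ) :
    (((range (b + 1)).filter P).card : ℝ) ≤ ((blk P a b).card : ℝ) + Nat.primeCounting a := by
  have h1 : (range (b + 1)).filter P ⊆ blk P a b ∪ (range (a + 1)).filter Nat.Prime := by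
    intro p hp
    rw [mem_filter, mem_range] at hp
    rw [mem_union, mem_blk, mem_filter, mem_range]
    by_cases h : a < p
    · exact Or.inl ⟨hp.2, h, by omega⟩
    · exact Or.inr ⟨by omega, hP p hp.2⟩
  have h2 := (Finset.card_le_card h1).trans (Finset.card_union_le _ _)
  have h3 : ((range (a + 1)).filter Nat.Prime).card = Nat.primeCounting a := by
    rw [Nat.primeCounting, Nat.primeCounting', Nat.count_eq_card_filter_range]
  rw [h3] at h2
  exact_mod_cast h2

/-- the sum over one block -/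
theorem blk_sum {P : ℕ → Prop} (hP : ∀ p, P p → p.Prime) (hD : Dn P) :
    ∃ A₀ : ℕ, ∀ A : ℕ, A₀ ≤ A → ∃ n₀ : ℕ, 1 ≤ n₀ ∧ ∀ n : ℕ, n₀ ≤ n →
      1 / (A * Real.log A) * (1 / n) ≤ ∑ p ∈ blk P (A ^ n) (A ^ (n + 1)), (1 : ℝ) / p := by
  obtain ⟨δ, Y₀, hδ, hY⟩ := hD
  obtain ⟨A₁, hA₁⟩ := exists_nat_ge (14 / δ)
  refine ⟨max A₁ 2, fun A hA => ⟨max Y₀ 1, le_max_right _ _, fun n hn => ?_⟩⟩
  have hA2 : 2 ≤ A := (le_max_right _ _).trans hA
  have hn1 : 1 ≤ n := (le_max_right _ _).trans hn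
  have hAδ : 14 ≤ δ * A := by
    have h1 : (A₁ : ℝ) ≤ A := by exact_mod_cast (le_max_left _ _).trans hA
    have h2 := hA₁.trans h1
    rw [div_le_iff₀ hδ] at h2
    linarith
  have hA0 : (0 : ℝ) < A := by exact_mod_cast (by omega : 0 < A)
  have hA1 : (1 : ℝ) < A := by exact_mod_cast (by omega : 1 < A)
  have hl : 0 < Real.log A := Real.log_pos hA1
  have hn0 : (0 : ℝ) < n := by exact_mod_cast hn1
  have hge : n < A ^ n := Nat.lt_pow_self (by omega)
  have hge' : A ^ n ≤ A ^ (n + 1) := Nat.pow_le_pow_right (by omega) (by omega)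
  have h1 := hY (A ^ (n + 1)) (((le_max_left _ _).trans hn).trans (hge.le.trans hge'))
  have h2 := card_blk hP (A ^ n) (A ^ (n + 1))
  have h3 := pi_le (Y := A ^ n) (by
    calc 2 ≤ A := hA2
      _ = A ^ 1 := (pow_one A).symm
      _ ≤ A ^ n := Nat.pow_le_pow_right (by omega) hn1)
  push_cast at h1 h3
  rw [Real.log_pow] at h1 h3
  push_cast at h1 h3
  have h4 : (A : ℝ) ^ n / (n * Real.log A) ≤ ((blk P (A ^ n) (A ^ (n + 1))).card : ℝ) := by
    have h5 : δ * ((A : ℝ) ^ (n + 1) / ((n + 1) * Real.log A)) ≥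
        7 * ((A : ℝ) ^ n / (n * Real.log A)) := by
      rw [ge_iff_le, pow_succ, ← mul_div_assoc, ← mul_div_assoc, div_le_div_iff₀ (by positivity)
        (by positivity)]
      have h6 : (n : ℝ) + 1 ≤ 2 * n := by
        have : (1 : ℝ) ≤ n := by exact_mod_cast hn1
        linarith
      have h7 : 7 * ((n : ℝ) + 1) ≤ δ * A * n := by
        have h8 : 14 * (n : ℝ) ≤ δ * A * n := mul_le_mul_of_nonneg_right hAδ hn0.le
        linarith
      have h9 : (0 : ℝ) ≤ (A : ℝ) ^ n * Real.log A := by positivity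
      have h10 := mul_le_mul_of_nonneg_right h7 h9
      calc 7 * (A : ℝ) ^ n * ((n + 1) * Real.log A) = 7 * ((n : ℝ) + 1) * ((A : ℝ) ^ n * Real.log A) := by
            ring
        _ ≤ δ * A * n * ((A : ℝ) ^ n * Real.log A) := h10
        _ = _ := by ring
    linarith
  have h5 : ((blk P (A ^ n) (A ^ (n + 1))).card : ℝ) * (1 / (A : ℝ) ^ (n + 1)) ≤
      ∑ p ∈ blk P (A ^ n) (A ^ (n + 1)), (1 : ℝ) / p := by
    rw [← nsmul_eq_mul, ← Finset.sum_const]
    refine Finset.sum_le_sum fun p hp => ?_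
    rw [mem_blk] at hp
    have hp0 : (0 : ℝ) < p := by exact_mod_cast (hP p hp.1).pos
    apply one_div_le_one_div_of_le hp0
    exact_mod_cast hp.2.2
  refine le_trans ?_ h5
  have h6 := mul_le_mul_of_nonneg_right h4 (show (0 : ℝ) ≤ 1 / (A : ℝ) ^ (n + 1) by positivity)
  refine le_trans (le_of_eq ?_) h6
  rw [pow_succ]
  field_simp

/-- the sum over several blocks -/
theorem blks_sum {P : ℕ → Prop} {A n₀ : ℕ} (hA : 2 ≤ A) (hn₀ : 1 ≤ n₀)
    (h : ∀ n : ℕ, n₀ ≤ n →
      1 / (A * Real.log A) * (1 / n) ≤ ∑ p ∈ blk P (A ^ n) (A ^ (n + 1)), (1 : ℝ) / p)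
    {a b : ℕ} (ha : n₀ ≤ a) (hab : a ≤ b) :
    1 / (A * Real.log A) * (Real.log b - Real.log a) ≤ ∑ p ∈ blk P (A ^ a) (A ^ b), (1 : ℝ) / p := by
  have hA1 : (1 : ℝ) < A := by exact_mod_cast (by omega : 1 < A)
  have hl : 0 < Real.log A := Real.log_pos hA1
  have hA0 : (0 : ℝ) < A := by linarith
  induction b, hab using Nat.le_induction with
  | base =>
    rw [sub_self, mul_zero]
    exact Finset.sum_nonneg fun p _ => by positivity
  | succ b hab ih =>
    have hb : (0 : ℝ) < b := by exact_mod_cast (by omega : 0 < b)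
    have h1 : Real.log ((b + 1 : ℕ) : ℝ) ≤ Real.log b + 1 / b := by
      have h2 : ((b + 1 : ℕ) : ℝ) = b * (1 + 1 / b) := by
        push_cast
        field_simp
      rw [h2, Real.log_mul hb.ne' (by positivity)]
      have := Real.log_le_sub_one_of_pos (show (0 : ℝ) < 1 + 1 / b by positivity)
      linarith
    have hsplit : blk P (A ^ a) (A ^ (b + 1)) = blk P (A ^ a) (A ^ b) ∪ blk P (A ^ b) (A ^ (b + 1)) := by
      have e1 : A ^ a ≤ A ^ b := Nat.pow_le_pow_right (by omega) hab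
      have e2 : A ^ b ≤ A ^ (b + 1) := Nat.pow_le_pow_right (by omega) (by omega)
      ext p
      simp only [mem_union, mem_blk]
      constructor
      · rintro ⟨h3, h4, h5⟩
        by_cases h6 : p ≤ A ^ b
        · exact Or.inl ⟨h3, h4, h6⟩
        · exact Or.inr ⟨h3, by omega, h5⟩
      · rintro (⟨h3, h4, h5⟩ | ⟨h3, h4, h5⟩)
        · exact ⟨h3, h4, by omega⟩
        · exact ⟨h3, by omega, h5⟩
    have hdis : Disjoint (blk P (A ^ a) (A ^ b)) (blk P (A ^ b) (A ^ (b + 1))) := by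
      rw [Finset.disjoint_left]
      intro p hp hp'
      rw [mem_blk] at hp hp'
      omega
    rw [hsplit, Finset.sum_union hdis]
    have h2 := h b (by omega)
    have h3 : 0 ≤ 1 / ((A : ℝ) * Real.log A) := by positivity
    have h4 : 1 / ((A : ℝ) * Real.log A) * (Real.log ((b + 1 : ℕ) : ℝ) - Real.log a) ≤
        1 / (A * Real.log A) * (Real.log b - Real.log a) + 1 / (A * Real.log A) * (1 / b) := by
      rw [← mul_add]
      refine mul_le_mul_of_nonneg_left ?_ h3
      linarith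
    linarith

end Pool.Agent.V11291.FK
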