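import Pool.Agent.V11291.FK.Low2

/-!
# A fixed number of primes: the asymptotic argument, abstractly
-/

set_option autoImplicit false

open scoped Classical

namespace Pool.Agent.V11291.FK

open Finset Filter Topology
open Pool.Agent.Y703.CX (sm la jj XX)

variable {ι : Type} [Fintype ι] [LinearOrder ι]

/-- the total error -/
theorem total_abs (T : Finset (ι → ℕ)) (G : (ι → ℕ) → Prop) (X z H : ℕ) {α E : ℝ} (h0 : 0 ≤ α)
    (h1 : α ≤ 1)
    (h : |((T.filter fun p => ¬ Exc X z H p ∧ G p).card : ℝ) -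
          α * ((T.filter fun p => ¬ Exc X z H p).card : ℝ)| ≤ E) :
    |((T.filter fun p => G p).card : ℝ) - α * (T.card : ℝ)| ≤
      E + ((T.filter fun p => Exc X z H p).card : ℝ) := by
  have h2 : ((T.filter fun p => G p).card : ℝ) =
      ((T.filter fun p => ¬ Exc X z H p ∧ G p).card : ℝ) +
      ((T.filter fun p => Exc X z H p ∧ G p).card : ℝ) := by
    have e := Finset.card_filter_add_card_filter_not (s := T.filter fun p => G p)
      (fun p => Exc X z H p)
    rw [Finset.filter_filter, Finset.filter_filter] at e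
    have e1 : (T.filter fun p => G p ∧ Exc X z H p) = T.filter fun p => Exc X z H p ∧ G p :=
      Finset.filter_congr fun p _ => and_comm
    have e2 : (T.filter fun p => G p ∧ ¬ Exc X z H p) = T.filter fun p => ¬ Exc X z H p ∧ G p :=
      Finset.filter_congr fun p _ => and_comm
    rw [e1, e2] at e
    rw [← e]
    push_cast
    ring
  have h3 : (T.card : ℝ) = ((T.filter fun p => ¬ Exc X z H p).card : ℝ) +
      ((T.filter fun p => Exc X z H p).card : ℝ) := by
    have e := Finset.card_filter_add_card_filter_not (s := T) (fun p => Exc X z H p)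
    rw [← e]
    push_cast
    ring
  have h4 : ((T.filter fun p => Exc X z H p ∧ G p).card : ℝ) ≤
      ((T.filter fun p => Exc X z H p).card : ℝ) := by
    have : (T.filter fun p => Exc X z H p ∧ G p) ⊆ T.filter fun p => Exc X z H p := by
      intro p hp
      rw [mem_filter] at hp ⊢
      exact ⟨hp.1, hp.2.1⟩
    exact_mod_cast Finset.card_le_card this
  have h5 : (0 : ℝ) ≤ ((T.filter fun p => Exc X z H p ∧ G p).card : ℝ) := Nat.cast_nonneg _
  have h6 : (0 : ℝ) ≤ ((T.filter fun p => Exc X z H p).card : ℝ) := Nat.cast_nonneg _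
  have h7 : α * ((T.filter fun p => Exc X z H p).card : ℝ) ≤
      ((T.filter fun p => Exc X z H p).card : ℝ) := by nlinarith
  have h8 : 0 ≤ α * ((T.filter fun p => Exc X z H p).card : ℝ) := mul_nonneg h0 h6
  rw [h2, h3, mul_add]
  rw [abs_le] at h ⊢
  constructor
  · linarith [h.1]
  · linarith [h.2]

/-- the hypothesis on the boxes -/
def BoxH (T : ℕ → Finset (ι → ℕ)) (G : (ι → ℕ) → Prop) (α : ℝ) : Prop :=
  ∃ A₀ C : ℝ, 0 ≤ A₀ ∧ 1 ≤ C ∧ ∀ (X z H N : ℕ) (κ : ℝ), 1 ≤ H → 1 ≤ z → 0 ≤ κ → C ≤ κ ^ 12 * z →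
    (H : ℝ) * Real.log X < N →
    |(((T X).filter fun p => ¬ Exc X z H p ∧ G p).card : ℝ) -
      α * (((T X).filter fun p => ¬ Exc X z H p).card : ℝ)| ≤
    (N : ℝ) ^ Fintype.card ι * (A₀ * (κ * X))

/-- the hypothesis on the exceptional tuples -/
def ExcH (T : ℕ → Finset (ι → ℕ)) (j : ℕ) : Prop := ∀ X z H : ℕ, 1 ≤ X → 1 ≤ H →
  (((T X).filter fun p => Exc X z H p).card : ℝ) ≤
      (Fintype.card ι : ℝ) ^ Fintype.card ι *
        (∑ p ∈ (range (z + 1)).filter Nat.Prime, ((AA j (X / p)).card : ℝ) +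
          (X * Fintype.card ι / H + 1) + 4 * X * (1 + Real.log X) / H)

/-- the hypothesis on the size -/
def LowH (T : ℕ → Finset (ι → ℕ)) : Prop := ∃ (c : ℝ) (X₀ : ℕ), 0 < c ∧ ∀ X : ℕ, X₀ ≤ X →
  c * (X * Real.log (Real.log X) ^ (Fintype.card ι - 1) / Real.log X) ≤ ((T X).card : ℝ)

/-- **The law, abstractly.** -/
theorem law_abs {j : ℕ} (hj : Fintype.card ι = j + 2) {T : ℕ → Finset (ι → ℕ)}
    {G : (ι → ℕ) → Prop} {α : ℝ} (h0 : 0 ≤ α) (h1 : α ≤ 1) (hB : BoxH T G α) (hE : ExcH T (j + 1))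
    (hL : LowH T) :
    Tendsto (fun X : ℕ => (((T X).filter fun p => G p).card : ℝ) / ((T X).card : ℝ)) atTop (𝓝 α) := by
  obtain ⟨c, X₁, hc, hlow⟩ := hL
  obtain ⟨M, hM⟩ := exists_MH
  obtain ⟨C₁, hC₁, hAA⟩ := card_AA hM j
  obtain ⟨A₀, C₂, hA₀, hC₂, hbox⟩ := hB
  set n := Fintype.card ι with hn
  set q : ℕ := 5 * n + 2 with hq
  set B : ℕ := 12 * q with hB
  have t1 : Tendsto (fun X : ℕ => Real.log (X : ℝ)) atTop atTop :=
    Real.tendsto_log_atTop.comp tendsto_natCast_atTop_atTop
  have t3 : Tendsto (fun X : ℕ => Real.log (Real.log (X : ℝ))) atTop atTop :=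
    Real.tendsto_log_atTop.comp t1
  have t4 : Tendsto (fun X : ℕ => Real.exp (Real.log X) / Real.log X ^ (2 * (B + 1))) atTop atTop :=
    (Real.tendsto_exp_div_pow_atTop _).comp t1
  have hev : ∀ᶠ X : ℕ in atTop, X₁ ≤ X ∧ 3 ≤ X ∧ 3 ≤ Real.log X ∧
      max 1 M ≤ Real.log (Real.log X) ∧ 1 ≤ Real.exp (Real.log X) / Real.log X ^ (2 * (B + 1)) := by
    filter_upwards [eventually_ge_atTop X₁, eventually_ge_atTop 3, t1.eventually_ge_atTop 3,
      t3.eventually_ge_atTop (max 1 M), t4.eventually_ge_atTop 1] with X h1 h2 h3 h4 h5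
    exact ⟨h1, h2, h3, h4, h5⟩
  -- the bound of the error
  set A₁ : ℝ := A₀ * C₂ + (n : ℝ) ^ n * (n + 9) with hA₁
  set A₂ : ℝ := (n : ℝ) ^ n * (4 * C₁ * 2 ^ j) with hA₂
  set g : ℕ → ℝ := fun X => (A₁ / Real.log X + A₂ * ((Real.log (B + 1) + M +
    Real.log (Real.log (Real.log X))) / Real.log (Real.log X))) / c with hg
  have hmain : ∀ᶠ X : ℕ in atTop, |(((T X).filter fun p => G p).card : ℝ) /
      ((T X).card : ℝ) - α| ≤ g X := by
    filter_upwards [hev] with X ⟨hX₁, hX3, hl3, hll, hexp⟩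
    have hX1 : (1 : ℝ) < X := by exact_mod_cast (by omega : 1 < X)
    have hX0 : (0 : ℝ) < X := by linarith
    obtain ⟨l, hl⟩ : ∃ l, l = Real.log X := ⟨_, rfl⟩
    obtain ⟨ll, hlle⟩ : ∃ ll, ll = Real.log l := ⟨_, rfl⟩
    rw [← hl] at hl3 hexp
    rw [← hl, ← hlle] at hll
    have hl0 : 0 < l := by linarith
    have hl1 : 1 ≤ l := by linarith
    have hll1 : 1 ≤ ll := (le_max_left _ _).trans hll
    have hllM : M ≤ ll := (le_max_right _ _).trans hll
    have hXl : l ^ (2 * (B + 1)) ≤ X := by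
      rw [hl, Real.exp_log hX0, ← hl, one_le_div (by positivity)] at hexp
      exact hexp
    set z : ℕ := ⌈l ^ B⌉₊ with hz
    set H : ℕ := ⌈l ^ 3⌉₊ with hH
    set N : ℕ := ⌊(H : ℝ) * l⌋₊ + 1 with hN
    set κ : ℝ := (C₂ / z) ^ (1 / 12 : ℝ) with hκ
    have hlB : 1 ≤ l ^ B := one_le_pow₀ hl1
    have hzB : l ^ B ≤ z := Nat.le_ceil _
    have hzB' : (z : ℝ) ≤ l ^ (B + 1) := by
      have h1 := (Nat.ceil_lt_add_one (by positivity : 0 ≤ l ^ B)).le
      rw [pow_succ]
      nlinarith
    have hz0 : (0 : ℝ) < z := by linarith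
    have hz1 : 1 ≤ z := by
      have : (0 : ℕ) < z := by exact_mod_cast hz0
      omega
    have hH3 : l ^ 3 ≤ H := Nat.le_ceil _
    have hH0 : (0 : ℝ) < H := lt_of_lt_of_le (by positivity) hH3
    have hH1 : 1 ≤ H := by
      have : (0 : ℕ) < H := by exact_mod_cast hH0
      omega
    have hH3' : (H : ℝ) ≤ 2 * l ^ 3 := by
      have h1 := (Nat.ceil_lt_add_one (by positivity : 0 ≤ l ^ 3)).le
      have h2 : 1 ≤ l ^ 3 := one_le_pow₀ hl1
      linarith
    have hN1 : (H : ℝ) * l < N := by
      rw [hN]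
      push_cast
      exact Nat.lt_floor_add_one _
    have hN5 : (N : ℝ) ≤ l ^ 5 := by
      have h1 : ((⌊(H : ℝ) * l⌋₊ : ℕ) : ℝ) ≤ H * l := Nat.floor_le (by positivity)
      have h2 : (H : ℝ) * l ≤ 2 * l ^ 3 * l := mul_le_mul_of_nonneg_right hH3' hl0.le
      have h3 : (1 : ℝ) ≤ l ^ 4 := one_le_pow₀ hl1
      have h4 : 3 * l ^ 4 ≤ l ^ 5 := by
        rw [pow_succ l 4]
        nlinarith
      rw [hN]
      push_cast
      nlinarith
    have hC20 : 0 ≤ C₂ := by linarith
    have hκ0 : 0 ≤ κ := by positivity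
    have hκ12 : κ ^ 12 = C₂ / z := by
      rw [hκ, ← Real.rpow_natCast, ← Real.rpow_mul (by positivity)]
      norm_num
    have hκz : C₂ ≤ κ ^ 12 * z := by
      rw [hκ12, div_mul_cancel₀ _ hz0.ne']
    have hκl : κ ≤ C₂ / l ^ q := by
      refine le_of_pow_le_pow_left₀ (n := 12) (by norm_num) (by positivity) ?_
      rw [hκ12, div_pow, ← pow_mul, mul_comm q 12, ← hB]
      apply div_le_div₀ (by positivity) _ (by positivity) hzB
      exact le_self_pow₀ hC₂ (by norm_num)
    have hb := hbox X z H N κ hH1 hz1 hκ0 hκz (by rw [← hl]; exact hN1)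
    have ht := total_abs (T X) G X z H h0 h1 hb
    have he := hE X z H (by omega) hH1
    -- the parts of the error
    set Dd : ℝ := X * ll ^ (j + 1) / l with hDd
    have hDd0 : 0 < Dd := by positivity
    have hll0 : 0 < ll := by linarith
    have hXD : ∀ m : ℕ, 2 ≤ m → X / l ^ m ≤ Dd / l := by
      intro m hm
      rw [hDd, div_div, ← pow_two]
      apply div_le_div₀ (by positivity) _ (by positivity) (pow_le_pow_right₀ hl1 hm)
      exact le_mul_of_one_le_right hX0.le (one_le_pow₀ hll1)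
    have e1 : (N : ℝ) ^ n * (A₀ * (κ * X)) ≤ A₀ * C₂ * (Dd / l) := by
      have h1 : (N : ℝ) ^ n ≤ l ^ (5 * n) := by
        rw [pow_mul]
        exact pow_le_pow_left₀ (Nat.cast_nonneg _) hN5 n
      calc (N : ℝ) ^ n * (A₀ * (κ * X)) ≤
          l ^ (5 * n) * (A₀ * (C₂ / l ^ q * X)) := by gcongr
        _ = A₀ * C₂ * (X / l ^ 2) := by
            have h2 : l ^ q = l ^ (5 * n) * l ^ 2 := by rw [hq, pow_add]
            rw [h2]
            field_simp
        _ ≤ _ := mul_le_mul_of_nonneg_left (hXD 2 le_rfl) (by positivity)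
    have hz2 : 2 ≤ z := by
      have h1 : (2 : ℝ) < z := by
        refine lt_of_lt_of_le ?_ hzB
        have h2 : l ^ 1 ≤ l ^ B := pow_le_pow_right₀ hl1 (by omega)
        rw [pow_one] at h2
        linarith
      have : 2 < z := by exact_mod_cast h1
      omega
    have hzz : z * z ≤ X := by
      have h1 : (z : ℝ) * z ≤ X := by
        refine le_trans ?_ hXl
        rw [pow_mul', pow_two]
        exact mul_le_mul hzB' hzB' hz0.le (by positivity)
      exact_mod_cast h1
    have e2 := sum_AA_le hM (by linarith) hAA hz2 hzz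
    have hLX : LL M X ≤ 2 * ll := by
      unfold LL
      rw [← hl, ← hlle]
      linarith
    have hLX0 : 0 ≤ LL M X := by linarith [one_le_LL hM.1 (show 2 ≤ X by omega)]
    have hLz : LL M z ≤ Real.log (B + 1) + M + Real.log ll := by
      unfold LL
      have h1 : Real.log z ≤ (B + 1) * ll := by
        have h2 := Real.log_le_log hz0 hzB'
        rw [Real.log_pow, ← hlle] at h2
        push_cast at h2
        exact h2
      have h2 : (1 : ℝ) < z := by exact_mod_cast (by omega : 1 < z)
      have h3 := Real.log_le_log (Real.log_pos h2) h1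
      rw [Real.log_mul (by positivity) hll0.ne'] at h3
      linarith
    have hLz0 : 0 ≤ LL M z := by linarith [one_le_LL hM.1 hz2]
    have e3 : 4 * C₁ * (X * LL M X ^ j * LL M z / Real.log X) ≤
        4 * C₁ * 2 ^ j * (((Real.log (B + 1) + M + Real.log ll) / ll) * Dd) := by
      rw [← hl]
      have h1 : LL M X ^ j ≤ (2 * ll) ^ j := pow_le_pow_left₀ hLX0 hLX j
      calc 4 * C₁ * (X * LL M X ^ j * LL M z / l) ≤
          4 * C₁ * (X * (2 * ll) ^ j * (Real.log (B + 1) + M + Real.log ll) / l) := by gcongr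
        _ = _ := by
            rw [hDd, mul_pow, pow_succ]
            field_simp
    have e4 : (X : ℝ) * n / H + 1 ≤ (n + 1) * (Dd / l) := by
      have h1 : (X : ℝ) * n / H ≤ n * (Dd / l) := by
        calc (X : ℝ) * n / H ≤ X * n / l ^ 3 := by gcongr
          _ = n * (X / l ^ 3) := by ring
          _ ≤ _ := mul_le_mul_of_nonneg_left (hXD 3 (by norm_num)) (Nat.cast_nonneg _)
      have h2 : (1 : ℝ) ≤ Dd / l := by
        refine le_trans ?_ (hXD 2 le_rfl)
        rw [one_le_div (by positivity)]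
        exact (pow_le_pow_right₀ hl1 (by omega)).trans hXl
      linarith
    have e5 : 4 * (X : ℝ) * (1 + Real.log X) / H ≤ 8 * (Dd / l) := by
      rw [← hl]
      calc 4 * (X : ℝ) * (1 + l) / H ≤ 4 * X * (l + l) / l ^ 3 := by gcongr
        _ = 8 * (X / l ^ 2) := by
            field_simp
            ring
        _ ≤ _ := mul_le_mul_of_nonneg_left (hXD 2 le_rfl) (by norm_num)
    have e6 : |(((T X).filter fun p => G p).card : ℝ) -
        α * ((T X).card : ℝ)| ≤
        (A₁ / l + A₂ * ((Real.log (B + 1) + M + Real.log ll) / ll)) * Dd := by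
      refine ht.trans ?_
      have h1 : (((T X).filter fun p => Exc X z H p).card : ℝ) ≤
          (n : ℝ) ^ n * (4 * C₁ * 2 ^ j * (((Real.log (B + 1) + M + Real.log ll) / ll) * Dd) +
            (n + 1) * (Dd / l) + 8 * (Dd / l)) := by
        refine he.trans ?_
        refine mul_le_mul_of_nonneg_left ?_ (by positivity)
        linarith
      refine (add_le_add e1 h1).trans (le_of_eq ?_)
      rw [hA₁, hA₂]
      field_simp
      ring
    -- division
    have hlw := hlow X hX₁
    have hn1 : n - 1 = j + 1 := by omega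
    rw [← hl, ← hlle, hn1] at hlw
    have hlw' : c * Dd ≤ ((T X).card : ℝ) := hlw
    have hT0 : (0 : ℝ) < ((T X).card : ℝ) := lt_of_lt_of_le (by positivity) hlw'
    have h1 : (((T X).filter fun p => G p).card : ℝ) / ((T X).card : ℝ) -
        α = ((((T X).filter fun p => G p).card : ℝ) -
        α * ((T X).card : ℝ)) / ((T X).card : ℝ) := by
      field_simp
    rw [h1, abs_div, abs_of_pos hT0, div_le_iff₀ hT0]
    have h2 : 0 ≤ A₁ / l + A₂ * ((Real.log (B + 1) + M + Real.log ll) / ll) := by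
      have h3 : 0 ≤ Real.log (B + 1) + M + Real.log ll := hLz0.trans hLz
      positivity
    have h3 : g X = (A₁ / l + A₂ * ((Real.log (B + 1) + M + Real.log ll) / ll)) / c := by
      rw [hg]
      simp only
      rw [← hl, ← hlle]
    rw [h3]
    refine e6.trans ?_
    rw [div_mul_eq_mul_div, le_div_iff₀ hc, mul_assoc]
    refine mul_le_mul_of_nonneg_left ?_ h2
    rw [mul_comm]
    exact hlw'
  have hg0 : Tendsto g atTop (𝓝 0) := by
    have h1 : Tendsto (fun X : ℕ => A₁ / Real.log X) atTop (𝓝 0) := t1.const_div_atTop A₁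
    have h2 : Tendsto (fun y : ℝ => (Real.log (B + 1) + M + Real.log y) / y) atTop (𝓝 0) := by
      have h3 : Tendsto (fun y : ℝ => (Real.log (B + 1) + M) / y + Real.log y / y) atTop (𝓝 (0 + 0)) := by
        refine Tendsto.add (tendsto_id.const_div_atTop _) ?_
        have h4 := Real.isLittleO_log_id_atTop.tendsto_div_nhds_zero
        exact h4
      rw [add_zero] at h3
      refine h3.congr fun y => ?_
      rw [← add_div]
    have h3 := (h2.comp t3).const_mul A₂
    have h4 := (h1.add h3).div_const c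
    rw [mul_zero, add_zero, zero_div] at h4
    exact h4
  rw [tendsto_iff_norm_sub_tendsto_zero]
  exact squeeze_zero' (Eventually.of_forall fun _ => norm_nonneg _) hmain hg0

/-- the number of the exceptional tuples, abstractly -/
theorem exc_abs {j : ℕ} (hj : Fintype.card ι = j + 1) {T : ℕ → Finset (ι → ℕ)}
    (F : ℕ → Finset (Finset ℕ))
    (hT : ∀ X, ∀ p ∈ T X, (∀ i, (p i).Prime) ∧ Function.Injective p ∧ ∏ i, p i ≤ X ∧
      univ.image p ∈ F X)
    (hcut : ∀ X z H : ℕ, 1 ≤ X → 1 ≤ H → (((F X).filter fun S => S.card ≤ Fintype.card ι ∧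
      X < (∏ p ∈ sm z S, p) * ∏ p ∈ la z S, XX H (jj H p)).card : ℝ) ≤ X * Fintype.card ι / H + 1)
    (hcoll : ∀ X z H : ℕ, 1 ≤ X → 1 ≤ H → (((F X).filter fun S =>
      ¬ Set.InjOn (jj H) (la z S : Set ℕ)).card : ℝ) ≤ 4 * X * (1 + Real.log X) / H) :
    ExcH T j := by
  intro X z H hX hH
  set B1 := (AA (j + 1) X).filter fun S => ∃ p ∈ S, p ≤ z with hB1
  set B2 := (F X).filter fun S => S.card ≤ Fintype.card ι ∧
      X < (∏ p ∈ sm z S, p) * ∏ p ∈ la z S, XX H (jj H p) with hB2
  set B3 := (F X).filter fun S => ¬ Set.InjOn (jj H) (la z S : Set ℕ) with hB3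
  have h1 : ((T X).filter fun p => Exc X z H p).card ≤
      Fintype.card ι ^ Fintype.card ι * ((B1 ∪ B2) ∪ B3).card := by
    refine card_le_image _ (fun p hp => ?_) _ (fun p hp => ?_)
    · rw [mem_filter] at hp
      exact (hT X p hp.1).2.1
    · rw [mem_filter] at hp
      obtain ⟨hp1, h4⟩ := hp
      obtain ⟨h1, h2, h3, hSS⟩ := hT X p hp1
      have hcard : (univ.image p).card = Fintype.card ι := by
        rw [Finset.card_image_of_injective _ h2, Finset.card_univ]
      have hprod : ∏ q ∈ univ.image p, q = ∏ i, p i :=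
        Finset.prod_image fun a _ b _ h => h2 h
      have hpr : ∀ q ∈ univ.image p, q.Prime := by
        intro q hq
        rw [mem_image] at hq
        obtain ⟨i, -, rfl⟩ := hq
        exact h1 i
      by_cases h5 : ∃ i, p i ≤ z
      · refine mem_union_left _ (mem_union_left _ ?_)
        rw [hB1, mem_filter, mem_AA]
        obtain ⟨i, hi⟩ := h5
        exact ⟨⟨hpr, by rw [hcard, hj], by rw [hprod]; exact h3⟩, p i,
          Finset.mem_image_of_mem _ (mem_univ i), hi⟩
      · push Not at h5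
        have hla : la z (univ.image p) = univ.image p := by
          unfold la
          refine Finset.filter_true_of_mem fun q hq => ?_
          rw [mem_image] at hq
          obtain ⟨i, -, rfl⟩ := hq
          have := h5 i
          omega
        have hsm : sm z (univ.image p) = ∅ := by
          unfold sm
          refine Finset.filter_eq_empty_iff.2 fun q hq => ?_
          rw [mem_image] at hq
          obtain ⟨i, -, rfl⟩ := hq
          have := h5 i
          omega
        rcases h4 with h4 | h4 | h4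
        · obtain ⟨i, hi⟩ := h4
          have := h5 i
          omega
        · refine mem_union_right _ ?_
          rw [hB3, mem_filter]
          refine ⟨hSS, fun h6 => h4 fun a b hab => ?_⟩
          rw [hla] at h6
          exact h2 (h6 (Finset.mem_coe.2 (Finset.mem_image_of_mem _ (mem_univ a)))
            (Finset.mem_coe.2 (Finset.mem_image_of_mem _ (mem_univ b))) hab)
        · refine mem_union_left _ (mem_union_right _ ?_)
          rw [hB2, mem_filter]
          refine ⟨hSS, hcard.le, ?_⟩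
          rw [hsm, hla, Finset.prod_empty, one_mul,
            Finset.prod_image fun a _ b _ h => h2 h]
          exact h4
  have h2 : (((B1 ∪ B2) ∪ B3).card : ℝ) ≤ (B1.card : ℝ) + B2.card + B3.card := by
    have h3 := Finset.card_union_le (B1 ∪ B2) B3
    have h4 := Finset.card_union_le B1 B2
    have : ((B1 ∪ B2) ∪ B3).card ≤ B1.card + B2.card + B3.card := by omega
    exact_mod_cast this
  have h3 : (B1.card : ℝ) ≤ ∑ p ∈ (range (z + 1)).filter Nat.Prime, ((AA j (X / p)).card : ℝ) := by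
    have h4 : B1.card ≤ ∑ p ∈ (range (z + 1)).filter Nat.Prime, (AA j (X / p)).card := by
      have h5 := card_AA_le j X ((range (z + 1)).filter Nat.Prime) (fun S => ∃ p ∈ S, p ≤ z) (by
        rintro S hS ⟨p, hp, hpz⟩
        rw [mem_AA] at hS
        refine ⟨p, hp, ?_⟩
        rw [mem_filter, mem_range]
        exact ⟨by omega, hS.1 p hp⟩)
      refine le_trans (le_of_eq ?_) h5
      rw [hB1]
      congr 1
      ext S
      simp only [mem_filter]
    exact_mod_cast h4
  have h4 : (B2.card : ℝ) ≤ X * Fintype.card ι / H + 1 := hcut X z H hX hH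
  have h5 : (B3.card : ℝ) ≤ 4 * X * (1 + Real.log X) / H := hcoll X z H hX hH
  have h6 : (((T X).filter fun p => Exc X z H p).card : ℝ) ≤
      (Fintype.card ι : ℝ) ^ Fintype.card ι * (((B1 ∪ B2) ∪ B3).card : ℝ) := by exact_mod_cast h1
  refine h6.trans (mul_le_mul_of_nonneg_left ?_ (by positivity))
  linarith

end Pool.Agent.V11291.FK
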