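import Pool.Agent.V11291.FK.Low2
import Pool.Agent.Y710.CQ.BIL
import Pool.Agent.Y356.CQ.EQ
import Pool.Agent.Y839.CQ.SYM

/-!
# A fixed number of primes: the proportion of the good tuples
-/

set_option autoImplicit false

open scoped Classical

namespace Pool.Agent.V11291.FK

open Finset Filter Topology
open Pool.Agent.Y703.CQ
open Pool.Agent.Y219.CQ (sp)

variable {ι : Type} [Fintype ι] [LinearOrder ι]

theorem sp_nonneg (m : ℕ) : 0 ≤ sp m := by
  unfold Pool.Agent.Y219.CQ.sp
  refine Finset.prod_nonneg fun i _ => ?_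
  have : (1 / 2 : ℝ) ^ (2 * i + 1) ≤ 1 := pow_le_one₀ (by norm_num) (by norm_num)
  linarith

theorem sp_le_one (m : ℕ) : sp m ≤ 1 := by
  unfold Pool.Agent.Y219.CQ.sp
  refine Finset.prod_le_one (fun i _ => ?_) fun i _ => ?_
  · have : (1 / 2 : ℝ) ^ (2 * i + 1) ≤ 1 := pow_le_one₀ (by norm_num) (by norm_num)
    linarith
  · have : (0 : ℝ) ≤ (1 / 2 : ℝ) ^ (2 * i + 1) := by positivity
    linarith

/-- the total error -/
theorem total (P : ι → ℕ → Prop) (f : ℕ → ZMod 2) (X z H m : ℕ) {E : ℝ}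
    (h : |(((Tup P X).filter fun p => ¬ Exc X z H p ∧ Gd f (univ.image p)).card : ℝ) -
          sp m * (((Tup P X).filter fun p => ¬ Exc X z H p).card : ℝ)| ≤ E) :
    |(((Tup P X).filter fun p => Gd f (univ.image p)).card : ℝ) -
          sp m * ((Tup P X).card : ℝ)| ≤
      E + (((Tup P X).filter fun p => Exc X z H p).card : ℝ) := by
  have h1 : (((Tup P X).filter fun p => Gd f (univ.image p)).card : ℝ) =
      (((Tup P X).filter fun p => ¬ Exc X z H p ∧ Gd f (univ.image p)).card : ℝ) +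
      (((Tup P X).filter fun p => Exc X z H p ∧ Gd f (univ.image p)).card : ℝ) := by
    have e := Finset.card_filter_add_card_filter_not (s := (Tup P X).filter fun p => Gd f (univ.image p))
      (fun p => Exc X z H p)
    rw [Finset.filter_filter, Finset.filter_filter] at e
    have e1 : ((Tup P X).filter fun p => Gd f (univ.image p) ∧ Exc X z H p) =
        (Tup P X).filter fun p => Exc X z H p ∧ Gd f (univ.image p) :=
      Finset.filter_congr fun p _ => and_comm
    have e2 : ((Tup P X).filter fun p => Gd f (univ.image p) ∧ ¬ Exc X z H p) =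
        (Tup P X).filter fun p => ¬ Exc X z H p ∧ Gd f (univ.image p) :=
      Finset.filter_congr fun p _ => and_comm
    rw [e1, e2] at e
    rw [← e]
    push_cast
    ring
  have h2 : ((Tup P X).card : ℝ) = (((Tup P X).filter fun p => ¬ Exc X z H p).card : ℝ) +
      (((Tup P X).filter fun p => Exc X z H p).card : ℝ) := by
    have e := Finset.card_filter_add_card_filter_not (s := Tup P X) (fun p => Exc X z H p)
    rw [← e]
    push_cast
    ring
  have h3 : (((Tup P X).filter fun p => Exc X z H p ∧ Gd f (univ.image p)).card : ℝ) ≤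
      (((Tup P X).filter fun p => Exc X z H p).card : ℝ) := by
    have : ((Tup P X).filter fun p => Exc X z H p ∧ Gd f (univ.image p)) ⊆
        (Tup P X).filter fun p => Exc X z H p := by
      intro p hp
      rw [mem_filter] at hp ⊢
      exact ⟨hp.1, hp.2.1⟩
    exact_mod_cast Finset.card_le_card this
  have h4 : (0 : ℝ) ≤ (((Tup P X).filter fun p => Exc X z H p ∧ Gd f (univ.image p)).card : ℝ) :=
    Nat.cast_nonneg _
  have h5 := sp_nonneg m
  have h6 := sp_le_one m
  have h7 : (0 : ℝ) ≤ (((Tup P X).filter fun p => Exc X z H p).card : ℝ) := Nat.cast_nonneg _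
  have h8 : sp m * (((Tup P X).filter fun p => Exc X z H p).card : ℝ) ≤
      (((Tup P X).filter fun p => Exc X z H p).card : ℝ) := by nlinarith
  have h9 : 0 ≤ sp m * (((Tup P X).filter fun p => Exc X z H p).card : ℝ) := mul_nonneg h5 h7
  rw [h1, h2, mul_add]
  rw [abs_le] at h ⊢
  constructor
  · linarith [h.1]
  · linarith [h.2]

/-- **The law for a fixed number of primes.** -/
theorem tup_law {I K : Finset ℕ} (hok : Ok I K) {j : ℕ} (hj : Fintype.card ι = j + 2)
    (J1 : Finset ι) (hne : ∃ i, i ∉ J1) {P : ι → ℕ → Prop} (f : ℕ → ZMod 2)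
    (hP : ∀ i p, P i p → p.Prime ∧ p ≠ 2 ∧ (i ∈ J1 ↔ p % 8 = 1))
    (hcl : ∀ p : ι → ℕ, (∀ i, P i (p i)) → Function.Injective p → Cl I K (univ.image p))
    (hD : ∀ i, Dn (P i)) :
    Tendsto (fun X : ℕ => (((Tup P X).filter fun p => Gd f (univ.image p)).card : ℝ) /
      ((Tup P X).card : ℝ)) atTop (𝓝 (sp J1.card)) := by
  have hPp : ∀ i p, P i p → p.Prime := fun i p h => (hP i p h).1
  obtain ⟨i₀, hi₀⟩ := hne
  obtain ⟨c, X₁, hc, hlow⟩ := low hPp hD i₀
  obtain ⟨M, hM⟩ := exists_MH
  obtain ⟨C₁, hC₁, hAA⟩ := card_AA hM j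
  obtain ⟨C₂, hC₂, hbox⟩ := sum_boxes (ι := ι) Pool.Agent.Y839.CQ.t_SYM Pool.Agent.Y356.CQ.t_EQ
    Pool.Agent.Y710.CQ.t_BIL J1 ⟨i₀, hi₀⟩
  set n := Fintype.card ι with hn
  set q : ℕ := 5 * n + 2 with hq
  set B : ℕ := 12 * q with hB
  have t1 : Tendsto (fun X : ℕ => Real.log (X : ℝ)) atTop atTop :=
    Real.tendsto_log_atTop.comp tendsto_natCast_atTop_atTop
  have t3 : Tendsto (fun X : ℕ => Real.log (Real.log (X : ℝ))) atTop atTop :=
    Real.tendsto_log_atTop.comp t1
  have t4 : Tendsto (fun X : ℕ => Real.exp (Real.log X) / Real.log X ^ (2 * (B + 1))) atTop atTop :=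
    (Real.tendsto_exp_div_pow_atTop _).comp t1
  have hev : ∀ᶠ X : ℕ in atTop, X₁ ≤ X ∧ 3 ≤ X ∧ 3 ≤ Real.log X ∧
      max 1 M ≤ Real.log (Real.log X) ∧ 1 ≤ Real.exp (Real.log X) / Real.log X ^ (2 * (B + 1)) := by
    filter_upwards [eventually_ge_atTop X₁, eventually_ge_atTop 3, t1.eventually_ge_atTop 3,
      t3.eventually_ge_atTop (max 1 M), t4.eventually_ge_atTop 1] with X h1 h2 h3 h4 h5
    exact ⟨h1, h2, h3, h4, h5⟩
  -- the bound of the error
  set A₁ : ℝ := 2 ^ (n + n ^ 2) * C₂ + (n : ℝ) ^ n * (n + 9) with hA₁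
  set A₂ : ℝ := (n : ℝ) ^ n * (4 * C₁ * 2 ^ j) with hA₂
  set g : ℕ → ℝ := fun X => (A₁ / Real.log X + A₂ * ((Real.log (B + 1) + M +
    Real.log (Real.log (Real.log X))) / Real.log (Real.log X))) / c with hg
  have hmain : ∀ᶠ X : ℕ in atTop, |(((Tup P X).filter fun p => Gd f (univ.image p)).card : ℝ) /
      ((Tup P X).card : ℝ) - sp J1.card| ≤ g X := by
    filter_upwards [hev] with X ⟨hX₁, hX3, hl3, hll, hexp⟩
    have hX1 : (1 : ℝ) < X := by exact_mod_cast (by omega : 1 < X)
    have hX0 : (0 : ℝ) < X := by linarith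
    obtain ⟨l, hl⟩ : ∃ l, l = Real.log X := ⟨_, rfl⟩
    obtain ⟨ll, hlle⟩ : ∃ ll, ll = Real.log l := ⟨_, rfl⟩
    rw [← hl] at hl3 hexp
    rw [← hl, ← hlle] at hll
    have hl0 : 0 < l := by linarith
    have hl1 : 1 ≤ l := by linarith
    have hll1 : 1 ≤ ll := (le_max_left _ _).trans hll
    have hllM : M ≤ ll := (le_max_right _ _).trans hll
    have hXl : l ^ (2 * (B + 1)) ≤ X := by
      rw [hl, Real.exp_log hX0, ← hl, one_le_div (by positivity)] at hexp
      exact hexp
    set z : ℕ := ⌈l ^ B⌉₊ with hz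
    set H : ℕ := ⌈l ^ 3⌉₊ with hH
    set N : ℕ := ⌊(H : ℝ) * l⌋₊ + 1 with hN
    set κ : ℝ := (C₂ / z) ^ (1 / 12 : ℝ) with hκ
    have hlB : 1 ≤ l ^ B := one_le_pow₀ hl1
    have hzB : l ^ B ≤ z := Nat.le_ceil _
    have hzB' : (z : ℝ) ≤ l ^ (B + 1) := by
      have h1 := (Nat.ceil_lt_add_one (by positivity : 0 ≤ l ^ B)).le
      rw [pow_succ]
      nlinarith
    have hz0 : (0 : ℝ) < z := by linarith
    have hz1 : 1 ≤ z := by
      have : (0 : ℕ) < z := by exact_mod_cast hz0
      omega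
    have hH3 : l ^ 3 ≤ H := Nat.le_ceil _
    have hH0 : (0 : ℝ) < H := lt_of_lt_of_le (by positivity) hH3
    have hH1 : 1 ≤ H := by
      have : (0 : ℕ) < H := by exact_mod_cast hH0
      omega
    have hH3' : (H : ℝ) ≤ 2 * l ^ 3 := by
      have h1 := (Nat.ceil_lt_add_one (by positivity : 0 ≤ l ^ 3)).le
      have h2 : 1 ≤ l ^ 3 := one_le_pow₀ hl1
      linarith
    have hN1 : (H : ℝ) * l < N := by
      rw [hN]
      push_cast
      exact Nat.lt_floor_add_one _
    have hN5 : (N : ℝ) ≤ l ^ 5 := by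
      have h1 : ((⌊(H : ℝ) * l⌋₊ : ℕ) : ℝ) ≤ H * l := Nat.floor_le (by positivity)
      have h2 : (H : ℝ) * l ≤ 2 * l ^ 3 * l := mul_le_mul_of_nonneg_right hH3' hl0.le
      have h3 : (1 : ℝ) ≤ l ^ 4 := one_le_pow₀ hl1
      have h4 : 3 * l ^ 4 ≤ l ^ 5 := by
        rw [pow_succ l 4]
        nlinarith
      rw [hN]
      push_cast
      nlinarith
    have hC20 : 0 ≤ C₂ := by linarith
    have hκ0 : 0 ≤ κ := by positivity
    have hκ12 : κ ^ 12 = C₂ / z := by
      rw [hκ, ← Real.rpow_natCast, ← Real.rpow_mul (by positivity)]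
      norm_num
    have hκz : C₂ ≤ κ ^ 12 * z := by
      rw [hκ12, div_mul_cancel₀ _ hz0.ne']
    have hκl : κ ≤ C₂ / l ^ q := by
      refine le_of_pow_le_pow_left₀ (n := 12) (by norm_num) (by positivity) ?_
      rw [hκ12, div_pow, ← pow_mul, mul_comm q 12, ← hB]
      apply div_le_div₀ (by positivity) _ (by positivity) hzB
      exact le_self_pow₀ hC₂ (by norm_num)
    have hb := hbox P f X z H N κ hP hH1 hz1 hκ0 hκz (by rw [← hl]; exact hN1)
    have ht := total P f X z H J1.card hb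
    have he := exc_le hok (j := j + 1) (by rw [← hn, hj]) hPp hcl (X := X) (z := z) (H := H)
      (by omega) hH1
    -- the parts of the error
    set Dd : ℝ := X * ll ^ (j + 1) / l with hDd
    have hDd0 : 0 < Dd := by positivity
    have hll0 : 0 < ll := by linarith
    have hXD : ∀ m : ℕ, 2 ≤ m → X / l ^ m ≤ Dd / l := by
      intro m hm
      rw [hDd, div_div, ← pow_two]
      apply div_le_div₀ (by positivity) _ (by positivity) (pow_le_pow_right₀ hl1 hm)
      exact le_mul_of_one_le_right hX0.le (one_le_pow₀ hll1)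
    have e1 : (N : ℝ) ^ n * (2 ^ (n + n ^ 2) * (κ * X)) ≤ 2 ^ (n + n ^ 2) * C₂ * (Dd / l) := by
      have h1 : (N : ℝ) ^ n ≤ l ^ (5 * n) := by
        rw [pow_mul]
        exact pow_le_pow_left₀ (Nat.cast_nonneg _) hN5 n
      calc (N : ℝ) ^ n * (2 ^ (n + n ^ 2) * (κ * X)) ≤
          l ^ (5 * n) * (2 ^ (n + n ^ 2) * (C₂ / l ^ q * X)) := by gcongr
        _ = 2 ^ (n + n ^ 2) * C₂ * (X / l ^ 2) := by
            have h2 : l ^ q = l ^ (5 * n) * l ^ 2 := by rw [hq, pow_add]
            rw [h2]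
            field_simp
        _ ≤ _ := mul_le_mul_of_nonneg_left (hXD 2 le_rfl) (by positivity)
    have hz2 : 2 ≤ z := by
      have h1 : (2 : ℝ) < z := by
        refine lt_of_lt_of_le ?_ hzB
        have h2 : l ^ 1 ≤ l ^ B := pow_le_pow_right₀ hl1 (by omega)
        rw [pow_one] at h2
        linarith
      have : 2 < z := by exact_mod_cast h1
      omega
    have hzz : z * z ≤ X := by
      have h1 : (z : ℝ) * z ≤ X := by
        refine le_trans ?_ hXl
        rw [pow_mul', pow_two]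
        exact mul_le_mul hzB' hzB' hz0.le (by positivity)
      exact_mod_cast h1
    have e2 := sum_AA_le hM (by linarith) hAA hz2 hzz
    have hLX : LL M X ≤ 2 * ll := by
      unfold LL
      rw [← hl, ← hlle]
      linarith
    have hLX0 : 0 ≤ LL M X := by linarith [one_le_LL hM.1 (show 2 ≤ X by omega)]
    have hLz : LL M z ≤ Real.log (B + 1) + M + Real.log ll := by
      unfold LL
      have h1 : Real.log z ≤ (B + 1) * ll := by
        have h2 := Real.log_le_log hz0 hzB'
        rw [Real.log_pow, ← hlle] at h2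
        push_cast at h2
        exact h2
      have h2 : (1 : ℝ) < z := by exact_mod_cast (by omega : 1 < z)
      have h3 := Real.log_le_log (Real.log_pos h2) h1
      rw [Real.log_mul (by positivity) hll0.ne'] at h3
      linarith
    have hLz0 : 0 ≤ LL M z := by linarith [one_le_LL hM.1 hz2]
    have e3 : 4 * C₁ * (X * LL M X ^ j * LL M z / Real.log X) ≤
        4 * C₁ * 2 ^ j * (((Real.log (B + 1) + M + Real.log ll) / ll) * Dd) := by
      rw [← hl]
      have h1 : LL M X ^ j ≤ (2 * ll) ^ j := pow_le_pow_left₀ hLX0 hLX j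
      calc 4 * C₁ * (X * LL M X ^ j * LL M z / l) ≤
          4 * C₁ * (X * (2 * ll) ^ j * (Real.log (B + 1) + M + Real.log ll) / l) := by gcongr
        _ = _ := by
            rw [hDd, mul_pow, pow_succ]
            field_simp
    have e4 : (X : ℝ) * n / H + 1 ≤ (n + 1) * (Dd / l) := by
      have h1 : (X : ℝ) * n / H ≤ n * (Dd / l) := by
        calc (X : ℝ) * n / H ≤ X * n / l ^ 3 := by gcongr
          _ = n * (X / l ^ 3) := by ring
          _ ≤ _ := mul_le_mul_of_nonneg_left (hXD 3 (by norm_num)) (Nat.cast_nonneg _)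
      have h2 : (1 : ℝ) ≤ Dd / l := by
        refine le_trans ?_ (hXD 2 le_rfl)
        rw [one_le_div (by positivity)]
        exact (pow_le_pow_right₀ hl1 (by omega)).trans hXl
      linarith
    have e5 : 4 * (X : ℝ) * (1 + Real.log X) / H ≤ 8 * (Dd / l) := by
      rw [← hl]
      calc 4 * (X : ℝ) * (1 + l) / H ≤ 4 * X * (l + l) / l ^ 3 := by gcongr
        _ = 8 * (X / l ^ 2) := by
            field_simp
            ring
        _ ≤ _ := mul_le_mul_of_nonneg_left (hXD 2 le_rfl) (by norm_num)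
    have e6 : |(((Tup P X).filter fun p => Gd f (univ.image p)).card : ℝ) -
        sp J1.card * ((Tup P X).card : ℝ)| ≤
        (A₁ / l + A₂ * ((Real.log (B + 1) + M + Real.log ll) / ll)) * Dd := by
      refine ht.trans ?_
      have h1 : (((Tup P X).filter fun p => Exc X z H p).card : ℝ) ≤
          (n : ℝ) ^ n * (4 * C₁ * 2 ^ j * (((Real.log (B + 1) + M + Real.log ll) / ll) * Dd) +
            (n + 1) * (Dd / l) + 8 * (Dd / l)) := by
        refine he.trans ?_
        refine mul_le_mul_of_nonneg_left ?_ (by positivity)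
        linarith
      refine (add_le_add e1 h1).trans (le_of_eq ?_)
      rw [hA₁, hA₂]
      field_simp
      ring
    -- division
    have hlw := hlow X hX₁
    have hn1 : n - 1 = j + 1 := by omega
    rw [← hl, ← hlle, hn1] at hlw
    have hlw' : c * Dd ≤ ((Tup P X).card : ℝ) := hlw
    have hT0 : (0 : ℝ) < ((Tup P X).card : ℝ) := lt_of_lt_of_le (by positivity) hlw'
    have h1 : (((Tup P X).filter fun p => Gd f (univ.image p)).card : ℝ) / ((Tup P X).card : ℝ) -
        sp J1.card = ((((Tup P X).filter fun p => Gd f (univ.image p)).card : ℝ) -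
        sp J1.card * ((Tup P X).card : ℝ)) / ((Tup P X).card : ℝ) := by
      field_simp
    rw [h1, abs_div, abs_of_pos hT0, div_le_iff₀ hT0]
    have h2 : 0 ≤ A₁ / l + A₂ * ((Real.log (B + 1) + M + Real.log ll) / ll) := by
      have h3 : 0 ≤ Real.log (B + 1) + M + Real.log ll := hLz0.trans hLz
      positivity
    have h3 : g X = (A₁ / l + A₂ * ((Real.log (B + 1) + M + Real.log ll) / ll)) / c := by
      rw [hg]
      simp only
      rw [← hl, ← hlle]
    rw [h3]
    refine e6.trans ?_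
    rw [div_mul_eq_mul_div, le_div_iff₀ hc, mul_assoc]
    refine mul_le_mul_of_nonneg_left ?_ h2
    rw [mul_comm]
    exact hlw'
  have hg0 : Tendsto g atTop (𝓝 0) := by
    have h1 : Tendsto (fun X : ℕ => A₁ / Real.log X) atTop (𝓝 0) := t1.const_div_atTop A₁
    have h2 : Tendsto (fun y : ℝ => (Real.log (B + 1) + M + Real.log y) / y) atTop (𝓝 0) := by
      have h3 : Tendsto (fun y : ℝ => (Real.log (B + 1) + M) / y + Real.log y / y) atTop (𝓝 (0 + 0)) := by
        refine Tendsto.add (tendsto_id.const_div_atTop _) ?_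
        have h4 := Real.isLittleO_log_id_atTop.tendsto_div_nhds_zero
        exact h4
      rw [add_zero] at h3
      refine h3.congr fun y => ?_
      rw [← add_div]
    have h3 := (h2.comp t3).const_mul A₂
    have h4 := (h1.add h3).div_const c
    rw [mul_zero, add_zero, zero_div] at h4
    exact h4
  rw [tendsto_iff_norm_sub_tendsto_zero]
  exact squeeze_zero' (Eventually.of_forall fun _ => norm_nonneg _) hmain hg0

end Pool.Agent.V11291.FK
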