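import Pool.Agent.Y219.CQ.LA
import Pool.Agent.Y657.CQ.BOX

/-!
# A fixed number of primes: the exact count in a box

Adapted from `Pool.Agent.Y219.CQ.LA` (helper219) and `Pool.Agent.Y657.CQ.BOX` (helper657).
-/

set_option autoImplicit false

open scoped Classical

namespace Pool.Agent.V11291.FK

open Finset Module
open Pool.Agent.Y703.CQ
open Pool.Agent.Y219.CQ (F sp fr_Ns Gs bf mA mC mL mZ Sy pa pa_surj bf_add bf_symm mZ_symm Ns)
open Pool.Agent.Y759.CX (fr fr_equiv fr_comp)
open Pool.Agent.Y657.CQ (nr_symm HB_sub)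

/-- the probability that a random symmetric completion is nonsingular, no small primes -/
theorem LA0 (h : S_SYM) {U J : Type} [Fintype U] [IsEmpty U] [Fintype J] [LinearOrder J]
    (U1 : Finset U) (J1 : Finset J) (hJ : ∃ l, l ∉ J1) (A : U → U → ZMod 2) (B : U → J → ZMod 2)
    (C : J → U → ZMod 2) (f : U → ZMod 2) (g : J → ZMod 2) :
    ((univ.filter fun α : prs J1 → ZMod 2 =>
      GdA U1 J1 A B C (Pool.Agent.Y703.CQ.ext α) f g).card : ℝ) / 2 ^ (prs J1).card = sp J1.card := by
  have e2 : finrank F (J1 → F) = J1.card := by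
    rw [finrank_fintype_fun_eq_card, Fintype.card_coe]
  rw [← e2, ← fr_Ns (V := J1 → F) h]
  have h7 : (fun S : Sy (J1 → F) => Gs (bf (mA U1 A B f)) (bf (mC U1 J1 C)) S.1) =
      fun S : Sy (J1 → F) => Ns S.1 := by
    funext S
    apply propext
    unfold Gs Ns
    constructor
    · intro h x hx
      exact (h 0 x (fun x' => by
        have : x' = 0 := Subsingleton.elim _ _
        rw [this]
        simp) (fun y' => by
        rw [map_zero, LinearMap.zero_apply, zero_add]
        exact hx y')).2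
    · intro h x y _ h2
      have hx : x = 0 := Subsingleton.elim _ _
      refine ⟨hx, h y fun y' => ?_⟩
      have := h2 y'
      rw [hx, map_zero, LinearMap.zero_apply, zero_add] at this
      exact this
  rw [← h7]
  let S0 : Sy (J1 → F) := ⟨bf (mZ J1 C g), bf_symm _ (mZ_symm J1 C g)⟩
  rw [← fr_equiv (Equiv.addRight S0)
    (fun S : Sy (J1 → F) => Gs (bf (mA U1 A B f)) (bf (mC U1 J1 C)) S.1),
    ← fr_comp (pa J1) (pa_surj J1 hJ)]
  unfold Pool.Agent.Y759.CX.fr
  have h6 : Nat.card (prs J1 → F) = 2 ^ (prs J1).card := by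
    rw [Nat.card_fun, Nat.card_eq_fintype_card, Nat.card_eq_fintype_card, ZMod.card,
      Fintype.card_coe]
  rw [h6, Nat.card_eq_fintype_card, Fintype.card_subtype]
  push_cast
  congr 3
  refine Finset.filter_congr fun α _ => ?_
  rw [Pool.Agent.Y219.CQ.gd_iff U1 J1 A B C f g (fun u _ => isEmptyElim u) (fun u _ => isEmptyElim u) α,
    bf_add]
  exact Iff.rfl

/-- **The count in a box.** -/
theorem box0 (h : S_SYM) (hEQ : S_EQ) (f : ℕ → ZMod 2) {ι : Type} [Fintype ι] [LinearOrder ι]
    (J1 : Finset ι) (C : ι → Finset ℕ) (X : ι → ℕ) (κ : ℝ) (hκ : 0 ≤ κ)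
    (hCX : ∀ i, (C i).card ≤ X i) (hHB : HB J1 C X κ)
    (hC : ∀ i, ∀ p ∈ C i, p.Prime ∧ p ≠ 2 ∧ (i ∈ J1 ↔ p % 8 = 1))
    (hdis : ∀ i l, i ≠ l → Disjoint (C i) (C l)) (hne : ∃ i, i ∉ J1) :
    |(((Fintype.piFinset C).filter fun p => Gd f (univ.image p)).card : ℝ) -
        sp J1.card * ((Fintype.piFinset C).card : ℝ)| ≤
      2 ^ (Fintype.card ι + (prs J1).card) * (κ * ∏ j, (X j : ℝ)) := by
  set R : ℝ := 2 ^ (prs J1).card * (κ * ∏ j, (X j : ℝ)) with hR
  have hR0 : 0 ≤ R := mul_nonneg (by positivity)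
    (mul_nonneg hκ (Finset.prod_nonneg fun j _ => by positivity))
  -- facts on tuples
  have hinj : ∀ p ∈ Fintype.piFinset C, Function.Injective p := by
    intro p hp i j hij
    rw [Fintype.mem_piFinset] at hp
    by_contra hne
    have h1 := Finset.disjoint_left.1 (hdis i j hne) (hp i)
    rw [hij] at h1
    exact h1 (hp j)
  have hJ : ∀ p ∈ Fintype.piFinset C, ∀ i, p i % 8 = 1 ↔ i ∈ J1 := by
    intro p hp i
    rw [Fintype.mem_piFinset] at hp
    exact (hC i _ (hp i)).2.2.symm
  have hd : ∀ p ∈ Fintype.piFinset C, ∀ i, p i ∉ (∅ : Finset ℕ) := fun p _ i => Finset.notMem_empty _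
  have hpr : ∀ p ∈ Fintype.piFinset C, ∀ i, (p i).Prime ∧ p i ≠ 2 := by
    intro p hp i
    rw [Fintype.mem_piFinset] at hp
    exact ⟨(hC i _ (hp i)).1, (hC i _ (hp i)).2.1⟩
  -- the part with given labels
  have h1 : ∀ β : ι → ZMod 2,
      |(((Fintype.piFinset C).filter fun p => (fun i => f (p i)) = β ∧
          Gd f (univ.image p)).card : ℝ) -
        sp J1.card * (((Fintype.piFinset C).filter fun p => (fun i => f (p i)) = β).card : ℝ)| ≤
      R := by
    intro β
    set C' : ι → Finset ℕ := fun i => (C i).filter fun q => f q = β i with hC'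
    have hpi : (Fintype.piFinset C).filter (fun p => (fun i => f (p i)) = β) =
        Fintype.piFinset C' := by
      ext p
      simp only [Finset.mem_filter, Fintype.mem_piFinset, hC']
      constructor
      · rintro ⟨h2, h3⟩ i
        exact ⟨h2 i, congrFun h3 i⟩
      · intro h2
        exact ⟨fun i => (h2 i).1, funext fun i => (h2 i).2⟩
    set Q : (prs J1 → ZMod 2) → Prop := fun α =>
      GdA (univ.filter fun u : (∅ : Finset ℕ) => (u : ℕ) % 8 = 1)
      J1 (fun u v : (∅ : Finset ℕ) => nr u v) (fun (u : (∅ : Finset ℕ)) l => 0)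
      (fun k (u : (∅ : Finset ℕ)) => 0)
      (Pool.Agent.Y703.CQ.ext α) (fun u : (∅ : Finset ℕ) => f u) (fun k => β k) with hQ
    have h2 : ((univ.filter Q).card : ℝ) / 2 ^ (prs J1).card = sp J1.card :=
      LA0 h _ J1 hne _ _ _ _ _
    have h3 := hEQ ι J1 C' X κ hκ
      (fun i => (Finset.card_le_card (Finset.filter_subset _ _)).trans (hCX i))
      (HB_sub hHB fun i q => f q = β i) Q
    have h4 : ((Fintype.piFinset C).filter fun p => (fun i => f (p i)) = β ∧
        Gd f (univ.image p)) = ((Fintype.piFinset C').filter fun p =>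
          Q fun e => nr (p e.1.1) (p e.1.2)) := by
      rw [← hpi, Finset.filter_filter]
      refine Finset.filter_congr fun p hp => ?_
      refine and_congr_right fun hl => ?_
      have e := Pool.Agent.Y657.CQ.gd_iff f (hinj p hp) (hpr p hp) (hd p hp) (hJ p hp)
      rw [Finset.empty_union] at e
      rw [e]
      subst hl
      have e1 : (fun (u : (∅ : Finset ℕ)) l => nr u (p l)) = fun _ _ => 0 := by
        funext u
        exact absurd u.2 (Finset.notMem_empty _)
      have e2 : (fun k (u : (∅ : Finset ℕ)) => nr (p k) u) = fun _ _ => 0 := by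
        funext k u
        exact absurd u.2 (Finset.notMem_empty _)
      rw [e1, e2]
    have h5 : (((Fintype.piFinset C').card : ℕ) : ℝ) = ∏ j, ((C' j).card : ℝ) := by
      rw [Fintype.card_piFinset]
      push_cast
      rfl
    rw [h4, hpi, h5, ← h2]
    exact h3
  have hfib : ∀ T : (ι → ℕ) → Prop,
      (((Fintype.piFinset C).filter fun p => T p).card : ℝ) =
      ∑ β : ι → ZMod 2, (((Fintype.piFinset C).filter fun p =>
        (fun i => f (p i)) = β ∧ T p).card : ℝ) := by
    intro T
    rw [Finset.card_eq_sum_card_fiberwise (f := fun (p : ι → ℕ) (i : ι) => f (p i))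
      (t := univ) (fun p _ => Finset.mem_coe.2 (Finset.mem_univ _))]
    push_cast
    refine Finset.sum_congr rfl fun β hβ => ?_
    congr 2
    ext p
    simp only [Finset.mem_filter]
    tauto
  have hf1 := hfib fun p => Gd f (univ.image p)
  have hf2 := hfib fun _ => True
  simp only [and_true, Finset.filter_true] at hf2
  rw [hf1, hf2, Finset.mul_sum, ← Finset.sum_sub_distrib]
  refine (Finset.abs_sum_le_sum_abs _ _).trans ?_
  refine (Finset.sum_le_sum fun β _ => h1 β).trans ?_
  rw [Finset.sum_const, nsmul_eq_mul, Finset.card_univ, Fintype.card_fun, ZMod.card, pow_add,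
    mul_assoc, hR]
  push_cast
  exact le_rfl

end Pool.Agent.V11291.FK
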