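import Pool.Agent.V11291.FK.Gen
import Pool.Agent.Y333.CX.LAM
import Pool.Agent.Y261.CX.BIL1
import Pool.Agent.Y779.CX.BIL2
import Pool.Agent.Y419.CX.EQ
import Pool.Agent.Y759.CX.LA
import Pool.Agent.Y911.CX.BOX
import Pool.Agent.Y911.CX.KEY
import Pool.Agent.Y388.CX.CNT
import Pool.Agent.Y710.CX.NS

/-!
# A fixed number of primes: the cubic case, the count in a box

Adapted from `Pool.Agent.Y759.CX.LA`, `Pool.Agent.Y911.CX.BOX`, `Pool.Agent.Y911.CX.KEY`.
-/

set_option autoImplicit false
set_option linter.unusedSectionVars false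
set_option linter.unusedVariables false

open scoped Classical

namespace Pool.Agent.V11291.FK.Cb

open Finset Filter Topology Module
open Pool.Agent.Y703.CX
open Pool.Agent.Y699.E (ez)
open Pool.Agent.Y759.CX (F fr fr_equiv fr_inj pm Gb mA mB mC eR card_ne)
open Pool.Agent.Y911.CX (HB_sub root12 prs_card le_XX)

/-- the probability that a random completion is good, no small primes -/
theorem LA3 {U J : Type} [Fintype U] [IsEmpty U] [Fintype J] (U1 : Finset U) (J1 : Finset J)
    (ks : J) (hcard : Fintype.card J = J1.card + 1) (A : U → U → ZMod 3) (B : U → J → ZMod 3)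
    (C : J → U → ZMod 3) :
    ((univ.filter fun α : prs J1 → ZMod 3 => GdA U1 J1 A B C (Pool.Agent.Y703.CX.ext α)).card : ℝ) /
      3 ^ (prs J1).card = pm J1.card := by
  have e2 : finrank F ({l : J // l ≠ ks} → F) = J1.card := by
    rw [finrank_fintype_fun_eq_card, card_ne]
    omega
  have e4 : finrank F (J1 → F) = J1.card := by
    rw [finrank_fintype_fun_eq_card, Fintype.card_coe]
  have h5 : ((univ.filter fun α : prs J1 → ZMod 3 =>
      GdA U1 J1 A B C (Pool.Agent.Y703.CX.ext α)).card : ℝ) /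
      3 ^ (prs J1).card = fr (fun R : ({l : J // l ≠ ks} → F) →ₗ[F] (J1 → F) =>
        Gb (mA U1 A B) (mB ks U1 B) (mC J1 C) R) := by
    rw [← fr_equiv (eR ks J1 C)]
    unfold fr
    have h6 : Nat.card (prs J1 → F) = 3 ^ (prs J1).card := by
      rw [Nat.card_fun, Nat.card_eq_fintype_card, Nat.card_eq_fintype_card, ZMod.card,
        Fintype.card_coe]
    rw [h6, Nat.card_eq_fintype_card, Fintype.card_subtype]
    push_cast
    congr 3
    refine Finset.filter_congr fun α _ => ?_
    exact Pool.Agent.Y759.CX.gd_iff ks U1 J1 A B C α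
  rw [h5]
  have h7 : (fun R : ({l : J // l ≠ ks} → F) →ₗ[F] (J1 → F) =>
      Gb (mA U1 A B) (mB ks U1 B) (mC J1 C) R) =
      fun R : ({l : J // l ≠ ks} → F) →ₗ[F] (J1 → F) => Function.Injective R := by
    funext R
    apply propext
    unfold Gb
    rw [injective_iff_map_eq_zero]
    constructor
    · intro h v hv
      exact (h 0 v (Subsingleton.elim _ _) (by rw [map_zero, zero_add]; exact hv)).2
    · intro h x v _ h2
      have hx : x = 0 := Subsingleton.elim _ _
      refine ⟨hx, h v ?_⟩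
      rw [hx, map_zero, zero_add] at h2
      exact h2
  rw [h7]
  exact fr_inj e2 e4

/-- **The count in a box.** -/
theorem box3c {ι : Type} [Fintype ι] (J1 : Finset ι) (ks : ι)
    (hcard : Fintype.card ι = J1.card + 1) (hne : J1.Nonempty) (C : ι → Finset ℕ) (X : ι → ℕ)
    (κ : ℝ) (hκ : 0 ≤ κ) (hCX : ∀ i, (C i).card ≤ X i) (hHB : HB J1 C X κ)
    (hC : ∀ i, ∀ p ∈ C i, p.Prime ∧ (p % 3 = 1 ↔ i ∈ J1))
    (hdis : ∀ i l, i ≠ l → Disjoint (C i) (C l)) :
    |(((Fintype.piFinset C).filter fun p => Gd (univ.image p)).card : ℝ) -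
        pm J1.card * ((Fintype.piFinset C).card : ℝ)| ≤
      3 ^ (prs J1).card * (κ * ∏ j, (X j : ℝ)) := by
  have hinj : ∀ p ∈ Fintype.piFinset C, Function.Injective p := by
    intro p hp i j hij
    rw [Fintype.mem_piFinset] at hp
    by_contra hne
    have h1 := Finset.disjoint_left.1 (hdis i j hne) (hp i)
    rw [hij] at h1
    exact h1 (hp j)
  have hJ : ∀ p ∈ Fintype.piFinset C, ∀ i, p i % 3 = 1 ↔ i ∈ J1 := by
    intro p hp i
    rw [Fintype.mem_piFinset] at hp
    exact (hC i _ (hp i)).2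
  set Q : (prs J1 → ZMod 3) → Prop := fun α =>
    GdA (univ.filter fun u : (∅ : Finset ℕ) => (u : ℕ) % 3 = 1) J1
      (fun u v : (∅ : Finset ℕ) => lam u v) (fun (u : (∅ : Finset ℕ)) (l : ι) => 0)
      (fun (k : ι) (u : (∅ : Finset ℕ)) => 0) (Pool.Agent.Y703.CX.ext α) with hQ
  have h2 : ((univ.filter Q).card : ℝ) / 3 ^ (prs J1).card = pm J1.card :=
    LA3 _ J1 ks hcard _ _ _
  have h3 := Pool.Agent.Y419.CX.t_EQ ι J1 C X κ hκ hCX hHB Q
  have h4 : ((Fintype.piFinset C).filter fun p => Gd (univ.image p)) =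
      ((Fintype.piFinset C).filter fun p => Q fun e => lam (p e.1.1) (p e.1.2)) := by
    refine Finset.filter_congr fun p hp => ?_
    have e := Pool.Agent.Y911.CX.gd_iff (S₀ := ∅) (hinj p hp) (fun i => Finset.notMem_empty _) hne
      (hJ p hp)
    rw [Finset.empty_union] at e
    rw [e]
    have e1 : (fun (u : (∅ : Finset ℕ)) l => lam u (p l)) = fun _ _ => 0 := by
      funext u
      exact absurd u.2 (Finset.notMem_empty _)
    have e2 : (fun k (u : (∅ : Finset ℕ)) => lam (p k) u) = fun _ _ => 0 := by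
      funext k u
      exact absurd u.2 (Finset.notMem_empty _)
    rw [e1, e2]
  have h5 : (((Fintype.piFinset C).card : ℕ) : ℝ) = ∏ j, ((C j).card : ℝ) := by
    rw [Fintype.card_piFinset]
    push_cast
    rfl
  rw [h4, h5, ← h2]
  exact h3

theorem box3 {ι : Type} [Fintype ι] [inst : DecidableEq ι] (J1 : Finset ι) (ks : ι)
    (hcard : Fintype.card ι = J1.card + 1) (hne : J1.Nonempty) (C : ι → Finset ℕ) (X : ι → ℕ)
    (κ : ℝ) (hκ : 0 ≤ κ) (hCX : ∀ i, (C i).card ≤ X i) (hHB : HB J1 C X κ)
    (hC : ∀ i, ∀ p ∈ C i, p.Prime ∧ (p % 3 = 1 ↔ i ∈ J1))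
    (hdis : ∀ i l, i ≠ l → Disjoint (C i) (C l)) :
    |(((Fintype.piFinset C).filter fun p => Gd (univ.image p)).card : ℝ) -
        pm J1.card * ((Fintype.piFinset C).card : ℝ)| ≤
      3 ^ (prs J1).card * (κ * ∏ j, (X j : ℝ)) := by
  have e : inst = fun a b => Classical.propDecidable _ := Subsingleton.elim _ _
  subst e
  exact box3c J1 ks hcard hne C X κ hκ hCX hHB hC hdis

section tup

variable {ι : Type} [Fintype ι] [LinearOrder ι]

/-- **The sum over the boxes.** -/
theorem sum_boxes3 (J1 : Finset ι) (ks : ι) (hcard : Fintype.card ι = J1.card + 1)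
    (hne : J1.Nonempty) :
    ∃ C : ℝ, 1 ≤ C ∧ ∀ (P : ι → ℕ → Prop) (X z H N : ℕ) (κ : ℝ),
      (∀ i p, P i p → p.Prime ∧ (i ∈ J1 → p % 3 = 1) ∧ (i ∉ J1 → p % 3 = 2)) →
      1 ≤ H → 1 ≤ z → 0 ≤ κ → C ≤ κ ^ 12 * z → (H : ℝ) * Real.log X < N →
      |(((Tup P X).filter fun p => ¬ Exc X z H p ∧ Gd (univ.image p)).card : ℝ) -
          pm J1.card * (((Tup P X).filter fun p => ¬ Exc X z H p).card : ℝ)| ≤
        (N : ℝ) ^ Fintype.card ι * (3 ^ (Fintype.card ι ^ 2) * (κ * X)) := by
  obtain ⟨C₁, hC₁, h1⟩ := Pool.Agent.Y261.CX.t_BIL1 Pool.Agent.Y333.CX.t_LAM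
  obtain ⟨C₂, hC₂, h2⟩ := Pool.Agent.Y779.CX.t_BIL2 Pool.Agent.Y333.CX.t_LAM
  refine ⟨max C₁ C₂, hC₁.trans (le_max_left _ _), ?_⟩
  intro P X z H N κ hP hH hz hκ hκz hN
  have hκ1 : C₁ ≤ κ ^ 12 * z := (le_max_left _ _).trans hκz
  have hκ2 : C₂ ≤ κ ^ 12 * z := (le_max_right _ _).trans hκz
  have hPp : ∀ i p, P i p → p.Prime := fun i p h => (hP i p h).1
  have hz0 : (0 : ℝ) < z := by exact_mod_cast hz
  -- the value in a box
  set B : Finset (ι → ℕ) := Fintype.piFinset fun _ : ι => range N with hBd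
  have hmem : ∀ p ∈ Tup P X, (fun i => jj H (p i)) ∈ B := by
    intro p hp
    rw [mem_Tup hPp] at hp
    rw [hBd, Fintype.mem_piFinset]
    intro i
    rw [mem_range]
    have hp0 := (hPp i _ (hp.1 i)).pos
    have hqX : p i ≤ X := by
      refine le_trans ?_ hp.2.2
      exact Nat.le_of_dvd (Finset.prod_pos fun j _ => (hPp j _ (hp.1 j)).pos)
        (Finset.dvd_prod_of_mem _ (mem_univ i))
    have h3 : ((jj H (p i) : ℕ) : ℝ) < N := by
      refine lt_of_le_of_lt (Nat.floor_le (mul_nonneg (Nat.cast_nonneg _)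
        (Real.log_nonneg (by exact_mod_cast hp0)))) ?_
      refine lt_of_le_of_lt ?_ hN
      refine mul_le_mul_of_nonneg_left ?_ (Nat.cast_nonneg _)
      exact Real.log_le_log (by exact_mod_cast hp0) (by exact_mod_cast hqX)
    exact_mod_cast h3
  have hfib : ∀ T : (ι → ℕ) → Prop,
      (((Tup P X).filter fun p => ¬ Exc X z H p ∧ T p).card : ℝ) =
      ∑ b ∈ B, ((((Tup P X).filter fun p => ¬ Exc X z H p ∧
        (fun i => jj H (p i)) = b).filter T).card : ℝ) := by
    intro T
    rw [Finset.card_eq_sum_card_fiberwise (f := fun (p : ι → ℕ) (i : ι) => jj H (p i))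
      (t := B) (fun p hp => by
        rw [mem_coe, mem_filter] at hp
        exact mem_coe.2 (hmem p hp.1))]
    push_cast
    refine Finset.sum_congr rfl fun b _ => ?_
    congr 2
    ext p
    simp only [mem_filter]
    tauto
  have hf1 := hfib fun p => Gd (univ.image p)
  have hf2 := hfib fun _ => True
  simp only [and_true, Finset.filter_true] at hf2
  rw [hf1, hf2, Finset.mul_sum, ← Finset.sum_sub_distrib]
  refine (Finset.abs_sum_le_sum_abs _ _).trans ?_
  have hbox : ∀ b ∈ B, |((((Tup P X).filter fun p => ¬ Exc X z H p ∧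
        (fun i => jj H (p i)) = b).filter fun p => Gd (univ.image p)).card : ℝ) -
      pm J1.card * (((Tup P X).filter fun p => ¬ Exc X z H p ∧
        (fun i => jj H (p i)) = b).card : ℝ)| ≤
      3 ^ (Fintype.card ι ^ 2) * (κ * X) := by
    intro b _
    by_cases hb : Function.Injective b ∧ ∏ i, XX H (b i) ≤ X
    · rw [fib_eq hPp hH hb.1 hb.2]
      have hmb : ∀ i, ∀ p ∈ bx P z H b i, P i p ∧ jj H p = b i ∧ z < p ∧ p ≤ XX H (b i) := by
        intro i p hp
        unfold bx at hp
        rw [mem_filter, mem_Icc] at hp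
        exact ⟨hp.2.1, hp.2.2.1, hp.2.2.2, hp.1.2⟩
      have hdis : ∀ i l, i ≠ l → Disjoint (bx P z H b i) (bx P z H b l) := by
        intro i l hil
        rw [Finset.disjoint_left]
        intro p hp hp'
        exact hil (hb.1 ((hmb i p hp).2.1.symm.trans (hmb l p hp').2.1))
      have m1 : ∀ e : ι, e ∈ J1 → ∀ p ∈ bx P z H b e, p.Prime ∧ p % 3 = 1 ∧ p ≤ XX H (b e) := by
        intro e he p hp
        have h3 := hmb e p hp
        have h4 := hP e p h3.1
        exact ⟨h4.1, h4.2.1 he, h3.2.2.2⟩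
      have m2 : ∀ e : ι, e ∉ J1 → ∀ p ∈ bx P z H b e, p.Prime ∧ p % 3 = 2 ∧ p ≤ XX H (b e) := by
        intro e he p hp
        have h3 := hmb e p hp
        have h4 := hP e p h3.1
        exact ⟨h4.1, h4.2.2 he, h3.2.2.2⟩
      have hHB : HB J1 (bx P z H b) (fun i => XX H (b i)) κ := by
        intro i l hil a c' c d hab ha hb' hc hd
        show ‖∑ x ∈ bx P z H b i, ∑ y ∈ bx P z H b l, c x * d y * ez (a * lam x y + c' * lam y x)‖ ≤
          κ * ((XX H (b i) : ℝ) * (XX H (b l) : ℝ))
        have hk0 : (0 : ℝ) ≤ κ * ((XX H (b i) : ℝ) * (XX H (b l) : ℝ)) := by positivity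
        rcases (bx P z H b i).eq_empty_or_nonempty with he | ⟨p₀, hp₀⟩
        · rw [he, Finset.sum_empty, norm_zero]
          exact hk0
        rcases (bx P z H b l).eq_empty_or_nonempty with he | ⟨q₀, hq₀⟩
        · rw [he]
          simp only [Finset.sum_empty, Finset.sum_const_zero, norm_zero]
          exact hk0
        have hzi : z ≤ XX H (b i) := by
          have := hmb i p₀ hp₀
          omega
        have hzl : z ≤ XX H (b l) := by
          have := hmb l q₀ hq₀
          omega
        by_cases hi : i ∈ J1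
        · by_cases hl : l ∈ J1
          · have h3 := h1 (bx P z H b i) (bx P z H b l) (XX H (b i)) (XX H (b l)) z c d a c'
              (m1 i hi) (m1 l hl) (hdis i l hil) hab hz hzi hzl hc hd
            exact root12 (norm_nonneg _) hκ (Nat.cast_nonneg _) (Nat.cast_nonneg _) hz0 h3 hκ1
          · have hb0 := hb' hl
            have ha0 : a ≠ 0 := by
              rcases hab with h | h
              · exact h
              · exact absurd hb0 h
            have h3 := h2 (bx P z H b i) (bx P z H b l) (XX H (b i)) (XX H (b l)) z c d a (m1 i hi)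
              (m2 l hl) ha0 hz hzi hzl hc hd
            have h4 := root12 (norm_nonneg _) hκ (Nat.cast_nonneg _) (Nat.cast_nonneg _) hz0 h3 hκ2
            rw [hb0]
            simp only [zero_mul, add_zero]
            exact h4
        · have ha0 := ha hi
          have hb0 : c' ≠ 0 := by
            rcases hab with h | h
            · exact absurd ha0 h
            · exact h
          have hl : l ∈ J1 := by
            by_contra hl
            exact hb0 (hb' hl)
          have h3 := h2 (bx P z H b l) (bx P z H b i) (XX H (b l)) (XX H (b i)) z d c c' (m1 l hl)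
            (m2 i hi) hb0 hz hzl hzi hd hc
          have h4 := root12 (norm_nonneg _) hκ (Nat.cast_nonneg _) (Nat.cast_nonneg _) hz0 h3 hκ2
          rw [ha0]
          simp only [zero_mul, zero_add]
          rw [Finset.sum_comm, mul_comm (XX H (b i) : ℝ)]
          have h5 : ∑ y ∈ bx P z H b l, ∑ x ∈ bx P z H b i, c x * d y * ez (c' * lam y x) =
              ∑ y ∈ bx P z H b l, ∑ x ∈ bx P z H b i, d y * c x * ez (c' * lam y x) := by
            refine Finset.sum_congr rfl fun y _ => Finset.sum_congr rfl fun x _ => ?_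
            rw [mul_comm (c x)]
          rw [h5]
          exact h4
      have h6 := box3 J1 ks hcard hne (bx P z H b) (fun i => XX H (b i)) κ hκ
        (fun i => by
          refine (Finset.card_filter_le _ _).trans ?_
          rw [Nat.card_Icc]
          omega) hHB
        (fun i p hp => by
          have h3 := hmb i p hp
          have h4 := hP i p h3.1
          refine ⟨h4.1, fun h => ?_, h4.2.1⟩
          by_contra h5
          have := h4.2.2 h5
          omega) hdis
      refine h6.trans ?_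
      have h2 : ∏ j, ((XX H (b j) : ℕ) : ℝ) ≤ X := by exact_mod_cast hb.2
      have h3 : (prs J1).card ≤ Fintype.card ι ^ 2 := by
        rw [pow_two]
        exact prs_card J1
      have h4 : κ * ∏ j, ((XX H (b j) : ℕ) : ℝ) ≤ κ * X := mul_le_mul_of_nonneg_left h2 hκ
      have h5 : (0 : ℝ) ≤ κ * ∏ j, ((XX H (b j) : ℕ) : ℝ) :=
        mul_nonneg hκ (Finset.prod_nonneg fun j _ => by positivity)
      refine mul_le_mul ?_ h4 h5 (by positivity)
      exact pow_le_pow_right₀ (by norm_num) (by omega)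
    · rw [fib_empty hb]
      simp only [Finset.filter_empty, Finset.card_empty, Nat.cast_zero, mul_zero, sub_zero, abs_zero]
      positivity
  refine (Finset.sum_le_sum hbox).trans ?_
  rw [Finset.sum_const, nsmul_eq_mul, hBd, Fintype.card_piFinset]
  simp only [Finset.card_range, Finset.prod_const, Finset.card_univ]
  push_cast
  exact le_rfl

end tup

end Pool.Agent.V11291.FK.Cb
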