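import Pool.Agent.V11291.FK.Cub

/-!
# A fixed number of primes: the cubic case, the law for the sets
-/

set_option autoImplicit false
set_option linter.unusedSectionVars false
set_option linter.unusedVariables false

open scoped Classical

namespace Pool.Agent.V11291.FK.Cb

open Finset Filter Topology
open Pool.Agent.Y703.CX (sm la jj XX Gd SS Cl prs LamP CntP)
open Pool.Agent.Y759.CX (pm pm_nonneg pm_le_one)

section law

variable {ι : Type} [Fintype ι] [LinearOrder ι]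

/-- the primes different from `3` with the property `A` -/
def Bd (A : ℕ → Prop) (p : ℕ) : Prop := A p ∧ p.Prime ∧ p ≠ 3

theorem bd_prime {A : ℕ → Prop} : ∀ p, Bd A p → p.Prime := fun _ h => h.2.1

/-- the condition modulo `9` -/
def Wn (S : Finset ℕ) : Prop := (∏ p ∈ S, p) % 9 ≠ 1 ∧ (∏ p ∈ S, p) % 9 ≠ 8

/-- the condition modulo `9` for the residues -/
def Wr (ρ : ι → ℕ) : Prop := (∏ i, ρ i) % 9 ≠ 1 ∧ (∏ i, ρ i) % 9 ≠ 8

/-- the residue of the prime with the index `i` is prescribed -/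
def PR (A : ℕ → Prop) (τ ρ : ι → ℕ) (i : ι) (p : ℕ) : Prop :=
  PG (Bd A) (fun p => p % 3) τ i p ∧ p % 9 = ρ i

theorem wn_iff {p ρ : ι → ℕ} (hp : Function.Injective p) (h : (fun i => p i % 9) = ρ) :
    Wn (univ.image p) ↔ Wr ρ := by
  unfold Wn Wr
  have e : (∏ q ∈ univ.image p, q) % 9 = (∏ i, ρ i) % 9 := by
    rw [Finset.prod_image fun a _ b _ h => hp h, Finset.prod_nat_mod]
    congr 1
    exact Finset.prod_congr rfl fun i _ => congrFun h i
  rw [e]

/-- the part with given residues -/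
theorem part_eq {A : ℕ → Prop} {τ ρ : ι → ℕ} {X : ℕ} (hρ : Wr ρ) (T : (ι → ℕ) → Prop)
    [DecidablePred T] :
    ((TW (Bd A) (fun p => p % 3) τ Wn X).filter fun p => (fun i => p i % 9) = ρ ∧ T p) =
      (Tup (PR A τ ρ) X).filter T := by
  ext p
  rw [mem_filter, mem_filter, mem_TW bd_prime, mem_Tup fun i q h => bd_prime _ h.1.1]
  constructor
  · rintro ⟨⟨⟨h1, h2, h3⟩, h4⟩, h5, h6⟩
    exact ⟨⟨fun i => ⟨h1 i, congrFun h5 i⟩, h2, h3⟩, h6⟩
  · rintro ⟨⟨h1, h2, h3⟩, h6⟩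
    have h5 : (fun i => p i % 9) = ρ := funext fun i => (h1 i).2
    exact ⟨⟨⟨fun i => (h1 i).1, h2, h3⟩, (wn_iff h2 h5).2 hρ⟩, h5, h6⟩

theorem part_empty {A : ℕ → Prop} {τ ρ : ι → ℕ} {X : ℕ} (hρ : ¬ Wr ρ) (T : (ι → ℕ) → Prop)
    [DecidablePred T] :
    ((TW (Bd A) (fun p => p % 3) τ Wn X).filter fun p => (fun i => p i % 9) = ρ ∧ T p) = ∅ := by
  refine Finset.filter_eq_empty_iff.2 fun p hp h => ?_
  rw [mem_TW bd_prime] at hp
  exact hρ ((wn_iff hp.1.2.1 h.1).1 hp.2)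

/-- the hypothesis on the boxes holds -/
theorem boxH (A : ℕ → Prop) {τ : ι → ℕ} (hτ : ∀ i, τ i = 1 ∨ τ i = 2)
    (h2 : (univ.filter fun i => τ i = 2).card = 1) (h1 : ∃ i, τ i = 1) :
    BoxH (TW (Bd A) (fun p => p % 3) τ Wn) (fun p => Gd (univ.image p))
      (pm (univ.filter fun i => τ i = 1).card) := by
  set J1 : Finset ι := univ.filter fun i => τ i = 1 with hJ1
  have hcard : Fintype.card ι = J1.card + 1 := by
    rw [← h2, ← Finset.card_univ, ← Finset.card_filter_add_card_filter_not (s := univ)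
      (fun i => τ i = 1)]
    congr 2
    refine Finset.filter_congr fun i _ => ?_
    have := hτ i
    omega
  obtain ⟨ks, -⟩ := Finset.card_eq_one.1 h2
  have hne : J1.Nonempty := by
    obtain ⟨i, hi⟩ := h1
    exact ⟨i, Finset.mem_filter.2 ⟨mem_univ _, hi⟩⟩
  obtain ⟨C, hC, hbox⟩ := sum_boxes3 J1 ks hcard hne
  refine ⟨9 ^ Fintype.card ι * 3 ^ (Fintype.card ι ^ 2), C, by positivity, hC, ?_⟩
  intro X z H N κ hH hz hκ hκz hN
  set R : Finset (ι → ℕ) := Fintype.piFinset fun _ : ι => range 9 with hR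
  have hfib : ∀ T : (ι → ℕ) → Prop,
      (((TW (Bd A) (fun p => p % 3) τ Wn X).filter fun p => ¬ Exc X z H p ∧ T p).card : ℝ) =
      ∑ ρ ∈ R, (((TW (Bd A) (fun p => p % 3) τ Wn X).filter fun p =>
        (fun i => p i % 9) = ρ ∧ (¬ Exc X z H p ∧ T p)).card : ℝ) := by
    intro T
    rw [Finset.card_eq_sum_card_fiberwise (f := fun (p : ι → ℕ) (i : ι) => p i % 9)
      (t := R) (fun p hp => by
        rw [hR, mem_coe, Fintype.mem_piFinset]
        intro i
        rw [mem_range]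
        exact Nat.mod_lt _ (by norm_num))]
    push_cast
    refine Finset.sum_congr rfl fun b _ => ?_
    congr 2
    ext p
    simp only [mem_filter]
    tauto
  have hf1 := hfib fun p => Gd (univ.image p)
  have hf2 := hfib fun _ => True
  simp only [and_true] at hf2
  rw [hf1, hf2, Finset.mul_sum, ← Finset.sum_sub_distrib]
  refine (Finset.abs_sum_le_sum_abs _ _).trans ?_
  have hE0 : (0 : ℝ) ≤ (N : ℝ) ^ Fintype.card ι * (3 ^ (Fintype.card ι ^ 2) * (κ * X)) := by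
    positivity
  have hpart : ∀ ρ ∈ R, |(((TW (Bd A) (fun p => p % 3) τ Wn X).filter fun p =>
        (fun i => p i % 9) = ρ ∧ (¬ Exc X z H p ∧ Gd (univ.image p))).card : ℝ) -
      pm J1.card * (((TW (Bd A) (fun p => p % 3) τ Wn X).filter fun p =>
        (fun i => p i % 9) = ρ ∧ ¬ Exc X z H p).card : ℝ)| ≤
      (N : ℝ) ^ Fintype.card ι * (3 ^ (Fintype.card ι ^ 2) * (κ * X)) := by
    intro ρ _
    by_cases hρ : Wr ρ
    · rw [part_eq hρ fun p => ¬ Exc X z H p ∧ Gd (univ.image p), part_eq hρ fun p => ¬ Exc X z H p]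
      refine hbox (PR A τ ρ) X z H N κ (fun i p h => ?_) hH hz hκ hκz hN
      refine ⟨bd_prime _ h.1.1, fun hi => ?_, fun hi => ?_⟩
      · have h3 : p % 3 = τ i := h.1.2
        have h4 : τ i = 1 := (Finset.mem_filter.1 hi).2
        omega
      · have h3 : p % 3 = τ i := h.1.2
        have h4 : ¬ τ i = 1 := fun h4 => hi (Finset.mem_filter.2 ⟨mem_univ _, h4⟩)
        have h5 := hτ i
        omega
    · rw [part_empty hρ fun p => ¬ Exc X z H p ∧ Gd (univ.image p),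
        part_empty hρ fun p => ¬ Exc X z H p]
      simp only [Finset.card_empty, Nat.cast_zero, mul_zero, sub_zero, abs_zero]
      exact hE0
  refine (Finset.sum_le_sum hpart).trans ?_
  rw [Finset.sum_const, nsmul_eq_mul, hR, Fintype.card_piFinset]
  simp only [Finset.card_range, Finset.prod_const, Finset.card_univ]
  push_cast
  refine le_of_eq ?_
  ring

theorem cl_of {A : ℕ → Prop} {τ : ι → ℕ} (h2 : (univ.filter fun i => τ i = 2).card = 1)
    {p : ι → ℕ} (h : ∀ i, PG (Bd A) (fun p => p % 3) τ i (p i)) (hinj : Function.Injective p)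
    (hW : Wn (univ.image p)) : Cl (univ.image p) := by
  refine ⟨fun q hq => ?_, ?_, hW.1, hW.2⟩
  · rw [mem_image] at hq
    obtain ⟨i, -, rfl⟩ := hq
    exact (h i).1.2
  · rw [qg_of h hinj 2]
    exact h2

/-- the hypothesis on the exceptional tuples holds -/
theorem excH (A : ℕ → Prop) {τ : ι → ℕ} (h2 : (univ.filter fun i => τ i = 2).card = 1) {j : ℕ}
    (hj : Fintype.card ι = j + 1) : ExcH (TW (Bd A) (fun p => p % 3) τ Wn) j := by
  refine exc_abs hj SS (fun X p hp => ?_)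
    (fun X z H hX hH => Pool.Agent.Y388.CX.t_CNT.cut X z H _ hX hH)
    (fun X z H hX hH => Pool.Agent.Y388.CX.t_CNT.coll X z H hX hH)
  rw [mem_TW bd_prime] at hp
  obtain ⟨⟨h3, h4, h5⟩, h6⟩ := hp
  refine ⟨fun i => bd_prime _ (h3 i).1, h4, h5, ?_⟩
  have hprod : ∏ q ∈ univ.image p, q = ∏ i, p i :=
    Finset.prod_image fun a _ b _ h => h4 h
  unfold SS
  rw [mem_filter, mem_powerset]
  refine ⟨fun q hq => ?_, cl_of h2 h3 h4 h6, by rw [hprod]; exact h5⟩
  rw [mem_range]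
  have h7 : q ≤ ∏ r ∈ univ.image p, r := Nat.le_of_dvd
    (Finset.prod_pos fun r hr => by
      rw [mem_image] at hr
      obtain ⟨i, -, rfl⟩ := hr
      exact (bd_prime _ (h3 i).1).pos) (Finset.dvd_prod_of_mem _ hq)
  rw [hprod] at h7
  omega

/-- the hypothesis on the size holds -/
theorem lowH {A : ℕ → Prop} {τ ρ : ι → ℕ} (i₀ : ι) (hρ : Wr ρ) (hD : ∀ i, Dn (PR A τ ρ i)) :
    LowH (TW (Bd A) (fun p => p % 3) τ Wn) := by
  obtain ⟨c, X₀, hc, h⟩ := low (P := PR A τ ρ) (fun i p h => bd_prime _ h.1.1) hD i₀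
  refine ⟨c, X₀, hc, fun X hX => (h X hX).trans ?_⟩
  have h1 := part_eq (A := A) (τ := τ) (X := X) hρ fun _ => True
  rw [Finset.filter_true] at h1
  rw [← h1]
  exact_mod_cast Finset.card_filter_le _ _

/-- **The law for the sets.** -/
theorem set_law3 {A : ℕ → Prop} {τ ρ : ι → ℕ} (hτ : ∀ i, τ i = 1 ∨ τ i = 2)
    (h2 : (univ.filter fun i => τ i = 2).card = 1) (h1 : ∃ i, τ i = 1) (hρ : Wr ρ)
    (hD : ∀ i, Dn (PR A τ ρ i)) :
    Tendsto (fun X : ℕ => (((FW (Bd A) (fun p => p % 3) τ Wn X).filter Gd).card : ℝ) /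
      ((FW (Bd A) (fun p => p % 3) τ Wn X).card : ℝ)) atTop
      (𝓝 (pm (univ.filter fun i => τ i = 1).card)) := by
  obtain ⟨i₁, hi₁⟩ := h1
  obtain ⟨i₂, hi₂⟩ : ∃ i, τ i = 2 := by
    obtain ⟨i, hi⟩ := Finset.card_eq_one.1 h2
    refine ⟨i, ?_⟩
    have : i ∈ univ.filter fun i => τ i = 2 := by
      rw [hi]
      exact Finset.mem_singleton_self i
    exact (Finset.mem_filter.1 this).2
  have hne : i₁ ≠ i₂ := by
    rintro rfl
    omega
  have hc : 2 ≤ Fintype.card ι := Fintype.one_lt_card_iff.2 ⟨i₁, i₂, hne⟩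
  obtain ⟨j, hj⟩ : ∃ j, Fintype.card ι = j + 2 := ⟨Fintype.card ι - 2, by omega⟩
  exact set_lawG bd_prime Wn hj (pm_nonneg _) (pm_le_one _) (boxH A hτ h2 ⟨i₁, hi₁⟩)
    (excH A h2 (by omega)) (lowH i₁ hρ hD)

end law

end Pool.Agent.V11291.FK.Cb
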