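import Pool.Agent.V11291.FK.Up

/-!
# A fixed number of primes: the exceptional tuples
-/

set_option autoImplicit false

open scoped Classical

namespace Pool.Agent.V11291.FK

open Finset
open Pool.Agent.Y703.CX (sm la jj XX)
open Pool.Agent.Y703.CQ

variable {ι : Type} [Fintype ι] [LinearOrder ι]

theorem fiber_le (T : Finset (ι → ℕ)) (hT : ∀ p ∈ T, Function.Injective p) (S : Finset ℕ) :
    (T.filter fun p => univ.image p = S).card ≤ Fintype.card ι ^ Fintype.card ι := by
  rcases (T.filter fun p => univ.image p = S).eq_empty_or_nonempty with h | ⟨p₀, h₀⟩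
  · rw [h, Finset.card_empty]
    exact Nat.zero_le _
  · rw [mem_filter] at h₀
    have hc : S.card = Fintype.card ι := by
      rw [← h₀.2, Finset.card_image_of_injective _ (hT _ h₀.1), Finset.card_univ]
    have hsub : (T.filter fun p => univ.image p = S) ⊆ Fintype.piFinset fun _ : ι => S := by
      intro p hp
      rw [mem_filter] at hp
      rw [Fintype.mem_piFinset]
      intro i
      rw [← hp.2]
      exact Finset.mem_image_of_mem _ (mem_univ i)
    refine (Finset.card_le_card hsub).trans ?_
    rw [Fintype.card_piFinset]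
    simp only [Finset.prod_const, Finset.card_univ, hc]
    exact le_rfl

theorem card_le_image (T : Finset (ι → ℕ)) (hT : ∀ p ∈ T, Function.Injective p)
    (B : Finset (Finset ℕ)) (h : ∀ p ∈ T, univ.image p ∈ B) :
    T.card ≤ Fintype.card ι ^ Fintype.card ι * B.card :=
  Finset.card_le_mul_card_image_of_maps_to h _ fun S _ => fiber_le T hT S

/-- the number of the exceptional tuples -/
theorem exc_le {I K : Finset ℕ} (hok : Ok I K) {j : ℕ} (hj : Fintype.card ι = j + 1)
    {P : ι → ℕ → Prop} (hP : ∀ i p, P i p → p.Prime)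
    (hcl : ∀ p : ι → ℕ, (∀ i, P i (p i)) → Function.Injective p → Cl I K (univ.image p))
    {X z H : ℕ} (hX : 1 ≤ X) (hH : 1 ≤ H) :
    (((Tup P X).filter fun p => Exc X z H p).card : ℝ) ≤
      (Fintype.card ι : ℝ) ^ Fintype.card ι *
        (∑ p ∈ (range (z + 1)).filter Nat.Prime, ((AA j (X / p)).card : ℝ) +
          (X * Fintype.card ι / H + 1) + 4 * X * (1 + Real.log X) / H) := by
  obtain ⟨-, hcut, hcoll⟩ := Pool.Agent.Y391.CQ.t_CNT
  set B1 := (AA (j + 1) X).filter fun S => ∃ p ∈ S, p ≤ z with hB1
  set B2 := (SS I K X).filter fun S => S.card ≤ Fintype.card ι ∧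
      X < (∏ p ∈ sm z S, p) * ∏ p ∈ la z S, XX H (jj H p) with hB2
  set B3 := (SS I K X).filter fun S => ¬ Set.InjOn (jj H) (la z S : Set ℕ) with hB3
  have h1 : ((Tup P X).filter fun p => Exc X z H p).card ≤
      Fintype.card ι ^ Fintype.card ι * ((B1 ∪ B2) ∪ B3).card := by
    refine card_le_image _ (fun p hp => ?_) _ (fun p hp => ?_)
    · rw [mem_filter, mem_Tup hP] at hp
      exact hp.1.2.1
    · rw [mem_filter, mem_Tup hP] at hp
      obtain ⟨⟨h1, h2, h3⟩, h4⟩ := hp
      have hcard : (univ.image p).card = Fintype.card ι := by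
        rw [Finset.card_image_of_injective _ h2, Finset.card_univ]
      have hprod : ∏ q ∈ univ.image p, q = ∏ i, p i :=
        Finset.prod_image fun a _ b _ h => h2 h
      have hpr : ∀ q ∈ univ.image p, q.Prime := by
        intro q hq
        rw [mem_image] at hq
        obtain ⟨i, -, rfl⟩ := hq
        exact hP i _ (h1 i)
      have hSS : univ.image p ∈ SS I K X := by
        unfold SS
        rw [mem_filter, mem_powerset]
        have hc := hcl p h1 h2
        refine ⟨fun q hq => ?_, hc, by rw [hprod]; exact h3⟩
        rw [mem_range]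
        have h5 : q ≤ ∏ r ∈ univ.image p, r := Nat.le_of_dvd
          (Finset.prod_pos fun r hr => (hpr r hr).pos) (Finset.dvd_prod_of_mem _ hq)
        rw [hprod] at h5
        omega
      by_cases h5 : ∃ i, p i ≤ z
      · refine mem_union_left _ (mem_union_left _ ?_)
        rw [hB1, mem_filter, mem_AA]
        obtain ⟨i, hi⟩ := h5
        exact ⟨⟨hpr, by rw [hcard, hj], by rw [hprod]; exact h3⟩, p i,
          Finset.mem_image_of_mem _ (mem_univ i), hi⟩
      · push Not at h5
        have hla : la z (univ.image p) = univ.image p := by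
          unfold la
          refine Finset.filter_true_of_mem fun q hq => ?_
          rw [mem_image] at hq
          obtain ⟨i, -, rfl⟩ := hq
          have := h5 i
          omega
        have hsm : sm z (univ.image p) = ∅ := by
          unfold sm
          refine Finset.filter_eq_empty_iff.2 fun q hq => ?_
          rw [mem_image] at hq
          obtain ⟨i, -, rfl⟩ := hq
          have := h5 i
          omega
        rcases h4 with h4 | h4 | h4
        · obtain ⟨i, hi⟩ := h4
          have := h5 i
          omega
        · refine mem_union_right _ ?_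
          rw [hB3, mem_filter]
          refine ⟨hSS, fun h6 => h4 fun a b hab => ?_⟩
          rw [hla] at h6
          exact h2 (h6 (Finset.mem_coe.2 (Finset.mem_image_of_mem _ (mem_univ a)))
            (Finset.mem_coe.2 (Finset.mem_image_of_mem _ (mem_univ b))) hab)
        · refine mem_union_left _ (mem_union_right _ ?_)
          rw [hB2, mem_filter]
          refine ⟨hSS, hcard.le, ?_⟩
          rw [hsm, hla, Finset.prod_empty, one_mul,
            Finset.prod_image fun a _ b _ h => h2 h]
          exact h4
  have h2 : (((B1 ∪ B2) ∪ B3).card : ℝ) ≤ (B1.card : ℝ) + B2.card + B3.card := by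
    have h3 := Finset.card_union_le (B1 ∪ B2) B3
    have h4 := Finset.card_union_le B1 B2
    have : ((B1 ∪ B2) ∪ B3).card ≤ B1.card + B2.card + B3.card := by omega
    exact_mod_cast this
  have h3 : (B1.card : ℝ) ≤ ∑ p ∈ (range (z + 1)).filter Nat.Prime, ((AA j (X / p)).card : ℝ) := by
    have h4 : B1.card ≤ ∑ p ∈ (range (z + 1)).filter Nat.Prime, (AA j (X / p)).card := by
      have h5 := card_AA_le j X ((range (z + 1)).filter Nat.Prime) (fun S => ∃ p ∈ S, p ≤ z) (by
        rintro S hS ⟨p, hp, hpz⟩
        rw [mem_AA] at hS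
        refine ⟨p, hp, ?_⟩
        rw [mem_filter, mem_range]
        exact ⟨by omega, hS.1 p hp⟩)
      refine le_trans (le_of_eq ?_) h5
      rw [hB1]
      congr 1
      ext S
      simp only [mem_filter]
    exact_mod_cast h4
  have h4 : (B2.card : ℝ) ≤ X * Fintype.card ι / H + 1 := hcut I K X z H (Fintype.card ι) hok hX hH
  have h5 : (B3.card : ℝ) ≤ 4 * X * (1 + Real.log X) / H := hcoll I K X z H hok hX hH
  have h6 : (((Tup P X).filter fun p => Exc X z H p).card : ℝ) ≤
      (Fintype.card ι : ℝ) ^ Fintype.card ι * (((B1 ∪ B2) ∪ B3).card : ℝ) := by exact_mod_cast h1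
  refine h6.trans (mul_le_mul_of_nonneg_left ?_ (by positivity))
  linarith

end Pool.Agent.V11291.FK
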