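import Pool.Agent.V11291.FK.Abs

/-!
# A fixed number of primes: from the tuples to the sets, general kinds of primes
-/

set_option autoImplicit false
set_option linter.unusedSectionVars false
set_option linter.unusedVariables false

open scoped Classical

namespace Pool.Agent.V11291.FK

open Finset Filter Topology

variable {ι : Type} [Fintype ι] [LinearOrder ι]

/-- the property of the prime with the index `i`: it has the property `B` and its kind is `τ i` -/
def PG (B : ℕ → Prop) (cl : ℕ → ℕ) (τ : ι → ℕ) (i : ι) (p : ℕ) : Prop := B p ∧ cl p = τ i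

/-- the numbers of the primes of the kinds are prescribed -/
def QG (cl : ℕ → ℕ) (τ : ι → ℕ) (S : Finset ℕ) : Prop :=
  ∀ r, (S.filter fun p => cl p = r).card = (univ.filter fun i => τ i = r).card

theorem qg_of {B : ℕ → Prop} {cl : ℕ → ℕ} {τ : ι → ℕ} {p : ι → ℕ}
    (hp : ∀ i, PG B cl τ i (p i)) (hinj : Function.Injective p) : QG cl τ (univ.image p) := by
  intro r
  rw [Finset.filter_image, Finset.card_image_of_injective _ hinj]
  congr 1
  refine Finset.filter_congr fun i _ => ?_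
  rw [(hp i).2]

/-- each set with the prescribed numbers has a numbering -/
theorem exists_tupleG {B : ℕ → Prop} {cl : ℕ → ℕ} {τ : ι → ℕ}
    {S : Finset ℕ} (hS : ∀ p ∈ S, B p) (hQ : QG cl τ S) :
    ∃ p : ι → ℕ, (∀ i, PG B cl τ i (p i)) ∧ Function.Injective p ∧ univ.image p = S := by
  have he : ∀ r : ℕ, Nonempty ({i : ι // τ i = r} ≃ {p : S // cl (p : ℕ) = r}) := by
    intro r
    apply Fintype.card_eq.1
    have h1 := hQ r
    rw [Fintype.card_subtype, ← h1, Fintype.card_subtype]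
    have h2 : (S.filter fun p => cl p = r).card =
        ((univ.filter fun p : S => cl (p : ℕ) = r).image (fun p : S => (p : ℕ))).card := by
      congr 1
      ext q
      simp only [mem_filter, mem_image, mem_univ, true_and, Subtype.exists, exists_and_right,
        exists_eq_right]
      constructor
      · rintro ⟨h, h'⟩
        exact ⟨h, h'⟩
      · rintro ⟨h, h'⟩
        exact ⟨h, h'⟩
    rw [h2, Finset.card_image_of_injective _ Subtype.coe_injective]
  have e := fun r => Classical.choice (he r)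
  set p : ι → ℕ := fun i => ((e (τ i) ⟨i, rfl⟩ : S) : ℕ) with hp
  have hp1 : ∀ i, p i ∈ S ∧ cl (p i) = τ i := fun i =>
    ⟨(e (τ i) ⟨i, rfl⟩ : S).2, (e (τ i) ⟨i, rfl⟩).2⟩
  have hmv : ∀ (r s : ℕ) (i : ι) (h : r = s) (a : τ i = r) (b : τ i = s),
      ((e s ⟨i, b⟩ : S) : ℕ) = ((e r ⟨i, a⟩ : S) : ℕ) := by
    rintro r s i rfl a b
    rfl
  have hinj : Function.Injective p := by
    intro i j hij
    have h1 : τ i = τ j := by
      rw [← (hp1 i).2, ← (hp1 j).2, hij]
    have h2 : ((e (τ j) ⟨i, h1⟩ : S) : ℕ) = p i := hmv _ _ i h1 rfl h1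
    have h3 : (⟨i, h1⟩ : {i : ι // τ i = τ j}) = ⟨j, rfl⟩ :=
      (e (τ j)).injective (Subtype.ext (Subtype.ext (h2.trans hij)))
    exact congrArg Subtype.val h3
  refine ⟨p, fun i => ⟨hS _ (hp1 i).1, (hp1 i).2⟩, hinj, ?_⟩
  ext q
  rw [mem_image]
  constructor
  · rintro ⟨i, -, rfl⟩
    exact (hp1 i).1
  · intro hq
    obtain ⟨i, hi⟩ := (e (cl q)).surjective ⟨⟨q, hq⟩, rfl⟩
    refine ⟨i, mem_univ _, ?_⟩
    have h3 : ((e (cl q) ⟨i, i.2⟩ : S) : ℕ) = p i := hmv _ _ i.1 i.2 rfl i.2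
    rw [← h3]
    have h4 : (⟨(i : ι), i.2⟩ : {i : ι // τ i = cl q}) = i := rfl
    rw [h4, hi]

/-- the tuples with a symmetric condition -/
noncomputable def TW (B : ℕ → Prop) (cl : ℕ → ℕ) (τ : ι → ℕ) (W : Finset ℕ → Prop) (X : ℕ) :
    Finset (ι → ℕ) := (Tup (PG B cl τ) X).filter fun p => W (univ.image p)

theorem mem_TW {B : ℕ → Prop} {cl : ℕ → ℕ} {τ : ι → ℕ} (hB : ∀ p, B p → p.Prime)
    {W : Finset ℕ → Prop} {X : ℕ} {p : ι → ℕ} : p ∈ TW B cl τ W X ↔
    ((∀ i, PG B cl τ i (p i)) ∧ Function.Injective p ∧ ∏ i, p i ≤ X) ∧ W (univ.image p) := by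
  unfold TW
  rw [mem_filter, mem_Tup fun i p h => hB p h.1]

/-- the sets with a symmetric condition -/
noncomputable def FW (B : ℕ → Prop) (cl : ℕ → ℕ) (τ : ι → ℕ) (W : Finset ℕ → Prop) (X : ℕ) :
    Finset (Finset ℕ) := (range (X + 1)).powerset.filter fun S =>
    (∀ p ∈ S, B p) ∧ QG cl τ S ∧ ∏ p ∈ S, p ≤ X ∧ W S

theorem mem_FW {B : ℕ → Prop} {cl : ℕ → ℕ} {τ : ι → ℕ} (hB : ∀ p, B p → p.Prime)
    {W : Finset ℕ → Prop} {X : ℕ} {S : Finset ℕ} : S ∈ FW B cl τ W X ↔
    (∀ p ∈ S, B p) ∧ QG cl τ S ∧ ∏ p ∈ S, p ≤ X ∧ W S := by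
  unfold FW
  rw [mem_filter, mem_powerset]
  constructor
  · exact fun h => h.2
  · intro h
    refine ⟨fun q hq => ?_, h⟩
    rw [mem_range]
    have h5 : q ≤ ∏ r ∈ S, r := Nat.le_of_dvd
      (Finset.prod_pos fun r hr => (hB r (h.1 r hr)).pos) (Finset.dvd_prod_of_mem _ hq)
    have := h.2.2.1
    omega

theorem image_TW {B : ℕ → Prop} {cl : ℕ → ℕ} {τ : ι → ℕ} (hB : ∀ p, B p → p.Prime)
    (W : Finset ℕ → Prop) (X : ℕ) :
    (TW B cl τ W X).image (fun p => univ.image p) = FW B cl τ W X := by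
  ext S
  rw [mem_image, mem_FW hB]
  constructor
  · rintro ⟨p, hp, rfl⟩
    rw [mem_TW hB] at hp
    obtain ⟨⟨h1, h2, h3⟩, h4⟩ := hp
    refine ⟨fun q hq => ?_, qg_of h1 h2, ?_, h4⟩
    · rw [mem_image] at hq
      obtain ⟨i, -, rfl⟩ := hq
      exact (h1 i).1
    · rw [Finset.prod_image fun a _ b _ h => h2 h]
      exact h3
  · rintro ⟨h1, h2, h3, h4⟩
    obtain ⟨p, hp1, hp2, rfl⟩ := exists_tupleG h1 h2
    refine ⟨p, (mem_TW hB).2 ⟨⟨hp1, hp2, ?_⟩, h4⟩, rfl⟩
    rw [← Finset.prod_image (f := fun q => q) fun a _ b _ h => hp2 h]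
    exact h3

/-- the fibres have the same size -/
theorem fib_leG {B : ℕ → Prop} {cl : ℕ → ℕ} {τ : ι → ℕ} (hB : ∀ p, B p → p.Prime)
    {W : Finset ℕ → Prop} {X : ℕ} {p₀ p₁ : ι → ℕ} (h₀ : p₀ ∈ TW B cl τ W X)
    (h₁ : p₁ ∈ TW B cl τ W X) :
    ((TW B cl τ W X).filter fun p => univ.image p = univ.image p₀).card ≤
      ((TW B cl τ W X).filter fun p => univ.image p = univ.image p₁).card := by
  rw [mem_TW hB] at h₀ h₁
  rcases isEmpty_or_nonempty ι with hι | hι
  · refine Finset.card_le_card fun p hp => ?_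
    rw [mem_filter] at hp ⊢
    exact ⟨hp.1, by rw [Subsingleton.elim p p₁]⟩
  have hs : ∀ p ∈ (TW B cl τ W X).filter (fun p => univ.image p = univ.image p₀),
      ∀ i, p₀ (Function.invFun p₀ (p i)) = p i := by
    intro p hp i
    rw [mem_filter] at hp
    have h1 : p i ∈ univ.image p₀ := by
      rw [← hp.2]
      exact Finset.mem_image_of_mem _ (mem_univ i)
    rw [mem_image] at h1
    obtain ⟨j, -, hj⟩ := h1
    exact Function.invFun_eq ⟨j, hj⟩
  refine Finset.card_le_card_of_injOn (fun p i => p₁ (Function.invFun p₀ (p i))) ?_ ?_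
  · intro p hp
    have hs' := hs p hp
    rw [mem_coe, mem_filter, mem_TW hB] at hp
    obtain ⟨⟨⟨a1, a2, a3⟩, a5⟩, a4⟩ := hp
    have hsi : Function.Injective (fun i => Function.invFun p₀ (p i)) := by
      intro i j hij
      simp only at hij
      apply a2
      rw [← hs' i, ← hs' j, hij]
    have hsu : Function.Surjective (fun i => Function.invFun p₀ (p i)) :=
      Finite.injective_iff_surjective.1 hsi
    have himg : (univ.image fun i => p₁ (Function.invFun p₀ (p i))) = univ.image p₁ := by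
      ext q
      simp only [mem_image, mem_univ, true_and]
      constructor
      · rintro ⟨i, hi⟩
        exact ⟨_, hi⟩
      · rintro ⟨j, hj⟩
        obtain ⟨i, hi⟩ := hsu j
        exact ⟨i, by simp only at hi; rw [hi]; exact hj⟩
    rw [mem_coe, mem_filter]
    refine ⟨(mem_TW hB).2 ⟨⟨fun i => ?_, ?_, ?_⟩, ?_⟩, himg⟩
    · have b1 := h₁.1.1 (Function.invFun p₀ (p i))
      have b2 := h₀.1.1 (Function.invFun p₀ (p i))
      have b3 := a1 i
      refine ⟨b1.1, ?_⟩
      rw [b1.2, ← b2.2, hs' i, b3.2]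
    · exact h₁.1.2.1.comp hsi
    · have : ∏ i, p₁ (Function.invFun p₀ (p i)) = ∏ i, p₁ i :=
        Function.Bijective.prod_comp ⟨hsi, hsu⟩ p₁
      rw [this]
      exact h₁.1.2.2
    · rw [himg]
      exact h₁.2
  · intro p hp p' hp' h
    have e1 := hs p (mem_coe.1 hp)
    have e2 := hs p' (mem_coe.1 hp')
    funext i
    rw [← e1 i, ← e2 i]
    congr 1
    exact h₁.1.2.1 (congrFun h i)

/-- the numbers of the tuples and of the sets are proportional -/
theorem card_propG {B : ℕ → Prop} {cl : ℕ → ℕ} {τ : ι → ℕ} (hB : ∀ p, B p → p.Prime)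
    (W : Finset ℕ → Prop) (X : ℕ) : ∃ m : ℕ, 1 ≤ m ∧
      ∀ Q : Finset ℕ → Prop, ((TW B cl τ W X).filter fun p => Q (univ.image p)).card =
        m * ((FW B cl τ W X).filter Q).card := by
  rw [← image_TW hB W X]
  rcases (TW B cl τ W X).eq_empty_or_nonempty with h | ⟨p₀, hp₀⟩
  · refine ⟨1, le_rfl, fun Q => ?_⟩
    rw [h]
    simp
  set m := ((TW B cl τ W X).filter fun p => univ.image p = univ.image p₀).card with hm
  refine ⟨m, ?_, fun Q => ?_⟩
  · rw [hm]
    exact Finset.card_pos.2 ⟨p₀, Finset.mem_filter.2 ⟨hp₀, rfl⟩⟩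
  · have hfib : ∀ S ∈ ((TW B cl τ W X).image fun p => univ.image p).filter Q,
        (((TW B cl τ W X).filter fun p => Q (univ.image p)).filter
          fun p => univ.image p = S).card = m := by
      intro S hS
      rw [mem_filter, mem_image] at hS
      obtain ⟨⟨p₁, hp₁, rfl⟩, hQ⟩ := hS
      have e : ((TW B cl τ W X).filter fun p => Q (univ.image p)).filter
          (fun p => univ.image p = univ.image p₁) =
          (TW B cl τ W X).filter fun p => univ.image p = univ.image p₁ := by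
        rw [Finset.filter_filter]
        refine Finset.filter_congr fun p _ => ?_
        constructor
        · exact fun h => h.2
        · exact fun h => ⟨by rw [h]; exact hQ, h⟩
      rw [e, hm]
      exact le_antisymm (fib_leG hB hp₁ hp₀) (fib_leG hB hp₀ hp₁)
    rw [Finset.card_eq_sum_card_fiberwise (f := fun p => univ.image p)
      (t := ((TW B cl τ W X).image fun p => univ.image p).filter Q) (by
        intro p hp
        rw [mem_coe, mem_filter] at hp
        rw [mem_coe, mem_filter]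
        exact ⟨Finset.mem_image_of_mem _ hp.1, hp.2⟩), Finset.sum_congr rfl hfib,
      Finset.sum_const, smul_eq_mul, mul_comm]

/-- **The law for the sets**, from the hypotheses for the tuples. -/
theorem set_lawG {B : ℕ → Prop} {cl : ℕ → ℕ} {τ : ι → ℕ} (hB : ∀ p, B p → p.Prime)
    (W : Finset ℕ → Prop) {j : ℕ} (hj : Fintype.card ι = j + 2) {G : Finset ℕ → Prop} {α : ℝ}
    (h0 : 0 ≤ α) (h1 : α ≤ 1) (hBx : BoxH (TW B cl τ W) (fun p => G (univ.image p)) α)
    (hE : ExcH (TW B cl τ W) (j + 1)) (hL : LowH (TW B cl τ W)) :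
    Tendsto (fun X : ℕ => (((FW B cl τ W X).filter G).card : ℝ) / ((FW B cl τ W X).card : ℝ)) atTop
      (𝓝 α) := by
  refine (law_abs hj h0 h1 hBx hE hL).congr fun X => ?_
  obtain ⟨m, hm, hc⟩ := card_propG (τ := τ) (cl := cl) hB W X
  have e1 := hc G
  have e2 := hc fun _ => True
  rw [Finset.filter_true, Finset.filter_true] at e2
  rw [e1, e2]
  have hm0 : (m : ℝ) ≠ 0 := by exact_mod_cast (by omega : m ≠ 0)
  push_cast
  rw [mul_div_mul_left _ _ hm0]

/-- the size of the family: the lower bound -/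
theorem FW_low {B : ℕ → Prop} {cl : ℕ → ℕ} {τ : ι → ℕ} (hB : ∀ p, B p → p.Prime) (i₀ : ι)
    {W : Finset ℕ → Prop} (hL : LowH (TW B cl τ W)) :
    ∃ (c : ℝ) (X₀ : ℕ), 0 < c ∧ ∀ X : ℕ, X₀ ≤ X →
      c * (X * Real.log (Real.log X) ^ (Fintype.card ι - 1) / Real.log X) ≤
        ((FW B cl τ W X).card : ℝ) := by
  obtain ⟨c, X₀, hc, h⟩ := hL
  have hn : 0 < Fintype.card ι := Fintype.card_pos_iff.2 ⟨i₀⟩
  have hn0 : (0 : ℝ) < (Fintype.card ι : ℝ) ^ Fintype.card ι := by positivity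
  refine ⟨c / (Fintype.card ι : ℝ) ^ Fintype.card ι, X₀, by positivity, fun X hX => ?_⟩
  have h1 := h X hX
  have h2 := card_le_image (TW B cl τ W X) (fun p hp => ((mem_TW hB).1 hp).1.2.1)
    (FW B cl τ W X) (fun p hp => by
      rw [← image_TW hB W X]
      exact Finset.mem_image_of_mem _ hp)
  have h3 : ((TW B cl τ W X).card : ℝ) ≤
      (Fintype.card ι : ℝ) ^ Fintype.card ι * ((FW B cl τ W X).card : ℝ) := by exact_mod_cast h2
  rw [div_mul_eq_mul_div, div_le_iff₀ hn0, mul_comm ((FW B cl τ W X).card : ℝ)]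
  exact h1.trans h3

/-- the size of the family: the upper bound -/
theorem FW_up {B : ℕ → Prop} {cl : ℕ → ℕ} {τ : ι → ℕ} (hB : ∀ p, B p → p.Prime) {j : ℕ}
    (hj : Fintype.card ι = j + 1) (W : Finset ℕ → Prop) :
    ∃ (C : ℝ) (X₀ : ℕ), 0 < C ∧ ∀ X : ℕ, X₀ ≤ X →
      ((FW B cl τ W X).card : ℝ) ≤ C * (X * Real.log (Real.log X) ^ j / Real.log X) := by
  obtain ⟨M, hM⟩ := exists_MH
  obtain ⟨C₁, hC₁, hAA⟩ := card_AA hM j
  have t3 : Tendsto (fun X : ℕ => Real.log (Real.log (X : ℝ))) atTop atTop :=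
    Real.tendsto_log_atTop.comp (Real.tendsto_log_atTop.comp tendsto_natCast_atTop_atTop)
  obtain ⟨X₀, hX₀⟩ := eventually_atTop.1 ((eventually_ge_atTop 3).and
    (t3.eventually_ge_atTop (max 1 M)))
  refine ⟨C₁ * 2 ^ j, X₀, by positivity, fun X hX => ?_⟩
  obtain ⟨h3, hll⟩ := hX₀ X hX
  have hX1 : (1 : ℝ) < X := by exact_mod_cast (by omega : 1 < X)
  have hl : 0 < Real.log X := Real.log_pos hX1
  have hsub : FW B cl τ W X ⊆ AA (j + 1) X := by
    intro S hS
    rw [← image_TW hB W X, mem_image] at hS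
    obtain ⟨p, hp, rfl⟩ := hS
    rw [mem_TW hB] at hp
    rw [mem_AA]
    refine ⟨fun q hq => ?_, ?_, ?_⟩
    · rw [mem_image] at hq
      obtain ⟨i, -, rfl⟩ := hq
      exact hB _ (hp.1.1 i).1
    · rw [Finset.card_image_of_injective _ hp.1.2.1, Finset.card_univ, hj]
    · rw [Finset.prod_image fun a _ b _ h => hp.1.2.1 h]
      exact hp.1.2.2
  have h1 : ((FW B cl τ W X).card : ℝ) ≤ ((AA (j + 1) X).card : ℝ) := by
    exact_mod_cast Finset.card_le_card hsub
  refine h1.trans ((hAA X (by omega)).trans ?_)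
  have h2 : LL M X ≤ 2 * Real.log (Real.log X) := by
    unfold LL
    have := (le_max_right 1 M).trans hll
    linarith
  have h4 : 0 ≤ LL M X := by linarith [one_le_LL hM.1 (show 2 ≤ X by omega)]
  have h5 : LL M X ^ j ≤ (2 * Real.log (Real.log X)) ^ j := pow_le_pow_left₀ h4 h2 j
  calc C₁ * (X * LL M X ^ j / Real.log X) ≤
      C₁ * (X * (2 * Real.log (Real.log X)) ^ j / Real.log X) := by gcongr
    _ = _ := by
        rw [mul_pow]
        ring

end Pool.Agent.V11291.FK
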