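import Pool.Agent.V11291.FK.Low

/-!
# A fixed number of primes: the lower bound for the number of the tuples
-/

set_option autoImplicit false

open scoped Classical

namespace Pool.Agent.V11291.FK

open Finset Filter

variable {ι : Type} [Fintype ι] [LinearOrder ι]

/-- the exponents of the ranges -/
noncomputable def nn (K : ℕ) (L : ℝ) (j : ℕ) : ℕ := ⌊L ^ (((j : ℝ) + 1) / (K + 1))⌋₊

theorem nn_mono {K : ℕ} {L : ℝ} (hL : 1 ≤ L) {i j : ℕ} (h : i ≤ j) : nn K L i ≤ nn K L j := by
  unfold nn
  apply Nat.floor_le_floor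
  apply Real.rpow_le_rpow_of_exponent_le hL
  have : (i : ℝ) ≤ j := by exact_mod_cast h
  apply div_le_div_of_nonneg_right _ (by positivity)
  linarith

theorem nn_step {K : ℕ} {L : ℝ} (hL : 1 ≤ L) (j : ℕ) :
    Real.log L / (K + 1) - Real.log 2 ≤
      Real.log (nn K L (j + 1)) - Real.log (nn K L j) := by
  have hL0 : 0 < L := by linarith
  have hK : (0 : ℝ) < K + 1 := by positivity
  have h1 : ∀ a : ℝ, 0 ≤ a → 1 ≤ L ^ a := fun a ha => Real.one_le_rpow hL ha
  have h2 : (1 : ℝ) ≤ L ^ (((j : ℝ) + 1) / (K + 1)) := h1 _ (by positivity)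
  have h3 : (1 : ℝ) ≤ L ^ ((((j + 1 : ℕ) : ℝ) + 1) / (K + 1)) := h1 _ (by positivity)
  have h4 : (1 : ℕ) ≤ nn K L j := by
    unfold nn
    exact Nat.le_floor (by exact_mod_cast h2)
  have h5 : Real.log (nn K L j) ≤ (((j : ℝ) + 1) / (K + 1)) * Real.log L := by
    rw [← Real.log_rpow hL0]
    apply Real.log_le_log (by exact_mod_cast h4)
    exact Nat.floor_le (by positivity)
  have h6 : (((((j + 1 : ℕ) : ℝ) + 1) / (K + 1)) * Real.log L) - Real.log 2 ≤
      Real.log (nn K L (j + 1)) := by
    rw [← Real.log_rpow hL0, ← Real.log_div (by positivity) (by norm_num)]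
    apply Real.log_le_log (by positivity)
    have h7 := Nat.lt_floor_add_one (L ^ ((((j + 1 : ℕ) : ℝ) + 1) / (K + 1)))
    have h8 : (1 : ℝ) ≤ (nn K L (j + 1) : ℝ) := by
      have : 1 ≤ nn K L (j + 1) := by
        unfold nn
        exact Nat.le_floor (by exact_mod_cast h3)
      exact_mod_cast this
    have h9 : L ^ ((((j + 1 : ℕ) : ℝ) + 1) / (K + 1)) < (nn K L (j + 1) : ℝ) + 1 := h7
    linarith
  have h7 : (((((j + 1 : ℕ) : ℝ) + 1) / (K + 1)) * Real.log L) =
      (((j : ℝ) + 1) / (K + 1)) * Real.log L + Real.log L / (K + 1) := by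
    push_cast
    field_simp
  linarith

theorem pc_le (a : ℕ) : Nat.primeCounting a ≤ a := by
  rw [Nat.primeCounting, Nat.primeCounting', Nat.count_eq_card_filter_range]
  have h : (range (a + 1)).filter Nat.Prime ⊆ Icc 1 a := by
    intro p hp
    rw [mem_filter, mem_range] at hp
    rw [mem_Icc]
    exact ⟨hp.2.one_lt.le, by omega⟩
  refine (Finset.card_le_card h).trans ?_
  rw [Nat.card_Icc]
  omega

/-- the construction of the tuples -/
theorem constr {P : ι → ℕ → Prop} (hP : ∀ i p, P i p → p.Prime) (i₀ : ι) {A X N : ℕ} (hA : 2 ≤ A)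
    (e : ι → ℕ) (he : Function.Injective e) (n : ℕ → ℕ) (hn : ∀ i j, i ≤ j → n i ≤ n j)
    (heN : ∀ i, e i + 1 ≤ N) :
    ∑ p ∈ Fintype.piFinset (fun i => if i = i₀ then {1} else blk (P i) (A ^ n (e i)) (A ^ n (e i + 1))),
      (blk (P i₀) (A ^ n N) (X / ∏ i, p i)).card ≤ (Tup P X).card := by
  rw [← Finset.card_sigma]
  refine Finset.card_le_card_of_injOn (fun x => Function.update x.1 i₀ x.2) ?_ ?_
  · rintro ⟨p, q⟩ hx
    rw [mem_coe, Finset.mem_sigma, Fintype.mem_piFinset, mem_blk] at hx
    obtain ⟨h1, h2, h3, h4⟩ := hx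
    simp only at h1 h2 h3 h4
    have h5 : p i₀ = 1 := by
      have := h1 i₀
      rw [if_pos rfl, mem_singleton] at this
      exact this
    have h6 : ∀ i, i ≠ i₀ → P i (p i) ∧ A ^ n (e i) < p i ∧ p i ≤ A ^ n (e i + 1) := by
      intro i hi
      have := h1 i
      rw [if_neg hi, mem_blk] at this
      exact this
    have hpow : ∀ a b, a ≤ b → A ^ n a ≤ A ^ n b := fun a b h =>
      Nat.pow_le_pow_right (by omega) (hn a b h)
    rw [mem_coe]
    refine (mem_Tup hP).2 ⟨fun i => ?_, ?_, ?_⟩
    · simp only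
      by_cases hi : i = i₀
      · subst hi
        rw [Function.update_self]
        exact h2
      · rw [Function.update_of_ne hi]
        exact (h6 i hi).1
    · intro i j hij
      simp only at hij
      by_contra hne
      have key : ∀ i j, i ≠ j → i ≠ i₀ → Function.update p i₀ q i = Function.update p i₀ q j →
          j = i₀ ∨ e i = e j ∨ False := by
        intro i j hne hi hij
        by_cases hj : j = i₀
        · exact Or.inl hj
        · rw [Function.update_of_ne hi, Function.update_of_ne hj] at hij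
          obtain ⟨-, a1, a2⟩ := h6 i hi
          obtain ⟨-, b1, b2⟩ := h6 j hj
          rcases lt_trichotomy (e i) (e j) with h | h | h
          · have := hpow (e i + 1) (e j) h
            omega
          · exact Or.inr (Or.inl h)
          · have := hpow (e j + 1) (e i) h
            omega
      have key2 : ∀ j, j ≠ i₀ → Function.update p i₀ q i₀ ≠ Function.update p i₀ q j := by
        intro j hj h
        rw [Function.update_self, Function.update_of_ne hj] at h
        obtain ⟨-, b1, b2⟩ := h6 j hj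
        have := hpow (e j + 1) N (heN j)
        omega
      by_cases hi : i = i₀
      · subst hi
        exact key2 j (Ne.symm hne) hij
      · rcases key i j hne hi hij with h | h | h
        · subst h
          exact key2 i hi hij.symm
        · exact hne (he h)
        · exact h
    · simp only
      have hq : ∏ i, Function.update p i₀ q i = q * ∏ i, p i := by
        rw [← Finset.mul_prod_erase univ (Function.update p i₀ q) (mem_univ i₀),
          ← Finset.mul_prod_erase univ p (mem_univ i₀), Function.update_self, h5, one_mul]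
        congr 1
        refine Finset.prod_congr rfl fun i hi => ?_
        rw [Function.update_of_ne (Finset.ne_of_mem_erase hi)]
      rw [hq]
      exact (Nat.mul_le_mul_right _ h4).trans (Nat.div_mul_le_self X _)
  · rintro ⟨p, q⟩ hx ⟨p', q'⟩ hx' h
    simp only at h
    rw [mem_coe, Finset.mem_sigma, Fintype.mem_piFinset] at hx hx'
    have h1 := hx.1 i₀
    have h2 := hx'.1 i₀
    rw [if_pos rfl, mem_singleton] at h1 h2
    have h3 : q = q' := by
      have := congrFun h i₀
      rwa [Function.update_self, Function.update_self] at this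
    have h4 : p = p' := by
      funext i
      by_cases hi : i = i₀
      · subst hi
        exact h1.trans h2.symm
      · have := congrFun h i
        rwa [Function.update_of_ne hi, Function.update_of_ne hi] at this
    rw [h3, h4]

/-- **The lower bound.** -/
theorem low {P : ι → ℕ → Prop} (hP : ∀ i p, P i p → p.Prime) (hD : ∀ i, Dn (P i)) (i₀ : ι) :
    ∃ (c : ℝ) (X₀ : ℕ), 0 < c ∧ ∀ X : ℕ, X₀ ≤ X →
      c * (X * Real.log (Real.log X) ^ (Fintype.card ι - 1) / Real.log X) ≤
        ((Tup P X).card : ℝ) := by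
  set K := Fintype.card ι with hK
  have hK1 : 1 ≤ K := Fintype.card_pos_iff.2 ⟨i₀⟩
  choose A₀ hA₀ using fun i => blk_sum (hP i) (hD i)
  set A : ℕ := max 2 (univ.sup A₀) with hAd
  have hA2 : 2 ≤ A := le_max_left _ _
  have hAi : ∀ i, A₀ i ≤ A := fun i => (Finset.le_sup (mem_univ i)).trans (le_max_right _ _)
  choose n₀ hn₀ hsum using fun i => hA₀ i A (hAi i)
  set m₀ : ℕ := univ.sup n₀ with hm₀
  have hni : ∀ i, n₀ i ≤ m₀ := fun i => Finset.le_sup (mem_univ i)
  obtain ⟨δ, Y₀, hδ, hY₀⟩ := hD i₀
  have hA1 : (1 : ℝ) < A := by exact_mod_cast (by omega : 1 < A)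
  have hlA : 0 < Real.log A := Real.log_pos hA1
  have hK0 : (0 : ℝ) < K := by exact_mod_cast hK1
  set a : ℝ := 4 * K * Real.log A with ha
  have ha0 : 0 < a := by positivity
  set c₁ : ℝ := 1 / (A * Real.log A) * (1 / (4 * (K + 1))) with hc₁
  have hA00 : (0 : ℝ) < A := by linarith
  have hc₁0 : 0 < c₁ := by positivity
  set LX : ℕ → ℝ := fun X => Real.log X / a with hLX
  have t1 : Tendsto (fun X : ℕ => Real.log (X : ℝ)) atTop atTop :=
    Real.tendsto_log_atTop.comp tendsto_natCast_atTop_atTop
  have t2 : Tendsto LX atTop atTop := t1.atTop_div_const ha0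
  have t3 : Tendsto (fun X : ℕ => Real.log (Real.log (X : ℝ))) atTop atTop :=
    Real.tendsto_log_atTop.comp t1
  have t4 : Tendsto (fun X : ℕ => (LX X) ^ (1 / ((K : ℝ) + 1))) atTop atTop :=
    (tendsto_rpow_atTop (by positivity)).comp t2
  have t5 : Tendsto (fun X : ℕ => Real.exp (Real.log X / 2) - 4 / δ * Real.log X) atTop atTop := by
    have h1 : Tendsto (fun y : ℝ => Real.exp (y / 2) - 4 / δ * y) atTop atTop := by
      have h2 : Tendsto (fun y : ℝ => Real.exp (y / 2) / (y / 2) ^ 1) atTop atTop :=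
        (Real.tendsto_exp_div_pow_atTop 1).comp (tendsto_id.atTop_div_const (by norm_num))
      have h3 : Tendsto (fun y : ℝ => y * (Real.exp (y / 2) / (y / 2) ^ 1 / 2 - 4 / δ)) atTop atTop :=
        tendsto_id.atTop_mul_atTop₀
          (tendsto_atTop_add_const_right _ _ (h2.atTop_div_const (by norm_num)))
      refine h3.congr' ?_
      filter_upwards [eventually_gt_atTop 0] with y hy
      rw [pow_one]
      field_simp
    exact h1.comp t1
  have t6 : Tendsto (fun X : ℕ => Real.exp (Real.log X * (3 / 4)) / 2) atTop atTop :=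
    (Real.tendsto_exp_atTop.comp (t1.atTop_mul_const (by norm_num))).atTop_div_const (by norm_num)
  have hev : ∀ᶠ X : ℕ in atTop, 3 ≤ X ∧ 1 ≤ LX X ∧ (m₀ : ℝ) ≤ (LX X) ^ (1 / ((K : ℝ) + 1)) ∧
      (4 / 3) * (Real.log a + (K + 1) * Real.log 2) ≤ Real.log (Real.log X) ∧
      0 ≤ Real.exp (Real.log X / 2) - 4 / δ * Real.log X ∧
      (Y₀ : ℝ) ≤ Real.exp (Real.log X * (3 / 4)) / 2 := by
    filter_upwards [eventually_ge_atTop 3, t2.eventually_ge_atTop 1, t4.eventually_ge_atTop (m₀ : ℝ),
      t3.eventually_ge_atTop _, t5.eventually_ge_atTop 0, t6.eventually_ge_atTop (Y₀ : ℝ)]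
      with X h1 h2 h3 h4 h5 h6
    exact ⟨h1, h2, h3, h4, h5, h6⟩
  obtain ⟨X₀, hX₀⟩ := eventually_atTop.1 hev
  refine ⟨δ / 4 * c₁ ^ (K - 1), X₀, by positivity, fun X hX => ?_⟩
  obtain ⟨h3, hL1, hm, hlog, hexp, hY⟩ := hX₀ X hX
  have hX1 : (1 : ℝ) < X := by exact_mod_cast (by omega : 1 < X)
  have hX0 : (0 : ℝ) < X := by linarith
  have hlX : 0 < Real.log X := Real.log_pos hX1
  have hL0 : 0 < LX X := by linarith
  have hll : 0 ≤ Real.log (Real.log X) := by
    have : Real.exp 1 ≤ X := by
      have := Real.exp_one_lt_d9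
      have h3' : (3 : ℝ) ≤ X := by exact_mod_cast h3
      linarith
    have h4 : 1 ≤ Real.log X := by
      rw [Real.le_log_iff_exp_le hX0]
      exact this
    exact Real.log_nonneg h4
  set n : ℕ → ℕ := nn K (LX X) with hn
  have hnm : ∀ i j, i ≤ j → n i ≤ n j := fun i j h => nn_mono hL1 h
  have hn0 : m₀ ≤ n 0 := by
    rw [hn]
    unfold nn
    apply Nat.le_floor
    simpa using hm
  have e0 := Fintype.equivFin ι
  set e : ι → ℕ := fun i => (e0 i : ℕ) with he
  have hei : Function.Injective e := fun i j h => e0.injective (Fin.ext h)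
  have heN : ∀ i, e i + 1 ≤ K := fun i => (e0 i).2
  have hcon := constr hP i₀ (X := X) hA2 e hei n hnm heN
  set C' : ι → Finset ℕ := fun i => if i = i₀ then {1} else
    blk (P i) (A ^ n (e i)) (A ^ n (e i + 1)) with hC'
  -- the sums over the ranges
  have hC1 : ∀ i, i ≠ i₀ → c₁ * Real.log (Real.log X) ≤ ∑ p ∈ C' i, (1 : ℝ) / p := by
    intro i hi
    have h4 := blks_sum hA2 (hn₀ i) (hsum i) (a := n (e i)) (b := n (e i + 1))
      (le_trans (hni i) (hn0.trans (hnm _ _ (Nat.zero_le _)))) (hnm _ _ (Nat.le_succ _))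
    have h5 : C' i = blk (P i) (A ^ n (e i)) (A ^ n (e i + 1)) := by
      rw [hC']
      simp only [if_neg hi]
    rw [h5]
    refine le_trans ?_ h4
    rw [hc₁, mul_assoc]
    refine mul_le_mul_of_nonneg_left ?_ (by positivity)
    refine le_trans ?_ (nn_step hL1 (e i))
    have h6 : Real.log (LX X) = Real.log (Real.log X) - Real.log a := by
      rw [hLX]
      simp only
      rw [Real.log_div hlX.ne' ha0.ne']
    rw [h6]
    have hK2 : (0 : ℝ) < K + 1 := by positivity
    rw [← sub_nonneg]
    have h7 : (Real.log (Real.log X) - Real.log a) / (K + 1) - Real.log 2 -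
        1 / (4 * (K + 1)) * Real.log (Real.log X) =
        (3 / 4 * Real.log (Real.log X) - (Real.log a + (K + 1) * Real.log 2)) / (K + 1) := by
      field_simp
      ring
    rw [h7]
    apply div_nonneg _ hK2.le
    linarith
  -- the size of the small product
  have hAn : ((A ^ n K : ℕ) : ℝ) ^ K ≤ Real.exp (Real.log X / 4) := by
    have h4 : (n K : ℝ) ≤ LX X := by
      rw [hn]
      unfold nn
      refine (Nat.floor_le (by positivity)).trans ?_
      rw [div_self (by positivity), Real.rpow_one]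
    have h5 : ((A ^ n K : ℕ) : ℝ) ^ K = Real.exp (K * (n K * Real.log A)) := by
      push_cast
      rw [Real.exp_nat_mul, Real.exp_nat_mul, Real.exp_log hA00]
    rw [h5]
    apply Real.exp_le_exp.2
    have h6 : (n K : ℝ) * Real.log A ≤ LX X * Real.log A := mul_le_mul_of_nonneg_right h4 hlA.le
    calc (K : ℝ) * (n K * Real.log A) ≤ K * (LX X * Real.log A) :=
          mul_le_mul_of_nonneg_left h6 hK0.le
      _ = Real.log X / 4 := by
          rw [hLX, ha]
          field_simp
  have hAn1 : ((A ^ n K : ℕ) : ℝ) ≤ Real.exp (Real.log X / 4) := by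
    refine le_trans ?_ hAn
    have h4 : (1 : ℝ) ≤ ((A ^ n K : ℕ) : ℝ) := by
      exact_mod_cast Nat.one_le_pow _ _ (by omega)
    exact le_self_pow₀ h4 (by omega)
  have hprod : ∀ p ∈ Fintype.piFinset C', 1 ≤ ∏ i, p i ∧ ((∏ i, p i : ℕ) : ℝ) ≤
      Real.exp (Real.log X / 4) := by
    intro p hp
    rw [Fintype.mem_piFinset] at hp
    have h4 : ∀ i, 1 ≤ p i ∧ p i ≤ A ^ n K := by
      intro i
      have h5 := hp i
      rw [hC'] at h5
      simp only at h5
      by_cases hi : i = i₀
      · rw [if_pos hi, mem_singleton] at h5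
        rw [h5]
        exact ⟨le_rfl, Nat.one_le_pow _ _ (by omega)⟩
      · rw [if_neg hi, mem_blk] at h5
        refine ⟨(hP i _ h5.1).one_lt.le, h5.2.2.trans ?_⟩
        exact Nat.pow_le_pow_right (by omega) (hnm _ _ (heN i))
    refine ⟨Finset.one_le_prod' fun i _ => (h4 i).1, ?_⟩
    refine le_trans ?_ hAn
    have h5 : ∏ i, p i ≤ ∏ _i : ι, A ^ n K := Finset.prod_le_prod' fun i _ => (h4 i).2
    rw [Finset.prod_const, Finset.card_univ] at h5
    exact_mod_cast h5
  -- the last prime
  have hlast : ∀ p ∈ Fintype.piFinset C', δ / 4 * (X / Real.log X) * ∏ i, (1 / (p i : ℝ)) ≤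
      ((blk (P i₀) (A ^ n K) (X / ∏ i, p i)).card : ℝ) := by
    intro p hp
    obtain ⟨hp1, hp2⟩ := hprod p hp
    set m : ℕ := ∏ i, p i with hmd
    have hm0 : (0 : ℝ) < m := by exact_mod_cast hp1
    have hX4 : Real.exp (Real.log X / 4) * Real.exp (Real.log X * (3 / 4)) = X := by
      rw [← Real.exp_add]
      have : Real.log X / 4 + Real.log X * (3 / 4) = Real.log X := by ring
      rw [this, Real.exp_log hX0]
    have hXm : Real.exp (Real.log X * (3 / 4)) ≤ X / m := by
      rw [le_div_iff₀ hm0]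
      calc Real.exp (Real.log X * (3 / 4)) * m ≤
          Real.exp (Real.log X * (3 / 4)) * Real.exp (Real.log X / 4) :=
            mul_le_mul_of_nonneg_left hp2 (Real.exp_pos _).le
        _ = X := by rw [mul_comm, hX4]
    have hXm1 : (1 : ℝ) ≤ X / m := by
      refine le_trans ?_ hXm
      apply Real.one_le_exp
      positivity
    have hfl : (X : ℝ) / m / 2 ≤ ((X / m : ℕ) : ℝ) := by
      have h4 : (X : ℝ) / m < ((X / m : ℕ) : ℝ) + 1 := by
        rw [← Nat.floor_div_eq_div (K := ℝ)]
        exact Nat.lt_floor_add_one _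
      have h5 : (1 : ℝ) ≤ ((X / m : ℕ) : ℝ) := by
        have : 1 ≤ X / m := by
          rw [Nat.le_div_iff_mul_le hp1, one_mul]
          rw [le_div_iff₀ hm0, one_mul] at hXm1
          exact_mod_cast hXm1
        exact_mod_cast this
      linarith
    have hY0 : Y₀ ≤ X / m := by
      have h4 : (Y₀ : ℝ) ≤ ((X / m : ℕ) : ℝ) := by
        refine hY.trans (le_trans ?_ hfl)
        linarith
      exact_mod_cast h4
    have h4 := hY₀ _ hY0
    have h5 := card_blk (hP i₀) (A ^ n K) (X / m)
    have h6 : (Nat.primeCounting (A ^ n K) : ℝ) ≤ ((A ^ n K : ℕ) : ℝ) := by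
      exact_mod_cast pc_le _
    have hYpos : (0 : ℝ) < ((X / m : ℕ) : ℝ) := by linarith [hfl, hXm1]
    have h7 : (X : ℝ) / m / 2 / Real.log X ≤ ((X / m : ℕ) : ℝ) / Real.log ((X / m : ℕ) : ℝ) := by
      by_cases h8 : ((X / m : ℕ) : ℝ) ≤ 1
      · -- then the logarithm is zero; excluded
        exfalso
        have h9 : (X : ℝ) / m ≤ 2 := by linarith
        have h10 : Real.exp (Real.log X * (3 / 4)) ≤ 2 := hXm.trans h9
        have h11 : Real.log X * (3 / 4) + 1 ≤ 2 := (Real.add_one_le_exp _).trans h10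
        have h12 : 1 < Real.log X := by
          rw [Real.lt_log_iff_exp_lt hX0]
          have := Real.exp_one_lt_d9
          have h3' : (3 : ℝ) ≤ X := by exact_mod_cast h3
          linarith
        have h13 : Real.exp (3 / 4) ≤ Real.exp (Real.log X * (3 / 4)) :=
          Real.exp_le_exp.2 (by linarith)
        have h14 : (2 : ℝ) < Real.exp (3 / 4) := by
          have h15 := Real.exp_one_gt_d9
          have h16 : Real.exp (3 / 4) ^ 4 = Real.exp 1 ^ 3 := by
            rw [← Real.exp_nat_mul, ← Real.exp_nat_mul]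
            norm_num
          by_contra hcon
          push Not at hcon
          have h17 : Real.exp (3 / 4) ^ 4 ≤ 2 ^ 4 := pow_le_pow_left₀ (Real.exp_pos _).le hcon 4
          have h18 : (2.7182818283 : ℝ) ^ 3 ≤ Real.exp 1 ^ 3 :=
            pow_le_pow_left₀ (by norm_num) h15.le 3
          rw [h16] at h17
          norm_num at h17 h18
          linarith
        linarith
      · push Not at h8
        have h9 : 0 < Real.log ((X / m : ℕ) : ℝ) := Real.log_pos h8
        have h10 : Real.log ((X / m : ℕ) : ℝ) ≤ Real.log X :=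
          Real.log_le_log hYpos (by exact_mod_cast Nat.div_le_self X m)
        exact div_le_div₀ hYpos.le hfl h9 h10
    have h8 : δ * ((X : ℝ) / m / 2 / Real.log X) ≤ ((blk (P i₀) (A ^ n K) (X / m)).card : ℝ) +
        Real.exp (Real.log X / 4) := by
      have h9 := mul_le_mul_of_nonneg_left h7 hδ.le
      linarith
    have h9 : Real.exp (Real.log X / 4) ≤ δ / 4 * (X / Real.log X) * (1 / m) := by
      have h10 : Real.exp (Real.log X / 2) * Real.exp (Real.log X / 4) * m ≤ X := by
        have h11 : Real.exp (Real.log X / 2) * Real.exp (Real.log X / 4) =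
            Real.exp (Real.log X * (3 / 4)) := by
          rw [← Real.exp_add]
          congr 1
          ring
        rw [h11]
        calc Real.exp (Real.log X * (3 / 4)) * m ≤
            Real.exp (Real.log X * (3 / 4)) * Real.exp (Real.log X / 4) :=
              mul_le_mul_of_nonneg_left hp2 (Real.exp_pos _).le
          _ = X := by rw [mul_comm, hX4]
      have h11 : 4 / δ * Real.log X ≤ Real.exp (Real.log X / 2) := by linarith
      have h12 : 4 / δ * Real.log X * Real.exp (Real.log X / 4) * m ≤ X := by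
        refine le_trans ?_ h10
        gcongr
      have h13 : δ / 4 * (X / Real.log X) * (1 / m) = δ * X / (4 * Real.log X * m) := by
        field_simp
      rw [h13, le_div_iff₀ (by positivity)]
      have h14 : Real.exp (Real.log X / 4) * (4 * Real.log X * m) =
          δ * (4 / δ * Real.log X * Real.exp (Real.log X / 4) * m) := by
        field_simp
      rw [h14]
      exact mul_le_mul_of_nonneg_left h12 hδ.le
    have h10 : ∏ i, (1 / (p i : ℝ)) = 1 / m := by
      rw [Finset.prod_div_distrib, Finset.prod_const_one, hmd]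
      push_cast
      rfl
    rw [h10]
    have h11 : δ * ((X : ℝ) / m / 2 / Real.log X) = 2 * (δ / 4 * (X / Real.log X) * (1 / m)) := by
      field_simp
      ring
    linarith
  have hT : ∑ p ∈ Fintype.piFinset C', δ / 4 * (X / Real.log X) * ∏ i, (1 / (p i : ℝ)) ≤
      ((Tup P X).card : ℝ) := by
    refine (Finset.sum_le_sum hlast).trans ?_
    exact_mod_cast hcon
  refine le_trans ?_ hT
  have hps : ∑ p ∈ Fintype.piFinset C', ∏ i, (1 / (p i : ℝ)) = ∏ i, ∑ p ∈ C' i, (1 / (p : ℝ)) :=
    (Finset.prod_univ_sum (t := C') (f := fun _ p => 1 / (p : ℝ))).symm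
  have h4 : ∑ p ∈ C' i₀, 1 / (p : ℝ) = 1 := by
    rw [hC']
    simp
  rw [← Finset.mul_sum, hps, ← Finset.mul_prod_erase univ _ (mem_univ i₀), h4, one_mul]
  have h5 : (c₁ * Real.log (Real.log X)) ^ (K - 1) ≤
      ∏ i ∈ univ.erase i₀, ∑ p ∈ C' i, 1 / (p : ℝ) := by
    have h6 : (univ.erase i₀).card = K - 1 := by
      rw [Finset.card_erase_of_mem (mem_univ i₀), Finset.card_univ]
    rw [← h6, ← Finset.prod_const]
    refine Finset.prod_le_prod (fun i _ => by positivity) fun i hi => ?_
    exact hC1 i (Finset.ne_of_mem_erase hi)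
  have h6 : δ / 4 * c₁ ^ (K - 1) * (X * Real.log (Real.log X) ^ (K - 1) / Real.log X) =
      δ / 4 * (X / Real.log X) * (c₁ * Real.log (Real.log X)) ^ (K - 1) := by
    rw [mul_pow]
    ring
  rw [h6]
  exact mul_le_mul_of_nonneg_left h5 (by positivity)

end Pool.Agent.V11291.FK
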