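import Pool.Agent.V11291.FK.Asy
import Pool.Agent.Y703.CQ.Cor
import Pool.Agent.Y687.JQ.Fld

/-!
# A fixed number of primes: from the tuples to the sets of primes
-/

set_option autoImplicit false
set_option linter.unusedSectionVars false
set_option linter.unusedVariables false

open scoped Classical

namespace Pool.Agent.V11291.FK

open Finset Filter Topology
open Pool.Agent.Y703.CQ
open Pool.Agent.Y219.CQ (sp)

/-- the primes of the class -/
def Cp (p : ℕ) : Prop := Sp p ∨ In {3, 5} p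

theorem Cp.pr {p : ℕ} (h : Cp p) : p.Prime ∧ p ≠ 2 ∧ (p % 8 = 1 ∨ p % 8 = 3 ∨ p % 8 = 5) := by
  rcases h with h | h
  · refine ⟨h.1, ?_, Or.inl h.2.1⟩
    rintro rfl
    have := h.2.1
    omega
  · have h3 := h.2.2.1
    rw [mem_insert, mem_singleton] at h3
    refine ⟨h.1, ?_, Or.inr h3⟩
    rintro rfl
    omega

section gen

variable {ι : Type} [Fintype ι] [LinearOrder ι]

/-- the property of the prime with the index `i` -/
def PP (A : ℕ → Prop) (τ : ι → ℕ) (i : ι) (p : ℕ) : Prop := A p ∧ Cp p ∧ p % 8 = τ i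

theorem PP_prime {A : ℕ → Prop} {τ : ι → ℕ} (i : ι) (p : ℕ) (h : PP A τ i p) : p.Prime :=
  h.2.1.pr.1

/-- the sets with the prescribed numbers of primes of the three kinds -/
def QF (A : ℕ → Prop) (τ : ι → ℕ) (S : Finset ℕ) : Prop :=
  (∀ p ∈ S, A p) ∧ ∀ r ∈ ({1, 3, 5} : Finset ℕ),
    (S.filter fun p => p % 8 = r).card = (univ.filter fun i => τ i = r).card

/-- the family of the sets -/
noncomputable def Fm (A : ℕ → Prop) (τ : ι → ℕ) (X : ℕ) : Finset (Finset ℕ) :=
  (SS {3, 5} {0, 1} X).filter (QF A τ)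

theorem cl_of {A : ℕ → Prop} {τ : ι → ℕ} (hτ : ∀ i, τ i ∈ ({1, 3, 5} : Finset ℕ))
    (h5 : Even (univ.filter fun i => τ i = 5).card) {p : ι → ℕ} (hp : ∀ i, PP A τ i (p i))
    (hinj : Function.Injective p) :
    Cl {3, 5} {0, 1} (univ.image p) ∧ QF A τ (univ.image p) := by
  have hcard : ∀ r, ((univ.image p).filter fun q => q % 8 = r).card =
      (univ.filter fun i => τ i = r).card := by
    intro r
    rw [Finset.filter_image, Finset.card_image_of_injective _ hinj]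
    congr 1
    refine Finset.filter_congr fun i _ => ?_
    rw [(hp i).2.2]
  refine ⟨⟨fun q hq => ?_, ?_, ?_⟩, fun q hq => ?_, fun r _ => hcard r⟩
  · rw [mem_image] at hq
    obtain ⟨i, -, rfl⟩ := hq
    exact (hp i).2.1
  · rw [hcard]
    exact Nat.even_iff.1 h5
  · rw [mem_insert, mem_singleton]
    omega
  · rw [mem_image] at hq
    obtain ⟨i, -, rfl⟩ := hq
    exact (hp i).1

/-- each set of the family has a numbering -/
theorem exists_tuple {A : ℕ → Prop} {τ : ι → ℕ} (hτ : ∀ i, τ i ∈ ({1, 3, 5} : Finset ℕ))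
    {S : Finset ℕ} (hS : ∀ p ∈ S, Cp p) (hQ : QF A τ S) :
    ∃ p : ι → ℕ, (∀ i, PP A τ i (p i)) ∧ Function.Injective p ∧ univ.image p = S := by
  have he : ∀ r : ({1, 3, 5} : Finset ℕ), Nonempty ({i : ι // τ i = (r : ℕ)} ≃
      {p : S // (p : ℕ) % 8 = (r : ℕ)}) := by
    intro r
    apply Fintype.card_eq.1
    have h1 := hQ.2 r r.2
    rw [Fintype.card_subtype, ← h1, Fintype.card_subtype]
    have h2 : (S.filter fun p => p % 8 = (r : ℕ)).card =
        ((univ.filter fun p : S => (p : ℕ) % 8 = (r : ℕ)).image (fun p : S => (p : ℕ))).card := by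
      congr 1
      ext q
      simp only [mem_filter, mem_image, mem_univ, true_and, Subtype.exists, exists_and_right,
        exists_eq_right]
      constructor
      · rintro ⟨h, h'⟩
        exact ⟨h, h'⟩
      · rintro ⟨h, h'⟩
        exact ⟨h, h'⟩
    rw [h2, Finset.card_image_of_injective _ Subtype.coe_injective]
  have e := fun r => Classical.choice (he r)
  set p : ι → ℕ := fun i => ((e ⟨τ i, hτ i⟩ ⟨i, rfl⟩ : S) : ℕ) with hp
  have hp1 : ∀ i, p i ∈ S ∧ p i % 8 = τ i := fun i =>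
    ⟨(e ⟨τ i, hτ i⟩ ⟨i, rfl⟩ : S).2, (e ⟨τ i, hτ i⟩ ⟨i, rfl⟩).2⟩
  have hinj : Function.Injective p := by
    intro i j hij
    have h1 : τ i = τ j := by
      rw [← (hp1 i).2, ← (hp1 j).2, hij]
    have key : ∀ (r : ({1, 3, 5} : Finset ℕ)) (a b : {i : ι // τ i = (r : ℕ)}),
        ((e r a : S) : ℕ) = ((e r b : S) : ℕ) → a = b := by
      intro r a b h
      exact (e r).injective (Subtype.ext (Subtype.ext h))
    have h2 : ((e ⟨τ j, hτ j⟩ ⟨i, h1⟩ : S) : ℕ) = p i := by
      have : ∀ (r s : ({1, 3, 5} : Finset ℕ)) (h : r = s) (a : τ i = (r : ℕ)) (b : τ i = (s : ℕ)),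
          ((e s ⟨i, b⟩ : S) : ℕ) = ((e r ⟨i, a⟩ : S) : ℕ) := by
        rintro r s rfl a b
        rfl
      exact this _ _ (Subtype.ext h1) rfl h1
    have h3 := key ⟨τ j, hτ j⟩ ⟨i, h1⟩ ⟨j, rfl⟩ (h2.trans hij)
    exact congrArg Subtype.val h3
  refine ⟨p, fun i => ⟨hQ.1 _ (hp1 i).1, hS _ (hp1 i).1, (hp1 i).2⟩, hinj, ?_⟩
  ext q
  rw [mem_image]
  constructor
  · rintro ⟨i, -, rfl⟩
    exact (hp1 i).1
  · intro hq
    have h1 : q % 8 ∈ ({1, 3, 5} : Finset ℕ) := by
      rw [mem_insert, mem_insert, mem_singleton]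
      exact (hS q hq).pr.2.2
    obtain ⟨i, hi⟩ := (e ⟨q % 8, h1⟩).surjective ⟨⟨q, hq⟩, rfl⟩
    refine ⟨i, mem_univ _, ?_⟩
    have h2 : τ i = q % 8 := i.2
    have : ∀ (r s : ({1, 3, 5} : Finset ℕ)) (h : r = s) (a : τ i = (r : ℕ)) (b : τ i = (s : ℕ)),
        ((e s ⟨i, b⟩ : S) : ℕ) = ((e r ⟨i, a⟩ : S) : ℕ) := by
      rintro r s rfl a b
      rfl
    have h3 : ((e ⟨q % 8, h1⟩ ⟨i, i.2⟩ : S) : ℕ) = p i := this _ _ (Subtype.ext h2) rfl i.2
    rw [← h3, hi]

theorem image_Tup {A : ℕ → Prop} {τ : ι → ℕ} (hτ : ∀ i, τ i ∈ ({1, 3, 5} : Finset ℕ))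
    (h5 : Even (univ.filter fun i => τ i = 5).card) (X : ℕ) :
    (Tup (PP A τ) X).image (fun p => univ.image p) = Fm A τ X := by
  ext S
  rw [mem_image]
  unfold Fm SS
  rw [mem_filter, mem_filter, mem_powerset]
  constructor
  · rintro ⟨p, hp, rfl⟩
    rw [mem_Tup PP_prime] at hp
    obtain ⟨h1, h2⟩ := cl_of hτ h5 hp.1 hp.2.1
    have hprod : ∏ q ∈ univ.image p, q = ∏ i, p i :=
      Finset.prod_image fun a _ b _ h => hp.2.1 h
    refine ⟨⟨fun q hq => ?_, h1, by rw [hprod]; exact hp.2.2⟩, h2⟩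
    rw [mem_range]
    have h5 : q ≤ ∏ r ∈ univ.image p, r := Nat.le_of_dvd
      (Finset.prod_pos fun r hr => (Cp.pr (h1.1 r hr)).1.pos) (Finset.dvd_prod_of_mem _ hq)
    rw [hprod] at h5
    have := hp.2.2
    omega
  · rintro ⟨⟨-, h1, h2⟩, h3⟩
    obtain ⟨p, hp1, hp2, rfl⟩ := exists_tuple hτ h1.1 h3
    refine ⟨p, (mem_Tup PP_prime).2 ⟨hp1, hp2, ?_⟩, rfl⟩
    rw [← Finset.prod_image (f := fun q => q) fun a _ b _ h => hp2 h]
    exact h2

/-- the fibres have the same size -/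
theorem fib_le {A : ℕ → Prop} {τ : ι → ℕ} {X : ℕ} {p₀ p₁ : ι → ℕ} (h₀ : p₀ ∈ Tup (PP A τ) X)
    (h₁ : p₁ ∈ Tup (PP A τ) X) :
    ((Tup (PP A τ) X).filter fun p => univ.image p = univ.image p₀).card ≤
      ((Tup (PP A τ) X).filter fun p => univ.image p = univ.image p₁).card := by
  rw [mem_Tup PP_prime] at h₀ h₁
  rcases isEmpty_or_nonempty ι with hι | hι
  · refine Finset.card_le_card fun p hp => ?_
    rw [mem_filter] at hp ⊢
    exact ⟨hp.1, by rw [Subsingleton.elim p p₁]⟩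
  have hs : ∀ p ∈ (Tup (PP A τ) X).filter (fun p => univ.image p = univ.image p₀),
      ∀ i, p₀ (Function.invFun p₀ (p i)) = p i := by
    intro p hp i
    rw [mem_filter] at hp
    have h1 : p i ∈ univ.image p₀ := by
      rw [← hp.2]
      exact Finset.mem_image_of_mem _ (mem_univ i)
    rw [mem_image] at h1
    obtain ⟨j, -, hj⟩ := h1
    exact Function.invFun_eq ⟨j, hj⟩
  refine Finset.card_le_card_of_injOn (fun p i => p₁ (Function.invFun p₀ (p i))) ?_ ?_
  · intro p hp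
    have hs' := hs p hp
    rw [mem_coe, mem_filter, mem_Tup PP_prime] at hp
    obtain ⟨⟨a1, a2, a3⟩, a4⟩ := hp
    have hsi : Function.Injective (fun i => Function.invFun p₀ (p i)) := by
      intro i j hij
      simp only at hij
      apply a2
      rw [← hs' i, ← hs' j, hij]
    have hsu : Function.Surjective (fun i => Function.invFun p₀ (p i)) :=
      Finite.injective_iff_surjective.1 hsi
    have himg : (univ.image fun i => p₁ (Function.invFun p₀ (p i))) = univ.image p₁ := by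
      ext q
      simp only [mem_image, mem_univ, true_and]
      constructor
      · rintro ⟨i, hi⟩
        exact ⟨_, hi⟩
      · rintro ⟨j, hj⟩
        obtain ⟨i, hi⟩ := hsu j
        exact ⟨i, by simp only at hi; rw [hi]; exact hj⟩
    rw [mem_coe, mem_filter]
    refine ⟨(mem_Tup PP_prime).2 ⟨fun i => ?_, ?_, ?_⟩, himg⟩
    · have b1 := h₁.1 (Function.invFun p₀ (p i))
      have b2 := h₀.1 (Function.invFun p₀ (p i))
      have b3 := a1 i
      refine ⟨b1.1, b1.2.1, ?_⟩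
      rw [b1.2.2, ← b2.2.2, hs' i, b3.2.2]
    · exact h₁.2.1.comp hsi
    · have : ∏ i, p₁ (Function.invFun p₀ (p i)) = ∏ i, p₁ i :=
        Function.Bijective.prod_comp ⟨hsi, hsu⟩ p₁
      rw [this]
      exact h₁.2.2
  · intro p hp p' hp' h
    have e1 := hs p (mem_coe.1 hp)
    have e2 := hs p' (mem_coe.1 hp')
    funext i
    rw [← e1 i, ← e2 i]
    congr 1
    exact h₁.2.1 (congrFun h i)

/-- the numbers of the tuples and of the sets are proportional -/
theorem card_prop {A : ℕ → Prop} {τ : ι → ℕ} (hτ : ∀ i, τ i ∈ ({1, 3, 5} : Finset ℕ))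
    (h5 : Even (univ.filter fun i => τ i = 5).card) (X : ℕ) : ∃ m : ℕ, 1 ≤ m ∧
      ∀ Q : Finset ℕ → Prop, ((Tup (PP A τ) X).filter fun p => Q (univ.image p)).card =
        m * ((Fm A τ X).filter Q).card := by
  rw [← image_Tup hτ h5 X]
  rcases (Tup (PP A τ) X).eq_empty_or_nonempty with h | ⟨p₀, hp₀⟩
  · refine ⟨1, le_rfl, fun Q => ?_⟩
    rw [h]
    simp
  set m := ((Tup (PP A τ) X).filter fun p => univ.image p = univ.image p₀).card with hm
  refine ⟨m, ?_, fun Q => ?_⟩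
  · rw [hm]
    exact Finset.card_pos.2 ⟨p₀, Finset.mem_filter.2 ⟨hp₀, rfl⟩⟩
  · have hfib : ∀ S ∈ ((Tup (PP A τ) X).image fun p => univ.image p).filter Q,
        (((Tup (PP A τ) X).filter fun p => Q (univ.image p)).filter
          fun p => univ.image p = S).card = m := by
      intro S hS
      rw [mem_filter, mem_image] at hS
      obtain ⟨⟨p₁, hp₁, rfl⟩, hQ⟩ := hS
      have e : ((Tup (PP A τ) X).filter fun p => Q (univ.image p)).filter
          (fun p => univ.image p = univ.image p₁) =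
          (Tup (PP A τ) X).filter fun p => univ.image p = univ.image p₁ := by
        rw [Finset.filter_filter]
        refine Finset.filter_congr fun p _ => ?_
        constructor
        · exact fun h => h.2
        · exact fun h => ⟨by rw [h]; exact hQ, h⟩
      rw [e, hm]
      exact le_antisymm (fib_le hp₁ hp₀) (fib_le hp₀ hp₁)
    rw [Finset.card_eq_sum_card_fiberwise (f := fun p => univ.image p)
      (t := ((Tup (PP A τ) X).image fun p => univ.image p).filter Q) (by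
        intro p hp
        rw [mem_coe, mem_filter] at hp
        rw [mem_coe, mem_filter]
        exact ⟨Finset.mem_image_of_mem _ hp.1, hp.2⟩), Finset.sum_congr rfl hfib,
      Finset.sum_const, smul_eq_mul, mul_comm]

/-- **The law for the sets of primes.** -/
theorem set_law {A : ℕ → Prop} {τ : ι → ℕ} (hτ : ∀ i, τ i ∈ ({1, 3, 5} : Finset ℕ))
    (h5 : Even (univ.filter fun i => τ i = 5).card) (h1 : ∃ i, τ i ≠ 1)
    (hn : 2 ≤ Fintype.card ι) (hD : ∀ i, Dn (PP A τ i)) (f : ℕ → ZMod 2) :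
    Tendsto (fun X : ℕ => (((Fm A τ X).filter (Gd f)).card : ℝ) / ((Fm A τ X).card : ℝ)) atTop
      (𝓝 (sp (univ.filter fun i => τ i = 1).card)) := by
  obtain ⟨j, hj⟩ : ∃ j, Fintype.card ι = j + 2 := ⟨Fintype.card ι - 2, by omega⟩
  have h := tup_law (I := {3, 5}) (K := {0, 1}) ⟨Or.inr rfl, Or.inl (by decide)⟩ hj
    (univ.filter fun i => τ i = 1) (by
      obtain ⟨i, hi⟩ := h1
      exact ⟨i, fun h => hi (Finset.mem_filter.1 h).2⟩) (P := PP A τ) f (by
      intro i p hp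
      obtain ⟨a1, a2, a3⟩ := hp.2.1.pr
      refine ⟨a1, a2, ?_⟩
      rw [mem_filter, hp.2.2]
      simp) (fun p hp hinj => (cl_of hτ h5 hp hinj).1) hD
  refine h.congr fun X => ?_
  obtain ⟨m, hm, hc⟩ := card_prop (A := A) hτ h5 X
  have e1 := hc (Gd f)
  have e2 := hc fun _ => True
  rw [Finset.filter_true, Finset.filter_true] at e2
  rw [e1, e2]
  have hm0 : (m : ℝ) ≠ 0 := by exact_mod_cast (by omega : m ≠ 0)
  push_cast
  rw [mul_div_mul_left _ _ hm0]

/-- the size of the family: the lower bound -/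
theorem Fm_low {A : ℕ → Prop} {τ : ι → ℕ} (hτ : ∀ i, τ i ∈ ({1, 3, 5} : Finset ℕ))
    (h5 : Even (univ.filter fun i => τ i = 5).card) (i₀ : ι) (hD : ∀ i, Dn (PP A τ i)) :
    ∃ (c : ℝ) (X₀ : ℕ), 0 < c ∧ ∀ X : ℕ, X₀ ≤ X →
      c * (X * Real.log (Real.log X) ^ (Fintype.card ι - 1) / Real.log X) ≤
        ((Fm A τ X).card : ℝ) := by
  obtain ⟨c, X₀, hc, h⟩ := low (P := PP A τ) PP_prime hD i₀
  have hn : 0 < Fintype.card ι := Fintype.card_pos_iff.2 ⟨i₀⟩
  have hn0 : (0 : ℝ) < (Fintype.card ι : ℝ) ^ Fintype.card ι := by positivity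
  refine ⟨c / (Fintype.card ι : ℝ) ^ Fintype.card ι, X₀, by positivity, fun X hX => ?_⟩
  have h1 := h X hX
  have h2 := card_le_image (Tup (PP A τ) X) (fun p hp => ((mem_Tup PP_prime).1 hp).2.1)
    (Fm A τ X) (fun p hp => by
      rw [← image_Tup hτ h5 X]
      exact Finset.mem_image_of_mem _ hp)
  have h3 : ((Tup (PP A τ) X).card : ℝ) ≤
      (Fintype.card ι : ℝ) ^ Fintype.card ι * ((Fm A τ X).card : ℝ) := by exact_mod_cast h2
  rw [div_mul_eq_mul_div, div_le_iff₀ hn0, mul_comm ((Fm A τ X).card : ℝ)]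
  exact h1.trans h3

/-- the size of the family: the upper bound -/
theorem Fm_up {A : ℕ → Prop} {τ : ι → ℕ} {j : ℕ} (hj : Fintype.card ι = j + 1)
    (hτ : ∀ i, τ i ∈ ({1, 3, 5} : Finset ℕ)) (h5 : Even (univ.filter fun i => τ i = 5).card) :
    ∃ (C : ℝ) (X₀ : ℕ), 0 < C ∧ ∀ X : ℕ, X₀ ≤ X →
      ((Fm A τ X).card : ℝ) ≤ C * (X * Real.log (Real.log X) ^ j / Real.log X) := by
  obtain ⟨M, hM⟩ := exists_MH
  obtain ⟨C₁, hC₁, hAA⟩ := card_AA hM j
  have t3 : Tendsto (fun X : ℕ => Real.log (Real.log (X : ℝ))) atTop atTop :=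
    Real.tendsto_log_atTop.comp (Real.tendsto_log_atTop.comp tendsto_natCast_atTop_atTop)
  obtain ⟨X₀, hX₀⟩ := eventually_atTop.1 ((eventually_ge_atTop 3).and
    (t3.eventually_ge_atTop (max 1 M)))
  refine ⟨C₁ * 2 ^ j, X₀, by positivity, fun X hX => ?_⟩
  obtain ⟨h3, hll⟩ := hX₀ X hX
  have hX1 : (1 : ℝ) < X := by exact_mod_cast (by omega : 1 < X)
  have hl : 0 < Real.log X := Real.log_pos hX1
  have hsub : Fm A τ X ⊆ AA (j + 1) X := by
    intro S hS
    rw [← image_Tup hτ h5 X, mem_image] at hS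
    obtain ⟨p, hp, rfl⟩ := hS
    rw [mem_Tup PP_prime] at hp
    rw [mem_AA]
    refine ⟨fun q hq => ?_, ?_, ?_⟩
    · rw [mem_image] at hq
      obtain ⟨i, -, rfl⟩ := hq
      exact PP_prime i _ (hp.1 i)
    · rw [Finset.card_image_of_injective _ hp.2.1, Finset.card_univ, hj]
    · rw [Finset.prod_image fun a _ b _ h => hp.2.1 h]
      exact hp.2.2
  have h1 : ((Fm A τ X).card : ℝ) ≤ ((AA (j + 1) X).card : ℝ) := by
    exact_mod_cast Finset.card_le_card hsub
  refine h1.trans ((hAA X (by omega)).trans ?_)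
  have h2 : LL M X ≤ 2 * Real.log (Real.log X) := by
    unfold LL
    have := (le_max_right 1 M).trans hll
    linarith
  have h4 : 0 ≤ LL M X := by linarith [one_le_LL hM.1 (show 2 ≤ X by omega)]
  have h5 : LL M X ^ j ≤ (2 * Real.log (Real.log X)) ^ j := pow_le_pow_left₀ h4 h2 j
  calc C₁ * (X * LL M X ^ j / Real.log X) ≤
      C₁ * (X * (2 * Real.log (Real.log X)) ^ j / Real.log X) := by gcongr
    _ = _ := by
        rw [mul_pow]
        ring

end gen

end Pool.Agent.V11291.FK
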