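import Pool.Agent.V11291.FK.Box
import Pool.Agent.Y703.CQ.Key

/-!
# A fixed number of primes: the sum over the boxes
-/

set_option autoImplicit false

open scoped Classical

namespace Pool.Agent.V11291.FK

open Finset
open Pool.Agent.Y703.CX (sm la jj XX)
open Pool.Agent.Y703.CQ
open Pool.Agent.Y219.CQ (sp)
open Pool.Agent.Y703.CQ.K302 (le_XX prs_card root12)

section tup

variable {ι : Type} [Fintype ι] [LinearOrder ι]

/-- the tuples of different primes with product at most `X`, the `i`-th prime with the property `P i` -/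
noncomputable def Tup (P : ι → ℕ → Prop) (X : ℕ) : Finset (ι → ℕ) :=
  (Fintype.piFinset fun _ => range (X + 1)).filter fun p =>
    (∀ i, P i (p i)) ∧ Function.Injective p ∧ ∏ i, p i ≤ X

/-- the exceptional tuples -/
def Exc (X z H : ℕ) (p : ι → ℕ) : Prop :=
  (∃ i, p i ≤ z) ∨ ¬ Function.Injective (fun i => jj H (p i)) ∨ X < ∏ i, XX H (jj H (p i))

/-- the box -/
noncomputable def bx (P : ι → ℕ → Prop) (z H : ℕ) (b : ι → ℕ) (i : ι) : Finset ℕ :=
  (Icc 1 (XX H (b i))).filter fun p => P i p ∧ jj H p = b i ∧ z < p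

theorem mem_Tup {P : ι → ℕ → Prop} (hP : ∀ i p, P i p → p.Prime) {X : ℕ} {p : ι → ℕ} :
    p ∈ Tup P X ↔ (∀ i, P i (p i)) ∧ Function.Injective p ∧ ∏ i, p i ≤ X := by
  unfold Tup
  rw [mem_filter, Fintype.mem_piFinset]
  constructor
  · exact fun h => h.2
  · intro h
    refine ⟨fun i => ?_, h⟩
    rw [mem_range]
    have h1 : p i ≤ ∏ j, p j := Nat.le_of_dvd
      (Finset.prod_pos fun j _ => (hP j _ (h.1 j)).pos) (Finset.dvd_prod_of_mem _ (mem_univ i))
    have := h.2.2
    omega

/-- the fibre over the tuple of the blocks -/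
theorem fib_eq {P : ι → ℕ → Prop} (hP : ∀ i p, P i p → p.Prime) {X z H : ℕ} (hH : 1 ≤ H)
    {b : ι → ℕ} (hb : Function.Injective b) (hbX : ∏ i, XX H (b i) ≤ X) :
    ((Tup P X).filter fun p => ¬ Exc X z H p ∧ (fun i => jj H (p i)) = b) =
      Fintype.piFinset (bx P z H b) := by
  ext p
  rw [mem_filter, mem_Tup hP, Fintype.mem_piFinset]
  constructor
  · rintro ⟨⟨h1, h2, h3⟩, h4, h5⟩ i
    unfold Exc at h4
    push Not at h4
    unfold bx
    rw [mem_filter, mem_Icc]
    have h6 : jj H (p i) = b i := congrFun h5 i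
    refine ⟨⟨(hP i _ (h1 i)).one_lt.le, ?_⟩, h1 i, h6, h4.1 i⟩
    rw [← h6]
    exact le_XX hH (hP i _ (h1 i)).one_lt.le
  · intro h
    have h1 : ∀ i, P i (p i) ∧ jj H (p i) = b i ∧ z < p i ∧ p i ≤ XX H (b i) := by
      intro i
      have := h i
      unfold bx at this
      rw [mem_filter, mem_Icc] at this
      exact ⟨this.2.1, this.2.2.1, this.2.2.2, this.1.2⟩
    have h2 : (fun i => jj H (p i)) = b := funext fun i => (h1 i).2.1
    have hinj : Function.Injective p := by
      intro i j hij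
      apply hb
      rw [← (h1 i).2.1, ← (h1 j).2.1, hij]
    refine ⟨⟨fun i => (h1 i).1, hinj, (Finset.prod_le_prod' fun i _ => (h1 i).2.2.2).trans hbX⟩, ?_,
      h2⟩
    unfold Exc
    push Not
    refine ⟨fun i => (h1 i).2.2.1, ?_, ?_⟩
    · rw [h2]
      exact hb
    · have : ∏ i, XX H (jj H (p i)) = ∏ i, XX H (b i) :=
        Finset.prod_congr rfl fun i _ => by rw [(h1 i).2.1]
      rw [this]
      exact hbX

theorem fib_empty {P : ι → ℕ → Prop} {X z H : ℕ}
    {b : ι → ℕ} (h : ¬ (Function.Injective b ∧ ∏ i, XX H (b i) ≤ X)) :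
    ((Tup P X).filter fun p => ¬ Exc X z H p ∧ (fun i => jj H (p i)) = b) = ∅ := by
  refine Finset.filter_eq_empty_iff.2 ?_
  rintro p - ⟨h4, h5⟩
  unfold Exc at h4
  push Not at h4
  apply h
  subst h5
  exact ⟨h4.2.1, h4.2.2⟩

/-- **The sum over the boxes.** -/
theorem sum_boxes (hS : S_SYM) (hEQ : S_EQ) (hB : S_BIL) (J1 : Finset ι) (hne : ∃ i, i ∉ J1) :
    ∃ C : ℝ, 1 ≤ C ∧ ∀ (P : ι → ℕ → Prop) (f : ℕ → ZMod 2) (X z H N : ℕ) (κ : ℝ),
      (∀ i p, P i p → p.Prime ∧ p ≠ 2 ∧ (i ∈ J1 ↔ p % 8 = 1)) →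
      1 ≤ H → 1 ≤ z → 0 ≤ κ → C ≤ κ ^ 12 * z → (H : ℝ) * Real.log X < N →
      |(((Tup P X).filter fun p => ¬ Exc X z H p ∧ Gd f (univ.image p)).card : ℝ) -
          sp J1.card * (((Tup P X).filter fun p => ¬ Exc X z H p).card : ℝ)| ≤
        (N : ℝ) ^ Fintype.card ι * (2 ^ (Fintype.card ι + Fintype.card ι ^ 2) * (κ * X)) := by
  obtain ⟨C, hC, hB⟩ := hB
  refine ⟨C, hC, ?_⟩
  intro P f X z H N κ hP hH hz hκ hκz hN
  have hPp : ∀ i p, P i p → p.Prime := fun i p h => (hP i p h).1
  have hz0 : (0 : ℝ) < z := by exact_mod_cast hz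
  -- the value in a box
  set B : Finset (ι → ℕ) := Fintype.piFinset fun _ : ι => range N with hBd
  have hmem : ∀ p ∈ Tup P X, (fun i => jj H (p i)) ∈ B := by
    intro p hp
    rw [mem_Tup hPp] at hp
    rw [hBd, Fintype.mem_piFinset]
    intro i
    rw [mem_range]
    have hp0 := (hPp i _ (hp.1 i)).pos
    have hqX : p i ≤ X := by
      refine le_trans ?_ hp.2.2
      exact Nat.le_of_dvd (Finset.prod_pos fun j _ => (hPp j _ (hp.1 j)).pos)
        (Finset.dvd_prod_of_mem _ (mem_univ i))
    have h3 : ((jj H (p i) : ℕ) : ℝ) < N := by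
      refine lt_of_le_of_lt (Nat.floor_le (mul_nonneg (Nat.cast_nonneg _)
        (Real.log_nonneg (by exact_mod_cast hp0)))) ?_
      refine lt_of_le_of_lt ?_ hN
      refine mul_le_mul_of_nonneg_left ?_ (Nat.cast_nonneg _)
      exact Real.log_le_log (by exact_mod_cast hp0) (by exact_mod_cast hqX)
    exact_mod_cast h3
  have hfib : ∀ T : (ι → ℕ) → Prop,
      (((Tup P X).filter fun p => ¬ Exc X z H p ∧ T p).card : ℝ) =
      ∑ b ∈ B, ((((Tup P X).filter fun p => ¬ Exc X z H p ∧
        (fun i => jj H (p i)) = b).filter T).card : ℝ) := by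
    intro T
    rw [Finset.card_eq_sum_card_fiberwise (f := fun (p : ι → ℕ) (i : ι) => jj H (p i))
      (t := B) (fun p hp => by
        rw [mem_coe, mem_filter] at hp
        exact mem_coe.2 (hmem p hp.1))]
    push_cast
    refine Finset.sum_congr rfl fun b _ => ?_
    congr 2
    ext p
    simp only [mem_filter]
    tauto
  have hf1 := hfib fun p => Gd f (univ.image p)
  have hf2 := hfib fun _ => True
  simp only [and_true, Finset.filter_true] at hf2
  rw [hf1, hf2, Finset.mul_sum, ← Finset.sum_sub_distrib]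
  refine (Finset.abs_sum_le_sum_abs _ _).trans ?_
  have hbox : ∀ b ∈ B, |((((Tup P X).filter fun p => ¬ Exc X z H p ∧
        (fun i => jj H (p i)) = b).filter fun p => Gd f (univ.image p)).card : ℝ) -
      sp J1.card * (((Tup P X).filter fun p => ¬ Exc X z H p ∧
        (fun i => jj H (p i)) = b).card : ℝ)| ≤
      2 ^ (Fintype.card ι + Fintype.card ι ^ 2) * (κ * X) := by
    intro b _
    by_cases hb : Function.Injective b ∧ ∏ i, XX H (b i) ≤ X
    · rw [fib_eq hPp hH hb.1 hb.2]
      have hmb : ∀ i, ∀ p ∈ bx P z H b i, P i p ∧ jj H p = b i ∧ z < p ∧ p ≤ XX H (b i) := by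
        intro i p hp
        unfold bx at hp
        rw [mem_filter, mem_Icc] at hp
        exact ⟨hp.2.1, hp.2.2.1, hp.2.2.2, hp.1.2⟩
      have hdis : ∀ i l, i ≠ l → Disjoint (bx P z H b i) (bx P z H b l) := by
        intro i l hil
        rw [Finset.disjoint_left]
        intro p hp hp'
        exact hil (hb.1 ((hmb i p hp).2.1.symm.trans (hmb l p hp').2.1))
      have h1 := box0 hS hEQ f J1 (bx P z H b) (fun i => XX H (b i)) κ hκ
        (fun i => by
          refine (Finset.card_filter_le _ _).trans ?_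
          rw [Nat.card_Icc]
          omega)
        (by
          intro i l hil hi c d hc hd
          have hk0 : (0 : ℝ) ≤ κ * ((XX H (b i) : ℝ) * (XX H (b l) : ℝ)) := by positivity
          rcases (bx P z H b i).eq_empty_or_nonempty with he | ⟨p₀, hp₀⟩
          · rw [he, Finset.sum_empty, norm_zero]
            exact hk0
          rcases (bx P z H b l).eq_empty_or_nonempty with he | ⟨q₀, hq₀⟩
          · rw [he]
            simp only [Finset.sum_empty, Finset.sum_const_zero, norm_zero]
            exact hk0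
          have hzi : z ≤ XX H (b i) := by
            have := hmb i p₀ hp₀
            omega
          have hzl : z ≤ XX H (b l) := by
            have := hmb l q₀ hq₀
            omega
          have h3 := hB (bx P z H b i) (bx P z H b l) (XX H (b i)) (XX H (b l)) z c d
            (fun p hp => by
              have h4 := hmb i p hp
              have h5 := hP i p h4.1
              exact ⟨h5.1, h5.2.2.1 hi, h4.2.2.2⟩)
            (fun p hp => by
              have h4 := hmb l p hp
              have h5 := hP l p h4.1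
              exact ⟨h5.1, h5.2.1, h4.2.2.2⟩)
            (hdis i l hil) hz hzi hzl hc hd
          exact root12 (norm_nonneg _) hκ (Nat.cast_nonneg _) (Nat.cast_nonneg _) hz0 h3 hκz)
        (fun i p hp => hP i p (hmb i p hp).1) hdis hne
      refine h1.trans ?_
      have h2 : ∏ j, ((XX H (b j) : ℕ) : ℝ) ≤ X := by exact_mod_cast hb.2
      have h3 : (prs J1).card ≤ Fintype.card ι ^ 2 := by
        rw [pow_two]
        exact prs_card J1
      have h4 : κ * ∏ j, ((XX H (b j) : ℕ) : ℝ) ≤ κ * X := mul_le_mul_of_nonneg_left h2 hκ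
      have h5 : (0 : ℝ) ≤ κ * ∏ j, ((XX H (b j) : ℕ) : ℝ) :=
        mul_nonneg hκ (Finset.prod_nonneg fun j _ => by positivity)
      refine mul_le_mul ?_ h4 h5 (by positivity)
      exact pow_le_pow_right₀ (by norm_num) (by omega)
    · rw [fib_empty hb]
      simp only [Finset.filter_empty, Finset.card_empty, Nat.cast_zero, mul_zero, sub_zero, abs_zero]
      positivity
  refine (Finset.sum_le_sum hbox).trans ?_
  rw [Finset.sum_const, nsmul_eq_mul, hBd, Fintype.card_piFinset]
  simp only [Finset.card_range, Finset.prod_const, Finset.card_univ]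
  push_cast
  exact le_rfl

end tup

end Pool.Agent.V11291.FK
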