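import Pool.Agent.Erdos456.Mertens
import Pool.Agent.Y391.CQ.CNT
import Pool.Agent.V11291.FK.Tup

/-!
# A fixed number of primes: upper bounds
-/

set_option autoImplicit false

open scoped Classical

namespace Pool.Agent.V11291.FK

open Finset
open Pool.Agent.Y703.CX (sm la jj XX)
open Pool.Agent.Y703.CQ

/-- Chebyshev's upper bound -/
theorem pi_le {Y : ℕ} (hY : 2 ≤ Y) : (Nat.primeCounting Y : ℝ) ≤ 6 * (Y / Real.log Y) := by
  have hY1 : (1 : ℝ) < Y := by exact_mod_cast (by omega : 1 < Y)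
  have hY0 : (0 : ℝ) < Y := by linarith
  have h := Chebyshev.pi_le_log4_mul_div hY1
  rw [Nat.floor_natCast] at h
  have hl : 0 < Real.log Y := Real.log_pos hY1
  have h2 : Real.log (Real.sqrt Y) = Real.log Y / 2 := Real.log_sqrt hY0.le
  have h3 : Real.sqrt Y ≤ 2 * (Y / Real.log Y) := by
    have h4 : Real.log (Real.sqrt Y) ≤ Real.sqrt Y - 1 := Real.log_le_sub_one_of_pos (by positivity)
    rw [h2] at h4
    have h5 : Real.log Y ≤ 2 * Real.sqrt Y := by
      have : 0 ≤ Real.sqrt Y := Real.sqrt_nonneg _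
      linarith
    rw [← mul_div_assoc, le_div_iff₀ hl]
    have h6 : Real.sqrt Y * Real.sqrt Y = Y := Real.mul_self_sqrt hY0.le
    calc Real.sqrt Y * Real.log Y ≤ Real.sqrt Y * (2 * Real.sqrt Y) :=
          mul_le_mul_of_nonneg_left h5 (Real.sqrt_nonneg _)
      _ = 2 * (Real.sqrt Y * Real.sqrt Y) := by ring
      _ = 2 * Y := by rw [h6]
  have h4 : Real.log 4 * Y / Real.log (Real.sqrt Y) ≤ 4 * (Y / Real.log Y) := by
    rw [h2]
    have h5 : Real.log 4 ≤ 2 := by
      have h6 : Real.log 4 = 2 * Real.log 2 := by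
        rw [show (4 : ℝ) = 2 ^ 2 by norm_num, Real.log_pow]
        norm_num
      have := Real.log_two_lt_d9
      linarith
    have h6 : Real.log 4 * Y / (Real.log Y / 2) = (2 * Real.log 4) * (Y / Real.log Y) := by
      field_simp
    rw [h6]
    refine mul_le_mul_of_nonneg_right (by linarith) (by positivity)
  linarith

/-- the sets of `j` primes with product at most `Y` -/
noncomputable def AA (j Y : ℕ) : Finset (Finset ℕ) :=
  (range (Y + 1)).powerset.filter fun S => (∀ p ∈ S, p.Prime) ∧ S.card = j ∧ ∏ p ∈ S, p ≤ Y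

theorem mem_AA {j Y : ℕ} {S : Finset ℕ} :
    S ∈ AA j Y ↔ (∀ p ∈ S, p.Prime) ∧ S.card = j ∧ ∏ p ∈ S, p ≤ Y := by
  unfold AA
  rw [mem_filter, mem_powerset]
  constructor
  · exact fun h => h.2
  · intro h
    refine ⟨fun p hp => ?_, h⟩
    rw [mem_range]
    have h1 : p ≤ ∏ q ∈ S, q := Nat.le_of_dvd
      (Finset.prod_pos fun q hq => (h.1 q hq).pos) (Finset.dvd_prod_of_mem _ hp)
    have := h.2.2
    omega

theorem AA_erase {j Y p : ℕ} {S : Finset ℕ} (hS : S ∈ AA (j + 1) Y) (hp : p ∈ S) :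
    S.erase p ∈ AA j (Y / p) := by
  rw [mem_AA] at hS ⊢
  obtain ⟨h1, h2, h3⟩ := hS
  refine ⟨fun q hq => h1 q (Finset.mem_of_mem_erase hq), ?_, ?_⟩
  · rw [Finset.card_erase_of_mem hp, h2]
    rfl
  · rw [Nat.le_div_iff_mul_le (h1 p hp).pos, mul_comm]
    exact (Finset.mul_prod_erase S (fun q => q) hp).le.trans h3

/-- the sets with a prime from `G` -/
theorem card_AA_le (j Y : ℕ) (G : Finset ℕ) (Q : Finset ℕ → Prop)
    (hQ : ∀ S ∈ AA (j + 1) Y, Q S → ∃ p ∈ S, p ∈ G) :
    ((AA (j + 1) Y).filter Q).card ≤ ∑ p ∈ G, (AA j (Y / p)).card := by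
  rw [← Finset.card_sigma]
  choose! g hg using hQ
  refine Finset.card_le_card_of_injOn (fun S => ⟨g S, S.erase (g S)⟩) ?_ ?_
  · intro S hS
    rw [mem_coe, mem_filter] at hS
    have h1 := hg S hS.1 hS.2
    rw [mem_coe, Finset.mem_sigma]
    exact ⟨h1.2, AA_erase hS.1 h1.1⟩
  · intro S hS T hT h
    rw [mem_coe, mem_filter] at hS hT
    have h1 := hg S hS.1 hS.2
    have h2 := hg T hT.1 hT.2
    simp only [Sigma.mk.injEq, heq_eq_eq] at h
    rw [← Finset.insert_erase h1.1, ← Finset.insert_erase h2.1, h.1]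
    rw [h.1] at h
    congr 1
    have h3 := h.2
    rw [← h3]

/-- the double logarithm, shifted -/
noncomputable def LL (M : ℝ) (Y : ℕ) : ℝ := Real.log (Real.log Y) + M

theorem LL_mono {M : ℝ} {y Y : ℕ} (hy : 2 ≤ y) (h : y ≤ Y) : LL M y ≤ LL M Y := by
  unfold LL
  have h1 : (1 : ℝ) < y := by exact_mod_cast (by omega : 1 < y)
  have h2 : Real.log y ≤ Real.log Y :=
    Real.log_le_log (by linarith) (by exact_mod_cast h)
  have h3 : 0 < Real.log y := Real.log_pos h1
  have := Real.log_le_log h3 h2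
  linarith

theorem one_le_LL {M : ℝ} (hM : 2 ≤ M) {y : ℕ} (hy : 2 ≤ y) : 1 ≤ LL M y := by
  refine le_trans ?_ (LL_mono (le_refl 2) hy)
  unfold LL
  have h1 := Real.log_two_gt_d9
  have h2 : Real.log (1 / Real.exp 1) ≤ Real.log (Real.log 2) := by
    apply Real.log_le_log (by positivity)
    have h3 := Real.exp_one_gt_d9
    rw [div_le_iff₀ (by positivity)]
    have : (1 : ℝ) ≤ 0.6931471803 * 2.7182818283 := by norm_num
    push_cast
    nlinarith
  rw [Real.log_div (by norm_num) (by positivity), Real.log_one, Real.log_exp] at h2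
  have h3 : Real.log (Real.log ((2 : ℕ) : ℝ)) = Real.log (Real.log 2) := by norm_num
  linarith

/-- the hypothesis on the constant: Mertens' upper bound -/
def MH (M : ℝ) : Prop := 2 ≤ M ∧ ∀ y : ℕ, 2 ≤ y →
  ∑ p ∈ (range (y + 1)).filter Nat.Prime, (1 : ℝ) / p ≤ LL M y

theorem exists_MH : ∃ M, MH M := by
  obtain ⟨C, hC⟩ := Pool.Agent.Erdos456.Mert.mertens_inv
  refine ⟨max 3 (C + 2), by
    have := le_max_left (3 : ℝ) (C + 2)
    linarith, ?_⟩
  intro y hy
  have e : (range (y + 1)).filter Nat.Prime = Pool.Agent.Erdos456.Mert.PP y := by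
    unfold Pool.Agent.Erdos456.Mert.PP
    ext p
    simp only [mem_filter, mem_range, mem_Icc]
    constructor
    · rintro ⟨h1, h2⟩
      exact ⟨⟨h2.one_lt.le, by omega⟩, h2⟩
    · rintro ⟨⟨h1, h3⟩, h2⟩
      exact ⟨by omega, h2⟩
  rw [e]
  rcases Nat.lt_or_ge 2 y with h | h
  · have h1 := hC y h
    rw [abs_le] at h1
    unfold LL
    have := le_max_right (3 : ℝ) (C + 2)
    have e2 : ∑ p ∈ Pool.Agent.Erdos456.Mert.PP y, (1 : ℝ) / p =
      ∑ p ∈ Pool.Agent.Erdos456.Mert.PP y, 1 / (p : ℝ) := rfl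
    linarith [h1.2]
  · have hy2 : y = 2 := by omega
    subst hy2
    have e3 : Pool.Agent.Erdos456.Mert.PP 2 = {2} := by
      unfold Pool.Agent.Erdos456.Mert.PP
      decide
    rw [e3, Finset.sum_singleton]
    have := one_le_LL (M := max 3 (C + 2)) (by
      have := le_max_left (3 : ℝ) (C + 2)
      linarith) (le_refl 2)
    push_cast at this ⊢
    linarith

theorem log_div_ge {Y p : ℕ} (hp : 2 ≤ p) (h : p * p ≤ Y) :
    2 ≤ Y / p ∧ Real.log Y / 4 ≤ Real.log ((Y / p : ℕ) : ℝ) := by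
  have h1 : p ≤ Y / p := by rw [Nat.le_div_iff_mul_le (by omega)]; exact h
  refine ⟨by omega, ?_⟩
  set s := Y / p with hs
  have h2 : Y < (s + 1) * p := by
    have := Nat.div_add_mod Y p
    have h3 := Nat.mod_lt Y (show 0 < p by omega)
    rw [← hs] at this
    nlinarith
  have h3 : Y ≤ s ^ 4 := by
    have h4 : (s + 1) * p ≤ s ^ 4 := by
      have h5 : s + 1 ≤ s * s := by nlinarith
      calc (s + 1) * p ≤ (s * s) * (s * s) := Nat.mul_le_mul h5 (by nlinarith)
        _ = s ^ 4 := by ring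
    omega
  have hY : (0 : ℝ) < Y := by
    have : 0 < p * p := Nat.mul_pos (by omega) (by omega)
    exact_mod_cast (by omega : 0 < Y)
  have h4 : Real.log Y ≤ Real.log ((s : ℝ) ^ 4) := Real.log_le_log hY (by exact_mod_cast h3)
  rw [Real.log_pow] at h4
  push_cast at h4
  linarith

/-- the sum over the small primes -/
theorem sum_AA_le {M : ℝ} (hM : MH M) {j : ℕ} {C : ℝ} (hC : 0 ≤ C)
    (h : ∀ Y : ℕ, 2 ≤ Y → ((AA (j + 1) Y).card : ℝ) ≤ C * (Y * LL M Y ^ j / Real.log Y))
    {Y z : ℕ} (hz : 2 ≤ z) (hzY : z * z ≤ Y) :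
    ∑ p ∈ (range (z + 1)).filter Nat.Prime, ((AA (j + 1) (Y / p)).card : ℝ) ≤
      4 * C * (Y * LL M Y ^ j * LL M z / Real.log Y) := by
  have hY : 2 ≤ Y := by nlinarith
  have hY1 : (1 : ℝ) < Y := by exact_mod_cast (by omega : 1 < Y)
  have hl : 0 < Real.log Y := Real.log_pos hY1
  have hL : 1 ≤ LL M Y := one_le_LL hM.1 hY
  have h1 : ∀ p ∈ (range (z + 1)).filter Nat.Prime, ((AA (j + 1) (Y / p)).card : ℝ) ≤
      4 * C * (Y * LL M Y ^ j / Real.log Y) * (1 / (p : ℝ)) := by
    intro p hp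
    rw [mem_filter, mem_range] at hp
    have hp2 := hp.2.two_le
    have hpp : p * p ≤ Y := le_trans (Nat.mul_le_mul (by omega) (by omega)) hzY
    obtain ⟨h2, h3⟩ := log_div_ge hp2 hpp
    refine (h _ h2).trans ?_
    have hp0 : (0 : ℝ) < p := by exact_mod_cast hp.2.pos
    have hYp : ((Y / p : ℕ) : ℝ) ≤ Y / p := Nat.cast_div_le
    have hle : Y / p ≤ Y := Nat.div_le_self _ _
    have hLL : LL M (Y / p) ≤ LL M Y := LL_mono h2 hle
    have hLL0 : 0 ≤ LL M (Y / p) := by linarith [one_le_LL hM.1 h2]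
    have h4 : LL M (Y / p) ^ j ≤ LL M Y ^ j := pow_le_pow_left₀ hLL0 hLL j
    have h5 : ((Y / p : ℕ) : ℝ) * LL M (Y / p) ^ j / Real.log ((Y / p : ℕ) : ℝ) ≤
        (Y / p * LL M Y ^ j) / (Real.log Y / 4) := by
      apply div_le_div₀ (by positivity) ?_ (by positivity) h3
      apply mul_le_mul hYp h4 (by positivity) (by positivity)
    calc C * (((Y / p : ℕ) : ℝ) * LL M (Y / p) ^ j / Real.log ((Y / p : ℕ) : ℝ)) ≤
        C * ((Y / p * LL M Y ^ j) / (Real.log Y / 4)) := mul_le_mul_of_nonneg_left h5 hC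
      _ = _ := by
        field_simp
  refine (Finset.sum_le_sum h1).trans ?_
  rw [← Finset.mul_sum]
  have h2 := hM.2 z hz
  calc 4 * C * (Y * LL M Y ^ j / Real.log Y) *
      ∑ p ∈ (range (z + 1)).filter Nat.Prime, (1 / (p : ℝ)) ≤
      4 * C * (Y * LL M Y ^ j / Real.log Y) * LL M z :=
        mul_le_mul_of_nonneg_left h2 (by positivity)
    _ = _ := by ring

/-- the number of the products of `j + 1` different primes -/
theorem card_AA {M : ℝ} (hM : MH M) (j : ℕ) : ∃ C : ℝ, 1 ≤ C ∧ ∀ Y : ℕ, 2 ≤ Y →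
    ((AA (j + 1) Y).card : ℝ) ≤ C * (Y * LL M Y ^ j / Real.log Y) := by
  induction j with
  | zero =>
    refine ⟨6, by norm_num, fun Y hY => ?_⟩
    have h := pi_le hY
    rw [pow_zero, mul_one]
    refine le_trans ?_ h
    have h1 : (AA (0 + 1) Y).card ≤ Nat.primeCounting Y := by
      rw [Nat.primeCounting, Nat.primeCounting', Nat.count_eq_card_filter_range]
      refine (Finset.card_le_card_of_injOn (fun S => ∏ p ∈ S, p) ?_ ?_)
      · intro S hS
        rw [mem_coe, mem_AA] at hS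
        obtain ⟨p, rfl⟩ := Finset.card_eq_one.1 hS.2.1
        rw [mem_coe, mem_filter, mem_range]
        have := hS.2.2
        rw [Finset.prod_singleton] at this
        simp only [Finset.prod_singleton]
        exact ⟨by omega, hS.1 p (mem_singleton_self p)⟩
      · intro S hS T hT h
        rw [mem_coe, mem_AA] at hS hT
        exact Pool.Agent.Y391.CQ.prod_inj hS.1 hT.1 h
    exact_mod_cast h1
  | succ j ih =>
    obtain ⟨C, hC, h⟩ := ih
    refine ⟨4 * C, by linarith, fun Y hY => ?_⟩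
    have hY1 : (1 : ℝ) < Y := by exact_mod_cast (by omega : 1 < Y)
    have hl : 0 < Real.log Y := Real.log_pos hY1
    have hL : 1 ≤ LL M Y := one_le_LL hM.1 hY
    by_cases h4 : Nat.sqrt Y < 2
    · -- no such sets
      have h5 : AA (j + 1 + 1) Y = ∅ := by
        by_contra hne
        obtain ⟨S, hS⟩ := Finset.nonempty_iff_ne_empty.2 hne
        rw [mem_AA] at hS
        have h6 : 2 ≤ S.card := by omega
        obtain ⟨a, ha, b, hb, hab⟩ := Finset.one_lt_card.1 (by omega : 1 < S.card)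
        have h7 : a * b ≤ ∏ p ∈ S, p := by
          rw [← Finset.mul_prod_erase S _ ha]
          refine Nat.mul_le_mul le_rfl (Nat.le_of_dvd
            (Finset.prod_pos fun q hq => (hS.1 q (Finset.mem_of_mem_erase hq)).pos) ?_)
          exact Finset.dvd_prod_of_mem _ (Finset.mem_erase.2 ⟨Ne.symm hab, hb⟩)
        have h8 := (hS.1 a ha).two_le
        have h9 := (hS.1 b hb).two_le
        have h10 : 2 ≤ Nat.sqrt Y := by
          rw [Nat.le_sqrt]
          nlinarith [hS.2.2]
        omega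
      rw [h5, Finset.card_empty]
      push_cast
      positivity
    · have hz : 2 ≤ Nat.sqrt Y := by omega
      have hzY : Nat.sqrt Y * Nat.sqrt Y ≤ Y := Nat.sqrt_le Y
      have h5 := sum_AA_le hM (by linarith) h hz hzY
      have h6 := card_AA_le (j + 1) Y ((range (Nat.sqrt Y + 1)).filter Nat.Prime) (fun _ => True)
        (by
          intro S hS _
          rw [mem_AA] at hS
          obtain ⟨a, ha, b, hb, hab⟩ := Finset.one_lt_card.1 (by omega : 1 < S.card)
          have h7 : a * b ≤ ∏ p ∈ S, p := by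
            rw [← Finset.mul_prod_erase S _ ha]
            refine Nat.mul_le_mul le_rfl (Nat.le_of_dvd
              (Finset.prod_pos fun q hq => (hS.1 q (Finset.mem_of_mem_erase hq)).pos) ?_)
            exact Finset.dvd_prod_of_mem _ (Finset.mem_erase.2 ⟨Ne.symm hab, hb⟩)
          rcases le_total a b with h8 | h8
          · refine ⟨a, ha, ?_⟩
            rw [mem_filter, mem_range]
            refine ⟨?_, hS.1 a ha⟩
            have : a ≤ Nat.sqrt Y := by
              rw [Nat.le_sqrt]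
              nlinarith [hS.2.2]
            omega
          · refine ⟨b, hb, ?_⟩
            rw [mem_filter, mem_range]
            refine ⟨?_, hS.1 b hb⟩
            have : b ≤ Nat.sqrt Y := by
              rw [Nat.le_sqrt]
              nlinarith [hS.2.2]
            omega)
      rw [Finset.filter_true] at h6
      have h7 : ((AA (j + 1 + 1) Y).card : ℝ) ≤
          ∑ p ∈ (range (Nat.sqrt Y + 1)).filter Nat.Prime, ((AA (j + 1) (Y / p)).card : ℝ) := by
        exact_mod_cast h6
      refine h7.trans (h5.trans ?_)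
      have h8 : LL M (Nat.sqrt Y) ≤ LL M Y := LL_mono hz (Nat.sqrt_le_self Y)
      have h9 : (Y : ℝ) * LL M Y ^ j * LL M (Nat.sqrt Y) / Real.log Y ≤
          Y * LL M Y ^ (j + 1) / Real.log Y := by
        apply div_le_div_of_nonneg_right ?_ hl.le
        rw [pow_succ, ← mul_assoc]
        exact mul_le_mul_of_nonneg_left h8 (by positivity)
      exact mul_le_mul_of_nonneg_left h9 (by linarith)

end Pool.Agent.V11291.FK
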